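import Mathlib

set_option autoImplicit false

/-!
Amenability of discrete groups through Følner sets, and its closure properties.
-/

namespace Pool.Agent.PC

open Finset

universe u v

open scoped Classical in
/-- internal form of Følner's condition -/
def Fol (G : Type u) [Group G] : Prop :=
  ∀ (S : Finset G) (ε : ℝ), 0 < ε → ∃ F : Finset G, F.Nonempty ∧
    ∀ s ∈ S, (#{y ∈ F | s * y ∉ F} : ℝ) ≤ ε * #F

section

variable {G : Type u} [Group G] {Q : Type v} [Group Q]

theorem Fol.of_finite_subgroups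
    (h : ∀ S : Finset G, ∃ K : Subgroup G, Finite K ∧ ∀ s ∈ S, s ∈ K) : Fol G := by
  classical
  intro S ε hε
  obtain ⟨K, hK, hS⟩ := h S
  have hfin : (K : Set G).Finite := hK
  refine ⟨hfin.toFinset, ⟨1, by simp [K.one_mem]⟩, ?_⟩
  intro s hs
  have : {y ∈ hfin.toFinset | s * y ∉ hfin.toFinset} = (∅ : Finset G) := by
    ext y
    simp only [Finset.mem_filter, Set.Finite.mem_toFinset, SetLike.mem_coe,
      Finset.notMem_empty, iff_false, not_and, not_not]
    intro hy
    exact K.mul_mem (hS s hs) hy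
  rw [this]
  simp only [Finset.card_empty, Nat.cast_zero]
  positivity

/-- an injective homomorphism into a Følner group -/
theorem Fol.of_injective (f : G →* Q) (hf : Function.Injective f) (hQ : Fol Q) : Fol G := by
  classical
  intro S ε hε
  obtain ⟨F, hF, hFS⟩ := hQ (S.image f) (ε / (#S + 1)) (by positivity)
  -- right cosets
  let π : Q → Quotient (QuotientGroup.rightRel f.range) := Quotient.mk''
  have hπ : ∀ (g : G) (y : Q), π (f g * y) = π y := by
    intro g y
    apply Quotient.sound'
    rw [QuotientGroup.rightRel_apply]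
    have : y * (f g * y)⁻¹ = f g⁻¹ := by
      rw [map_inv]; group
    rw [this]
    exact ⟨_, rfl⟩
  let I := F.image π
  have hcard : #F = ∑ c ∈ I, #{y ∈ F | π y = c} := Finset.card_eq_sum_card_image π F
  let bad : Quotient (QuotientGroup.rightRel f.range) → G → ℝ := fun c s =>
    #{y ∈ F | π y = c ∧ f s * y ∉ F}
  have hbad : ∀ s ∈ S, ∑ c ∈ I, bad c s = #{y ∈ F | f s * y ∉ F} := by
    intro s _
    have h1 : #{y ∈ F | f s * y ∉ F} =
        ∑ c ∈ I, #{y ∈ ({y ∈ F | f s * y ∉ F} : Finset Q) | π y = c} := by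
      apply Finset.card_eq_sum_card_fiberwise
      intro y hy
      simp only [Finset.coe_filter, Set.mem_ofPred_eq] at hy
      exact Finset.mem_coe.2 (Finset.mem_image_of_mem π hy.1)
    rw [h1]
    push_cast
    apply Finset.sum_congr rfl
    intro c _
    simp only [bad]
    congr 2
    ext y
    simp only [Finset.mem_filter]
    tauto
  have htot : ∑ c ∈ I, ∑ s ∈ S, bad c s ≤ ∑ c ∈ I, ε * (#{y ∈ F | π y = c} : ℝ) := by
    rw [Finset.sum_comm, ← Finset.mul_sum]
    calc ∑ s ∈ S, ∑ c ∈ I, bad c s = ∑ s ∈ S, (#{y ∈ F | f s * y ∉ F} : ℝ) :=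
          Finset.sum_congr rfl hbad
      _ ≤ ∑ s ∈ S, ε / (#S + 1) * #F := by
          apply Finset.sum_le_sum
          intro s hs
          exact hFS (f s) (Finset.mem_image_of_mem f hs)
      _ = #S * (ε / (#S + 1)) * #F := by
          rw [Finset.sum_const, nsmul_eq_mul]; ring
      _ ≤ ε * #F := by
          apply mul_le_mul_of_nonneg_right _ (by positivity)
          rw [mul_div_assoc', div_le_iff₀ (by positivity)]
          nlinarith
      _ = ε * ∑ c ∈ I, (#{y ∈ F | π y = c} : ℝ) := by
          rw [hcard]; push_cast; rfl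
  obtain ⟨c, hcI, hc⟩ := Finset.exists_le_of_sum_le (hF.image π) htot
  obtain ⟨g, hgF, hgc⟩ := Finset.mem_image.1 hcI
  -- translate into `G`
  have hinj : Function.Injective (fun x : G => f x * g) := fun x y h => hf (mul_right_cancel h)
  let F' : Finset G := F.preimage (fun x : G => f x * g) hinj.injOn
  have hmem : ∀ x, x ∈ F' ↔ f x * g ∈ F := by
    intro x; simp [F']
  have himg : ∀ y, π y = c → ∃ x, f x * g = y := by
    intro y hy
    rw [← hgc] at hy
    have := Quotient.exact' hy
    rw [QuotientGroup.rightRel_apply] at this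
    obtain ⟨x, hx⟩ := this
    refine ⟨x⁻¹, ?_⟩
    rw [map_inv, hx]; group
  have hcardF' : #F' = #{y ∈ F | π y = c} := by
    apply Finset.card_bij (fun x _ => f x * g)
    · intro x hx
      rw [Finset.mem_filter]
      exact ⟨(hmem x).1 hx, by rw [hπ]; exact hgc⟩
    · intro x _ y _ h
      exact hinj h
    · intro y hy
      rw [Finset.mem_filter] at hy
      obtain ⟨x, hx⟩ := himg y hy.2
      exact ⟨x, (hmem x).2 (by rw [hx]; exact hy.1), hx⟩
  have hbadF' : ∀ s, (#{y ∈ F' | s * y ∉ F'} : ℝ) = bad c s := by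
    intro s
    simp only [bad]
    congr 1
    apply Finset.card_bij (fun x _ => f x * g)
    · intro x hx
      rw [Finset.mem_filter] at hx ⊢
      refine ⟨(hmem x).1 hx.1, by rw [hπ]; exact hgc, ?_⟩
      intro h
      apply hx.2
      rw [hmem, map_mul, mul_assoc]
      exact h
    · intro x _ y _ h
      exact hinj h
    · intro y hy
      rw [Finset.mem_filter] at hy
      obtain ⟨x, hx⟩ := himg y hy.2.1
      refine ⟨x, ?_, hx⟩
      rw [Finset.mem_filter]
      refine ⟨(hmem x).2 (by rw [hx]; exact hy.1), ?_⟩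
      intro h
      rw [hmem, map_mul, mul_assoc, hx] at h
      exact hy.2.2 h
  refine ⟨F', ⟨1, (hmem 1).2 (by simpa using hgF)⟩, ?_⟩
  intro s hs
  rw [hbadF' s, hcardF']
  refine le_trans ?_ hc
  apply Finset.single_le_sum (f := fun s => bad c s) _ hs
  intro i _
  simp only [bad]
  positivity

/-- extensions, surjective form -/
theorem Fol.of_extension_surj (f : G →* Q) (hf : Function.Surjective f) (hQ : Fol Q)
    (hK : Fol f.ker) : Fol G := by
  classical
  intro S ε hε
  obtain ⟨Fb, hFb, hFbS⟩ := hQ (S.image f) (ε / 2) (by positivity)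
  choose σ hσ using hf
  have hn : ∀ (s : G) (q : Q), (σ (f s * q))⁻¹ * s * σ q ∈ f.ker := by
    intro s q
    rw [MonoidHom.mem_ker, map_mul, map_mul, map_inv, hσ, hσ]
    group
  let n : G → Q → f.ker := fun s q => ⟨(σ (f s * q))⁻¹ * s * σ q, hn s q⟩
  obtain ⟨FN, hFN, hFNS⟩ := hK ((S ×ˢ Fb).image (fun p => n p.1 p.2)) (ε / 2) (by positivity)
  have hinj : Function.Injective (fun p : Q × f.ker => σ p.1 * (p.2 : G)) := by
    rintro ⟨q, x⟩ ⟨q', x'⟩ h
    have hx : f (x : G) = 1 := x.2
    have hx' : f (x' : G) = 1 := x'.2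
    have h1 : q = q' := by
      have := congrArg f h
      simpa [hσ, hx, hx'] using this
    subst h1
    have h2 : (x : G) = x' := mul_left_cancel h
    rw [Subtype.ext h2]
  let F : Finset G := (Fb ×ˢ FN).map ⟨fun p : Q × f.ker => σ p.1 * (p.2 : G), hinj⟩
  have hFcard : (#F : ℝ) = #Fb * #FN := by
    simp [F]
  refine ⟨F, ?_, ?_⟩
  · obtain ⟨q, hq⟩ := hFb
    obtain ⟨x, hx⟩ := hFN
    exact ⟨σ q * x, by
      rw [Finset.mem_map]
      exact ⟨(q, x), Finset.mem_product.2 ⟨hq, hx⟩, rfl⟩⟩
  · intro s hs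
    have key : #{y ∈ F | s * y ∉ F} ≤
        #({q ∈ Fb | f s * q ∉ Fb} ×ˢ FN) + ∑ q ∈ Fb, #{x ∈ FN | n s q * x ∉ FN} := by
      have hsub : ({y ∈ F | s * y ∉ F} : Finset G) ⊆
          (({q ∈ Fb | f s * q ∉ Fb} ×ˢ FN) ∪
            Fb.biUnion (fun q => ({x ∈ FN | n s q * x ∉ FN}).map
              ⟨fun x => (q, x), fun _ _ h => (Prod.ext_iff.1 h).2⟩)).map
            ⟨fun p : Q × f.ker => σ p.1 * (p.2 : G), hinj⟩ := by
        intro y hy
        rw [Finset.mem_filter, Finset.mem_map] at hy
        obtain ⟨⟨⟨q, x⟩, hp, hpy⟩, hy2⟩ := hy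
        rw [Finset.mem_product] at hp
        rw [Finset.mem_map]
        refine ⟨(q, x), ?_, hpy⟩
        rw [Finset.mem_union]
        by_cases hq : f s * q ∈ Fb
        · right
          rw [Finset.mem_biUnion]
          refine ⟨q, hp.1, ?_⟩
          rw [Finset.mem_map]
          refine ⟨x, ?_, rfl⟩
          rw [Finset.mem_filter]
          refine ⟨hp.2, ?_⟩
          intro hx
          apply hy2
          rw [Finset.mem_map]
          refine ⟨(f s * q, n s q * x), Finset.mem_product.2 ⟨hq, hx⟩, ?_⟩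
          rw [← hpy]
          simp only [Function.Embedding.coeFn_mk, n, Subgroup.coe_mul]
          group
        · left
          rw [Finset.mem_product, Finset.mem_filter]
          exact ⟨⟨hp.1, hq⟩, hp.2⟩
      refine (Finset.card_le_card hsub).trans ?_
      rw [Finset.card_map]
      refine (Finset.card_union_le _ _).trans ?_
      gcongr
      refine Finset.card_biUnion_le.trans ?_
      apply Finset.sum_le_sum
      intro q _
      rw [Finset.card_map]
    have key2 : (#{y ∈ F | s * y ∉ F} : ℝ) ≤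
        #{q ∈ Fb | f s * q ∉ Fb} * #FN + ∑ q ∈ Fb, (#{x ∈ FN | n s q * x ∉ FN} : ℝ) := by
      have := (Nat.cast_le (α := ℝ)).2 key
      rw [Finset.card_product] at this
      push_cast at this
      exact this
    refine key2.trans ?_
    rw [hFcard]
    have h1 := hFbS (f s) (Finset.mem_image_of_mem f hs)
    have h2 : ∀ q ∈ Fb, (#{x ∈ FN | n s q * x ∉ FN} : ℝ) ≤ ε / 2 * #FN := by
      intro q hq
      have h3 : n s q ∈ (S ×ˢ Fb).image (fun p => n p.1 p.2) :=
        Finset.mem_image.2 ⟨(s, q), Finset.mem_product.2 ⟨hs, hq⟩, rfl⟩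
      have h4 := hFNS (n s q) h3
      convert h4 using 3
      ext x
      simp only [Finset.mem_filter]
    calc (#{q ∈ Fb | f s * q ∉ Fb} * #FN + ∑ q ∈ Fb, (#{x ∈ FN | n s q * x ∉ FN} : ℝ) : ℝ)
        ≤ (ε / 2 * #Fb) * #FN + ∑ q ∈ Fb, ε / 2 * (#FN : ℝ) := by
          apply add_le_add
          · exact mul_le_mul_of_nonneg_right h1 (by positivity)
          · exact Finset.sum_le_sum h2
      _ = ε * (#Fb * #FN) := by
          rw [Finset.sum_const, nsmul_eq_mul]; ring

/-- extensions -/
theorem Fol.of_extension (f : G →* Q) (hQ : Fol Q) (hK : Fol f.ker) : Fol G := by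
  apply Fol.of_extension_surj f.rangeRestrict f.rangeRestrict_surjective
  · exact Fol.of_injective f.range.subtype (Subgroup.subtype_injective _) hQ
  · rw [MonoidHom.ker_rangeRestrict]
    exact hK

end

/-- commutative groups -/
theorem Fol.of_comm (G : Type u) [CommGroup G] : Fol G := by
  classical
  intro S ε hε
  let B : ℕ → Finset G := fun n =>
    (Fintype.piFinset (fun _ : S => Finset.range (n + 1))).image (fun x => ∏ s : S, (s : G) ^ x s)
  have hone : ∀ n, (1 : G) ∈ B n := by
    intro n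
    rw [Finset.mem_image]
    exact ⟨fun _ => 0, by simp, by simp⟩
  have hcard : ∀ n, #(B n) ≤ (n + 1) ^ #S := by
    intro n
    refine Finset.card_image_le.trans ?_
    rw [Fintype.card_piFinset]
    simp
  have hmono : ∀ n, B n ⊆ B (n + 1) := by
    intro n
    apply Finset.image_subset_image
    intro x hx
    rw [Fintype.mem_piFinset] at hx ⊢
    intro s
    have := hx s
    rw [Finset.mem_range] at this ⊢
    omega
  have hmul : ∀ n, ∀ s ∈ S, ∀ y ∈ B n, s * y ∈ B (n + 1) := by
    intro n s hs y hy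
    rw [Finset.mem_image] at hy ⊢
    obtain ⟨x, hx, rfl⟩ := hy
    refine ⟨fun t => x t + if t = ⟨s, hs⟩ then 1 else 0, ?_, ?_⟩
    · rw [Fintype.mem_piFinset] at hx ⊢
      intro t
      have := hx t
      rw [Finset.mem_range] at this ⊢
      split_ifs <;> omega
    · simp only [pow_add, Finset.prod_mul_distrib]
      rw [mul_comm]
      congr 1
      rw [Finset.prod_eq_single (⟨s, hs⟩ : S)]
      · simp
      · intro t _ ht
        simp [ht]
      · simp
  obtain ⟨n, hn⟩ : ∃ n, (#(B (n + 1)) : ℝ) ≤ (1 + ε) * #(B n) := by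
    by_contra hcon
    push Not at hcon
    have hgrow : ∀ n, (1 + ε) ^ n ≤ (#(B n) : ℝ) := by
      intro n
      induction n with
      | zero =>
        have : 0 < #(B 0) := Finset.card_pos.2 ⟨1, hone 0⟩
        simp only [pow_zero]
        exact_mod_cast this
      | succ n ih =>
        rw [pow_succ']
        refine le_trans ?_ (hcon n).le
        gcongr
    have hle : ∀ n : ℕ, (1 + ε) ^ n ≤ ((n : ℝ) + 1) ^ #S := by
      intro n
      refine (hgrow n).trans ?_
      have := (Nat.cast_le (α := ℝ)).2 (hcard n)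
      push_cast at this
      exact this
    have hlim := tendsto_pow_const_div_const_pow_of_one_lt (#S) (show (1 : ℝ) < 1 + ε by linarith)
    have hev := hlim.eventually (gt_mem_nhds (show (0 : ℝ) < 1 / (1 + ε) by positivity))
    obtain ⟨N, hN⟩ := Filter.eventually_atTop.1 hev
    have h1 := hN (N + 1) (by omega)
    have h2 := hle N
    rw [div_lt_div_iff₀ (by positivity) (by positivity)] at h1
    have h3 : ((N + 1 : ℕ) : ℝ) ^ #S = ((N : ℝ) + 1) ^ #S := by push_cast; rfl
    rw [h3, pow_succ] at h1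
    have : (1 + ε) ^ N * (1 + ε) ≤ ((N : ℝ) + 1) ^ #S * (1 + ε) := by gcongr
    linarith
  refine ⟨B n, ⟨1, hone n⟩, ?_⟩
  intro s hs
  have h1 : #{y ∈ B n | s * y ∉ B n} ≤ #(B (n + 1) \ B n) := by
    apply Finset.card_le_card_of_injOn (fun y => s * y)
    · intro y hy
      simp only [Finset.coe_filter, Set.mem_ofPred_eq] at hy
      simp only [Finset.coe_sdiff, Set.mem_sdiff, Finset.mem_coe]
      exact ⟨hmul n s hs y hy.1, hy.2⟩
    · intro x _ y _ h
      exact mul_left_cancel h
  have h2 : #(B (n + 1) \ B n) = #(B (n + 1)) - #(B n) := Finset.card_sdiff_of_subset (hmono n)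
  have h3 : #(B n) ≤ #(B (n + 1)) := Finset.card_le_card (hmono n)
  have h4 : (#(B (n + 1) \ B n) : ℝ) = #(B (n + 1)) - #(B n) := by
    rw [h2, Nat.cast_sub h3]
  have h5 := (Nat.cast_le (α := ℝ)).2 h1
  rw [h4] at h5
  linarith

end Pool.Agent.PC
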