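import Pool.Agent.Lib_helper83.Prof.Compl

set_option autoImplicit false

/-!
Embedding infinite products of finite perfect groups into profinite completions.
-/

namespace Pool.Agent.PC

open scoped commutatorElement

universe u v

/-- commuting perfect groups have trivial images in a finite group, with finitely many
exceptions -/
theorem fin_triv {Q : Type u} [Group Q] [Finite Q] {X : ℕ → Type v} [∀ n, Group (X n)]
    (hperf : ∀ n, commutator (X n) = ⊤) (β : ∀ n, X n →* Q)
    (hc : ∀ n m, n ≠ m → ∀ x y, Commute (β n x) (β m y)) :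
    ∃ K, ∀ n, K ≤ n → ∀ x, β n x = 1 := by
  let A : ℕ → Subgroup Q := fun k => Subgroup.closure (⋃ n : Fin k, Set.range (β n))
  have hmem : ∀ k n, n < k → ∀ x, β n x ∈ A k := by
    intro k n hn x
    apply Subgroup.subset_closure
    exact Set.mem_iUnion.2 ⟨⟨n, hn⟩, x, rfl⟩
  have hmono : Monotone A := by
    intro k k' hk
    change Subgroup.closure _ ≤ _
    rw [Subgroup.closure_le]
    intro y hy
    obtain ⟨n, x, rfl⟩ := Set.mem_iUnion.1 hy
    exact hmem k' n (lt_of_lt_of_le n.2 hk) x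
  obtain ⟨K, hK⟩ := WellFoundedGT.monotone_chain_condition (⟨A, hmono⟩ : ℕ →o Subgroup Q)
  refine ⟨K, ?_⟩
  intro n hn
  have h1 : A n = A (n + 1) := by
    have h2 : A K = A n := hK n hn
    have h3 : A K = A (n + 1) := hK (n + 1) (by omega)
    rw [← h2, h3]
  have h2 : A n ≤ Subgroup.centralizer (Set.range (β n)) := by
    change Subgroup.closure _ ≤ _
    rw [Subgroup.closure_le]
    intro y hy
    obtain ⟨m, x, rfl⟩ := Set.mem_iUnion.1 hy
    rw [SetLike.mem_coe, Subgroup.mem_centralizer_iff]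
    rintro _ ⟨z, rfl⟩
    exact (hc n m (ne_of_gt m.2) z x).eq
  have h3 : ∀ x y, Commute (β n x) (β n y) := by
    intro x y
    have h4 : β n y ∈ A n := by
      rw [h1]
      exact hmem (n + 1) n (by omega) y
    have h5 := h2 h4
    rw [Subgroup.mem_centralizer_iff] at h5
    exact h5 _ ⟨x, rfl⟩
  have h4 : commutator (X n) ≤ (β n).ker := by
    rw [commutator_def, Subgroup.commutator_le]
    intro g _ g' _
    rw [MonoidHom.mem_ker, map_commutatorElement]
    exact commutatorElement_eq_one_iff_commute.2 (h3 g g')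
  intro x
  rw [hperf n] at h4
  exact h4 (Subgroup.mem_top x)

section

variable {G : Type u} [Group G] {X : ℕ → Type v} [∀ n, Group (X n)]

/-- partial products -/
def pprod (β : ∀ n, X n →* PCo G) : ℕ → (∀ n, X n) → PCo G
  | 0, _ => 1
  | k + 1, y => pprod β k y * β k (y k)

theorem pprod_succ (β : ∀ n, X n →* PCo G) (k : ℕ) (y : ∀ n, X n) :
    pprod β (k + 1) y = pprod β k y * β k (y k) := rfl

theorem pprod_comm (β : ∀ n, X n →* PCo G)
    (hc : ∀ n m, n ≠ m → ∀ x y, Commute (β n x) (β m y)) (k : ℕ) (y : ∀ n, X n) :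
    ∀ n, k ≤ n → ∀ x, Commute (pprod β k y) (β n x) := by
  induction k with
  | zero => intro n _ x; exact Commute.one_left _
  | succ k ih =>
    intro n hn x
    rw [pprod_succ]
    exact (ih n (by omega) x).mul_left (hc k n (by omega) _ _)

theorem pprod_mul (β : ∀ n, X n →* PCo G)
    (hc : ∀ n m, n ≠ m → ∀ x y, Commute (β n x) (β m y)) (k : ℕ) (y z : ∀ n, X n) :
    pprod β k (y * z) = pprod β k y * pprod β k z := by
  induction k with
  | zero => simp [pprod]
  | succ k ih =>
    rw [pprod_succ, pprod_succ, pprod_succ, ih, Pi.mul_apply, map_mul]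
    have := (pprod_comm β hc k z k le_rfl (y k)).eq
    rw [mul_assoc, mul_assoc]
    congr 1
    rw [← mul_assoc, this, mul_assoc]

theorem pprod_stab (β : ∀ n, X n →* PCo G) (N : FiniteIndexNormalSubgroup G) (K : ℕ)
    (hK : ∀ n, K ≤ n → ∀ x, proj N (β n x) = 1) (k : ℕ) (hk : K ≤ k) (y : ∀ n, X n) :
    proj N (pprod β k y) = proj N (pprod β K y) := by
  induction k, hk using Nat.le_induction with
  | base => rfl
  | succ k hk ih => rw [pprod_succ, map_mul, hK k hk, mul_one, ih]

theorem pprod_single (β : ∀ n, X n →* PCo G) (n : ℕ) (x : X n) (k : ℕ) :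
    pprod β k (Pi.mulSingle n x) = if n < k then β n x else 1 := by
  induction k with
  | zero => simp [pprod]
  | succ k ih =>
    rw [pprod_succ, ih]
    by_cases h : n < k
    · rw [if_pos h, if_pos (by omega), Pi.mulSingle_eq_of_ne (by omega), map_one, mul_one]
    · by_cases h' : n = k
      · subst h'
        rw [if_neg h, if_pos (by omega), Pi.mulSingle_eq_same, one_mul]
      · rw [if_neg h, if_neg (by omega), Pi.mulSingle_eq_of_ne (Ne.symm h'), map_one, mul_one]

theorem pprod_continuous [∀ n, TopologicalSpace (X n)] [∀ n, DiscreteTopology (X n)]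
    (β : ∀ n, X n →* PCo G) (k : ℕ) : Continuous (pprod β k) := by
  induction k with
  | zero => exact continuous_const
  | succ k ih =>
    have h1 : Continuous (fun y : ∀ n, X n => β k (y k)) :=
      (continuous_of_discreteTopology (f := β k)).comp (continuous_apply k)
    exact ih.mul h1

theorem exists_Phi [∀ n, TopologicalSpace (X n)] [∀ n, DiscreteTopology (X n)]
    (hperf : ∀ n, commutator (X n) = ⊤) (β : ∀ n, X n →* PCo G)
    (hc : ∀ n m, n ≠ m → ∀ x y, Commute (β n x) (β m y)) :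
    ∃ Φ : (∀ n, X n) →* PCo G, Continuous Φ ∧ ∀ n x, Φ (Pi.mulSingle n x) = β n x := by
  have hfin : ∀ N : FiniteIndexNormalSubgroup G,
      ∃ K, ∀ n, K ≤ n → ∀ x, proj N (β n x) = 1 := by
    intro N
    have : Finite (G ⧸ N.toSubgroup) := Subgroup.finite_quotient_of_finiteIndex
    exact fin_triv hperf (fun n => (proj N).comp (β n))
      (fun n m hnm x y => (hc n m hnm x y).map (proj N))
  choose K hK using hfin
  have hstab : ∀ (N : FiniteIndexNormalSubgroup G) (k k' : ℕ),
      (∀ n, k ≤ n → ∀ x, proj N (β n x) = 1) → (∀ n, k' ≤ n → ∀ x, proj N (β n x) = 1) →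
      ∀ y, proj N (pprod β k y) = proj N (pprod β k' y) := by
    intro N k k' h h' y
    rcases le_total k k' with hk | hk
    · exact (pprod_stab β N k h k' hk y).symm
    · exact pprod_stab β N k' h' k hk y
  have hle : ∀ (N N' : FiniteIndexNormalSubgroup G), N ≤ N' → ∀ n, K N ≤ n → ∀ x,
      proj N' (β n x) = 1 := by
    intro N N' hN n hn x
    rw [← proj_compat hN, hK N n hn x, map_one]
  let Φ : (∀ n, X n) → PCo G := fun y => pcMk (fun N => proj N (pprod β (K N) y)) (by
    intro N N' hN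
    rw [proj_compat hN]
    exact hstab N' _ _ (hle N N' hN) (hK N') y)
  have hΦ : ∀ y N, proj N (Φ y) = proj N (pprod β (K N) y) := fun _ _ => rfl
  refine ⟨⟨⟨Φ, ?_⟩, ?_⟩, ?_, ?_⟩
  · apply pc_ext
    intro N
    rw [hΦ, map_one]
    have : ∀ k, pprod β k 1 = 1 := by
      intro k
      induction k with
      | zero => rfl
      | succ k ih => rw [pprod_succ, ih, Pi.one_apply, map_one, mul_one]
    rw [this, map_one]
  · intro y z
    apply pc_ext
    intro N
    change proj N (Φ (y * z)) = proj N (Φ y * Φ z)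
    rw [map_mul, hΦ, hΦ, hΦ, pprod_mul β hc, map_mul]
  · change Continuous Φ
    apply continuous_to_pc
    intro N c
    have : {z | proj N (Φ z) = c} = (pprod β (K N)) ⁻¹' (proj N ⁻¹' {c}) := by
      ext z
      rfl
    rw [this]
    exact (isOpen_proj N {c}).preimage (pprod_continuous β (K N))
  · intro n x
    change Φ _ = _
    apply pc_ext
    intro N
    rw [hΦ, ← pprod_stab β N (K N) (hK N) (max (K N) (n + 1)) (le_max_left _ _), pprod_single,
      if_pos (lt_of_lt_of_le (Nat.lt_succ_self n) (le_max_right _ _))]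

/-- injectivity of the product map -/
theorem Phi_injective (hcent : ∀ n, Subgroup.center (X n) = ⊥)
    (Φ : (∀ n, X n) →* PCo G) (hinj : ∀ n x, Φ (Pi.mulSingle n x) = 1 → x = 1) :
    Function.Injective Φ := by
  rw [injective_iff_map_eq_one]
  intro y hy
  funext n
  have h1 : y n ∈ Subgroup.center (X n) := by
    rw [Subgroup.mem_center_iff]
    intro x
    have h2 : ⁅(Pi.mulSingle n x : ∀ n, X n), y⁆ = Pi.mulSingle n ⁅x, y n⁆ := by
      funext m
      by_cases h : m = n
      · subst h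
        rw [Pi.mulSingle_eq_same]
        simp [commutatorElement_def]
      · rw [Pi.mulSingle_eq_of_ne h]
        simp [commutatorElement_def, Pi.mulSingle_eq_of_ne h]
    have h3 : Φ (Pi.mulSingle n ⁅x, y n⁆) = 1 := by
      rw [← h2, map_commutatorElement, hy, commutatorElement_one_right]
    have h4 := hinj n _ h3
    exact commutatorElement_eq_one_iff_mul_comm.1 h4
  rw [hcent n] at h1
  exact Subgroup.mem_bot.1 h1

end

/-- homomorphisms from a finite group to the completion obtained from better and better lifts -/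
theorem exists_beta {G : Type u} [Group G] {X : Type v} [Group X] {Γ : Type*} [Group Γ]
    (π : Γ →* X) (L : ℕ → Subgroup Γ) (hL : Antitone L)
    (hsurj : ∀ s x, ∃ γ ∈ L s, π γ = x) (ψ : Γ →* G)
    (hN : ∀ N : FiniteIndexNormalSubgroup G, ∃ s, ∀ γ ∈ L s, π γ = 1 → ψ γ ∈ N.toSubgroup) :
    ∃ β : X →* PCo G, ∀ (N : FiniteIndexNormalSubgroup G) (s : ℕ),
      (∀ γ ∈ L s, π γ = 1 → ψ γ ∈ N.toSubgroup) →
      ∀ γ ∈ L s, proj N (β (π γ)) = QuotientGroup.mk (ψ γ) := by
  choose s hs using hN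
  choose l hl hlπ using hsurj
  have key0 : ∀ (N : FiniteIndexNormalSubgroup G) (t : ℕ),
      (∀ γ ∈ L t, π γ = 1 → ψ γ ∈ N.toSubgroup) → ∀ γ ∈ L t, ∀ γ' ∈ L t, π γ = π γ' →
      (QuotientGroup.mk (ψ γ) : G ⧸ N.toSubgroup) = QuotientGroup.mk (ψ γ') := by
    intro N t ht γ hγ γ' hγ' h
    rw [QuotientGroup.eq, ← map_inv, ← map_mul]
    apply ht _ ((L t).mul_mem ((L t).inv_mem hγ) hγ')
    rw [map_mul, map_inv, h, inv_mul_cancel]
  have key : ∀ (N : FiniteIndexNormalSubgroup G) (t t' : ℕ),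
      (∀ γ ∈ L t, π γ = 1 → ψ γ ∈ N.toSubgroup) → (∀ γ ∈ L t', π γ = 1 → ψ γ ∈ N.toSubgroup) →
      ∀ γ ∈ L t, ∀ γ' ∈ L t', π γ = π γ' →
      (QuotientGroup.mk (ψ γ) : G ⧸ N.toSubgroup) = QuotientGroup.mk (ψ γ') := by
    intro N t t' ht ht' γ hγ γ' hγ' h
    rcases le_total t t' with htt | htt
    · exact key0 N t ht γ hγ γ' (hL htt hγ') h
    · exact key0 N t' ht' γ (hL htt hγ) γ' hγ' h
  let β : X → PCo G := fun x => pcMk (fun N => QuotientGroup.mk (ψ (l (s N) x))) (by
    intro N N' hNN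
    change (QuotientGroup.mk (ψ (l (s N) x)) : G ⧸ N'.toSubgroup) = _
    apply key N' (s N) (s N') (fun γ hγ h => hNN (hs N γ hγ h)) (hs N') _ (hl _ _) _ (hl _ _)
    rw [hlπ, hlπ])
  have hβ : ∀ x N, proj N (β x) = QuotientGroup.mk (ψ (l (s N) x)) := fun _ _ => rfl
  refine ⟨⟨⟨β, ?_⟩, ?_⟩, ?_⟩
  · apply pc_ext
    intro N
    rw [hβ, map_one, QuotientGroup.eq_one_iff]
    exact hs N _ (hl _ _) (hlπ _ _)
  · intro x y
    apply pc_ext
    intro N
    change proj N (β (x * y)) = proj N (β x * β y)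
    rw [map_mul, hβ, hβ, hβ, ← QuotientGroup.mk_mul, ← map_mul]
    apply key0 N (s N) (hs N) _ (hl _ _) _ ((L _).mul_mem (hl _ _) (hl _ _))
    rw [map_mul, hlπ, hlπ, hlπ]
  · intro N t ht γ hγ
    change proj N (β (π γ)) = _
    rw [hβ]
    exact key N (s N) t (hs N) ht _ (hl _ _) γ hγ (hlπ _ _)

end Pool.Agent.PC
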