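import Pool.Agent.Lib_helper83.Prof.Divis
import Pool.Agent.Lib_helper83.Prof.Emb

set_option autoImplicit false

/-!
The product `∏ n, X n` embeds into the profinite completion of `Gp P`.
-/

namespace Pool.Agent.PC

open scoped commutatorElement

variable {P : Par}

/-- the homomorphism from `ker sig` to `Gp P` -/
noncomputable def psi (hP : P.Good) (n : ℕ) : (Gam.sig (X := P.X n)).ker →* Gp P where
  toFun γ := ⟨psi0 n γ, ker_le_WW hP n γ.2⟩
  map_one' := by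
    apply Subtype.ext
    exact map_one (psi0 n)
  map_mul' x y := by
    apply Subtype.ext
    exact map_mul (psi0 n) _ _

theorem psi_coe (hP : P.Good) (n : ℕ) (γ : (Gam.sig (X := P.X n)).ker) :
    ((psi hP n γ : Gp P) : GG P) = psi0 n γ := rfl

theorem exists_level (hP : P.Good) (n : ℕ) (N : FiniteIndexNormalSubgroup (Gp P)) :
    ∃ s, ∀ γ ∈ Gam.Ls (X := P.X n) (hP.q n) s, Gam.hK γ = 1 → psi hP n γ ∈ N.toSubgroup := by
  let N' : Subgroup (GG P) := N.toSubgroup.map (Gp P).subtype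
  have hN' : ∀ g : Gp P, (g : GG P) ∈ N' ↔ g ∈ N.toSubgroup := by
    intro g
    constructor
    · rintro ⟨g', hg', h⟩
      have : g' = g := Subtype.ext h
      rw [← this]; exact hg'
    · intro h
      exact ⟨g, h, rfl⟩
  have hnorm : ∀ g ∈ Gp P, ∀ x ∈ N', g * x * g⁻¹ ∈ N' := by
    rintro g hg _ ⟨x, hx, rfl⟩
    have := N.isNormal'.conj_mem x hx ⟨g, hg⟩
    exact ⟨_, this, rfl⟩
  have hidx : N.toSubgroup.index ≠ 0 := N.isFiniteIndex'.index_ne_zero
  obtain ⟨M, hM, _, hMT⟩ := Subgroup.exists_pow_mem_of_index_ne_zero hidx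
    (⟨GG.T 1, GG.T_mem 1⟩ : Gp P)
  have hT : (GG.T (M : ℤ) : GG P) ∈ N' := by
    have h1 := (hN' _).2 hMT
    have h2 : (((⟨GG.T 1, GG.T_mem 1⟩ : Gp P) ^ M : Gp P) : GG P) = GG.T (M : ℤ) := by
      change (GG.Tk _) ^ M = GG.Tk _
      rw [← map_pow, ← ofAdd_nsmul, nsmul_eq_mul, mul_one]
    rw [← h2]
    exact h1
  obtain ⟨s, hs⟩ := div_mem hP N' hnorm M hM hT n
  refine ⟨s, ?_⟩
  intro γ hγ h1
  obtain ⟨a, ha, hγa⟩ := Gam.Ls_ker (X := P.X n) (hP.q n) (hP.cop n) s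
    (by have := hP.one_lt n; omega) γ hγ h1
  rw [← hN', psi_coe, hγa]
  exact hs a ha

theorem exists_betas (hP : P.Good) : ∃ β : ∀ n, P.X n →* PCo (Gp P),
    (∀ n m, n ≠ m → ∀ x y, Commute (β n x) (β m y)) ∧ ∀ n x, β n x = 1 → x = 1 := by
  have h0 : ∀ n, ∃ β : P.X n →* PCo (Gp P), ∀ (N : FiniteIndexNormalSubgroup (Gp P)) (s : ℕ),
      (∀ γ ∈ Gam.Ls (X := P.X n) (hP.q n) s, Gam.hK γ = 1 → psi hP n γ ∈ N.toSubgroup) →
      ∀ γ ∈ Gam.Ls (X := P.X n) (hP.q n) s,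
        proj N (β (Gam.hK γ)) = QuotientGroup.mk (psi hP n γ) := by
    intro n
    exact exists_beta (Gam.hK (X := P.X n)) (Gam.Ls (X := P.X n) (hP.q n))
      (Gam.Ls_antitone (hP.q n)) (Gam.Ls_surj (hP.q n) (hP.cop n) (Gam.hK_surj (hP.perf n)))
      (psi hP n) (exists_level hP n)
  choose β hβ using h0
  have hsurj : ∀ n s x, ∃ γ ∈ Gam.Ls (X := P.X n) (hP.q n) s, Gam.hK γ = x :=
    fun n s x => Gam.Ls_surj (hP.q n) (hP.cop n) (Gam.hK_surj (hP.perf n)) s x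
  refine ⟨β, ?_, ?_⟩
  · intro n m hnm x y
    change _ = _
    apply pc_ext
    intro N
    obtain ⟨s, hs⟩ := exists_level hP n N
    obtain ⟨s', hs'⟩ := exists_level hP m N
    obtain ⟨γ, hγ, rfl⟩ := hsurj n s x
    obtain ⟨γ', hγ', rfl⟩ := hsurj m s' y
    have hcomm : psi hP n γ * psi hP m γ' = psi hP m γ' * psi hP n γ := by
      apply Subtype.ext
      rw [Subgroup.coe_mul, Subgroup.coe_mul, psi_coe, psi_coe, psi0_apply, psi0_apply, ← map_mul,
        ← map_mul, (emb_commute n m hnm _ _).eq]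
    rw [map_mul, map_mul, hβ n N s hs γ hγ, hβ m N s' hs' γ' hγ', ← QuotientGroup.mk_mul,
      hcomm, QuotientGroup.mk_mul]
  · intro n x hx
    have hr : NeZero (1 : ℕ) := ⟨one_ne_zero⟩
    obtain ⟨K, hK1, hK2, hK3⟩ := exists_quot (P := P) (n := n) (M := P.m n) (r := 1) dvd_rfl
      (fun _ => 0) (fun _ => Subsingleton.elim _ _)
    let N : FiniteIndexNormalSubgroup (Gp P) :=
      { toSubgroup := K.subgroupOf (Gp P)
        isNormal' := Subgroup.Normal.subgroupOf hK1 _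
        isFiniteIndex' := inferInstance }
    obtain ⟨s, hs⟩ := exists_level hP n N
    obtain ⟨γ, hγ, rfl⟩ := hsurj n s x
    have h1 := hβ n N s hs γ hγ
    rw [hx, map_one] at h1
    have h2 : psi hP n γ ∈ N.toSubgroup := (QuotientGroup.eq_one_iff _).1 h1.symm
    have h3 : psi0 n (γ : Gam (P.X n)) ∈ K := h2
    rw [hK3, Phi_one] at h3
    have h4 := congrFun (Prod.ext_iff.1 h3).1 0
    have h5 : ((psi0 n (γ : Gam (P.X n))).x n 0).c.h = 1 := (Prod.ext_iff.1 (Prod.ext_iff.1 h4).2).2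
    rw [psi0_apply, GG.ofX_x, emb_same] at h5
    exact h5

theorem Gp_rf (hP : P.Good) : Group.ResiduallyFinite (Gp P) := by
  rw [Group.residuallyFinite_iff_forall_finiteIndexNormalSubgroup]
  intro g hg
  by_contra hne
  have hne' : (g : GG P) ≠ 1 := fun h => hne (Subtype.ext h)
  obtain ⟨K, hK1, hK2, hK3⟩ := GG_rf (fun n => ⟨hP.q n, hP.one_lt n, hP.per n⟩) (g : GG P) hne'
  let N : FiniteIndexNormalSubgroup (Gp P) :=
    { toSubgroup := K.subgroupOf (Gp P)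
      isNormal' := Subgroup.Normal.subgroupOf hK1 _
      isFiniteIndex' := inferInstance }
  exact hK3 (hg N)

/-- everything about the group `Gp P` -/
theorem main_good (hP : P.Good) (hcent : ∀ n, Subgroup.center (P.X n) = ⊥)
    [∀ n, TopologicalSpace (P.X n)] [∀ n, DiscreteTopology (P.X n)] :
    Group.FG (Gp P) ∧ (∀ (g : Gp P) (n : ℕ), 0 < n → g ^ n = 1 → g = 1) ∧ Fol (Gp P) ∧
    Group.ResiduallyFinite (Gp P) ∧
    ∃ Φ : (∀ n, P.X n) →* PCo (Gp P), Continuous Φ ∧ Function.Injective Φ := by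
  refine ⟨Gp_fg P, Gp_torsionFree P, Gp_fol hP.sparse, Gp_rf hP, ?_⟩
  obtain ⟨β, hβ1, hβ2⟩ := exists_betas hP
  obtain ⟨Φ, hΦ1, hΦ2⟩ := exists_Phi hP.perf β hβ1
  refine ⟨Φ, hΦ1, Phi_injective hcent Φ ?_⟩
  intro n x hx
  rw [hΦ2] at hx
  exact hβ2 n x hx

end Pool.Agent.PC
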