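import Mathlib

set_option autoImplicit false

/-!
Basic facts on Mathlib's profinite completion of a group.
-/

namespace Pool.Agent.PC

open CategoryTheory

universe u v

/-- Mathlib's profinite completion, as a type (it is a `ProfiniteGrp`) -/
abbrev PCo (G : Type u) [Group G] : ProfiniteGrp.{u} :=
  ProfiniteGrp.ProfiniteCompletion.completion (GrpCat.of G)

section

variable {G : Type u} [Group G]

/-- the canonical homomorphism -/
def eta : G →* PCo G := (ProfiniteGrp.ProfiniteCompletion.eta (GrpCat.of G)).hom

/-- the projections to the finite quotients -/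
def proj (N : FiniteIndexNormalSubgroup G) : PCo G →* G ⧸ N.toSubgroup where
  toFun x := x.1 N
  map_one' := rfl
  map_mul' _ _ := rfl

theorem proj_eta (N : FiniteIndexNormalSubgroup G) (g : G) :
    proj N (eta g) = QuotientGroup.mk g := rfl

theorem pc_ext {x y : PCo G} (h : ∀ N, proj N x = proj N y) : x = y :=
  Subtype.ext (funext h)

theorem proj_compat {N N' : FiniteIndexNormalSubgroup G} (h : N ≤ N') (x : PCo G) :
    QuotientGroup.map N.toSubgroup N'.toSubgroup (MonoidHom.id G) h (proj N x) = proj N' x :=
  x.2 (homOfLE h)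

/-- construct an element of the completion -/
def pcMk (y : ∀ N : FiniteIndexNormalSubgroup G, G ⧸ N.toSubgroup)
    (h : ∀ (N N' : FiniteIndexNormalSubgroup G) (hN : N ≤ N'),
      QuotientGroup.map N.toSubgroup N'.toSubgroup (MonoidHom.id G) hN (y N) = y N') : PCo G :=
  ⟨y, fun _ _ π => h _ _ (leOfHom π)⟩

theorem proj_pcMk (y : ∀ N : FiniteIndexNormalSubgroup G, G ⧸ N.toSubgroup)
    (h : ∀ (N N' : FiniteIndexNormalSubgroup G) (hN : N ≤ N'),
      QuotientGroup.map N.toSubgroup N'.toSubgroup (MonoidHom.id G) hN (y N) = y N')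
    (N : FiniteIndexNormalSubgroup G) : proj N (pcMk y h) = y N := rfl

theorem isOpen_proj (N : FiniteIndexNormalSubgroup G) (s : Set (G ⧸ N.toSubgroup)) :
    IsOpen (proj N ⁻¹' s) := by
  have h1 : Continuous (fun x : PCo G => x.1 N) :=
    (continuous_apply N).comp continuous_subtype_val
  exact h1.isOpen_preimage s trivial

theorem continuous_to_pc {Z : Type v} [TopologicalSpace Z] (f : Z → PCo G)
    (h : ∀ (N : FiniteIndexNormalSubgroup G) (c : G ⧸ N.toSubgroup),
      IsOpen {z | proj N (f z) = c}) : Continuous f := by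
  apply continuous_induced_rng.2
  apply continuous_pi
  intro N
  constructor
  intro s _
  have : (((fun z => (Subtype.val ∘ f) z N)) ⁻¹' s) = ⋃ c ∈ s, {z | proj N (f z) = c} := by
    ext z
    simp only [Set.mem_preimage, Set.mem_iUnion, exists_prop]
    constructor
    · intro hz
      exact ⟨_, hz, rfl⟩
    · rintro ⟨c, hc, hz⟩
      change proj N (f z) ∈ s
      have hz' : proj N (f z) = c := hz
      rw [hz']
      exact hc
  exact this ▸ isOpen_biUnion fun c _ => h N c

theorem eta_eq_one_iff_forall (g : G) :
    eta g = 1 ↔ ∀ N : FiniteIndexNormalSubgroup G, g ∈ N.toSubgroup := by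
  constructor
  · intro h N
    have := congrArg (proj N) h
    rw [proj_eta, map_one] at this
    exact (QuotientGroup.eq_one_iff g).1 this
  · intro h
    apply pc_ext
    intro N
    rw [proj_eta, map_one]
    exact (QuotientGroup.eq_one_iff g).2 (h N)

end

end Pool.Agent.PC
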