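import Mathlib

set_option autoImplicit false

/-!
Definitions used in the statement on closed subgroups with trivial rational core in profinite
completions of finitely generated torsion-free amenable groups.
-/

namespace Pool.Agent.ProfCore

universe u v

/-- torsion-free: only the identity has finite order -/
def TorsionFree (G : Type u) [Group G] : Prop := ∀ g : G, IsOfFinOrder g → g = 1

open scoped Classical symmDiff in
/-- amenability of a discrete group, in the form of Følner's condition: for every finite set `S`
and every `ε > 0` there is a nonempty finite set `F` with `|sF Δ F| ≤ ε |F|` for all `s ∈ S` -/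
def Amenable (G : Type u) [Group G] : Prop :=
  ∀ (S : Finset G) (ε : ℝ), 0 < ε → ∃ F : Finset G, F.Nonempty ∧
    ∀ s ∈ S, (((F.image fun x => s * x) ∆ F).card : ℝ) ≤ ε * F.card

/-- Mathlib's profinite completion (the inverse limit of all finite quotients) -/
abbrev Completion (G : Type u) [Group G] : ProfiniteGrp.{u} :=
  ProfiniteGrp.ProfiniteCompletion.completion (GrpCat.of G)

/-- the canonical homomorphism from `G` to its profinite completion -/
def canon (G : Type u) [Group G] : G →* Completion G :=
  (ProfiniteGrp.ProfiniteCompletion.eta (GrpCat.of G)).hom

/-- the rational core `⋂_{k ∈ G} k D k⁻¹` of a subgroup `D` of the profinite completion of `G` -/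
def rationalCore (G : Type u) [Group G] (D : Subgroup (Completion G)) :
    Subgroup (Completion G) :=
  ⨅ k : G, D.map (MulAut.conj (canon G k)).toMonoidHom

/-- the topological group `H` is isomorphic to a closed subgroup with trivial rational core of
the profinite completion of `G` -/
def IsCoreFreeClosedSubgroupOf (H : Type v) [Group H] [TopologicalSpace H]
    (G : Type u) [Group G] : Prop :=
  ∃ D : Subgroup (Completion G), IsClosed (D : Set (Completion G)) ∧ Nonempty (D ≃ₜ* H) ∧
    rationalCore G D = ⊥

end Pool.Agent.ProfCore
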