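import Pool.Agent.Lib_helper83.Prof.Isolate

set_option autoImplicit false

/-!
The kernel elements: they are in `Gp P`, and highly divisible ones are in every normal subgroup
of finite index.
-/

namespace Pool.Agent.PC

open scoped commutatorElement

variable {P : Par}

/-- `(h - 1) δ_ω` -/
noncomputable def dd {X : Type} [Group X] (h : X) (ω : Om X) : (Gam.dat X).T :=
  (tact X h (Pi.single ω 1) - Pi.single ω 1 : Om X → ℤ)

/-- `(γ - 1) b` -/
noncomputable def cc (n : ℕ) (γ : Gam (P.X n)) : ℤ →₀ (Gam.dat (P.X n)).T :=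
  (Gam.dat (P.X n)).act γ (P.b n) - P.b n

theorem cc_eq (hP : P.Good) (n : ℕ) (γ : Gam (P.X n)) :
    cc n γ = ∑ ω, Finsupp.single (hP.enc n ω) (dd γ.h ω) := by
  have hb : (P.b n : ℤ →₀ (Gam.dat (P.X n)).T) =
      ∑ ω, Finsupp.single (hP.enc n ω) ((Pi.single ω 1 : Om (P.X n) → ℤ) : (Gam.dat (P.X n)).T) :=
    hP.hb n
  have h1 : (Gam.dat (P.X n)).act γ (P.b n : ℤ →₀ (Gam.dat (P.X n)).T) =
      ∑ ω, Finsupp.single (hP.enc n ω)
        ((Gam.dat (P.X n)).ρ γ ((Pi.single ω 1 : Om (P.X n) → ℤ) : (Gam.dat (P.X n)).T)) := by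
    rw [hb, map_sum]
    apply Finset.sum_congr rfl
    intro ω _
    rw [Dat.act_single]
  have h2 : cc n γ = (Gam.dat (P.X n)).act γ (P.b n : ℤ →₀ (Gam.dat (P.X n)).T) -
    (P.b n : ℤ →₀ (Gam.dat (P.X n)).T) := rfl
  rw [h2, h1, hb, ← Finset.sum_sub_distrib]
  apply Finset.sum_congr rfl
  intro ω _
  rw [← Finsupp.single_sub]
  rfl

theorem pb_cc (hP : P.Good) (n : ℕ) (γ : Gam (P.X n)) (i : ℤ) :
    pb (Gam.dat (P.X n)) (P.φ n) i (cc n γ) = ∑ ω, P.φ n (hP.enc n ω - i) • dd γ.h ω := by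
  rw [cc_eq hP, map_sum]
  apply Finset.sum_congr rfl
  intro ω _
  rw [pb_single]

theorem pair_cc (n : ℕ) (γ : Gam (P.X n)) (i j : ℤ) :
    pair (Gam.dat (P.X n)) (P.φ n) (Finsupp.single i 1 - Finsupp.single j 1) (cc n γ) =
      pb (Gam.dat (P.X n)) (P.φ n) i (cc n γ) - pb (Gam.dat (P.X n)) (P.φ n) j (cc n γ) := by
  rw [map_sub, AddMonoidHom.sub_apply, pair_single_one, pair_single_one]

theorem pair_cc_one (hP : P.Good) (n : ℕ) (γ : Gam (P.X n)) (ω : Om (P.X n)) :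
    pair (Gam.dat (P.X n)) (P.φ n) (Finsupp.single 0 1 - Finsupp.single (hP.enc n ω) 1) (cc n γ) =
      dd γ.h ω := by
  rw [pair_cc, pb_cc hP, pb_cc hP, ← Finset.sum_sub_distrib, Finset.sum_eq_single ω]
  · rw [sub_zero, hP.phi_one, sub_self, hP.phi_zero, one_smul, zero_smul, sub_zero]
  · intro ω' _ h
    rw [sub_zero, hP.phi_one, hP.phi_two n ω' ω h, sub_self]
  · intro h
    exact absurd (Finset.mem_univ ω) h

theorem pair_cc_two (hP : P.Good) (n : ℕ) (γ : Gam (P.X n)) (ω : Om (P.X n)) (M' : ℤ) (c : ℕ)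
    (h1 : P.φ n (-M') = c)
    (h2 : ∀ ω ω', ω ≠ ω' → P.φ n (hP.enc n ω - (hP.enc n ω' + M')) = 1) :
    pair (Gam.dat (P.X n)) (P.φ n) (Finsupp.single (hP.enc n ω + M') 1 -
      Finsupp.single (hP.enc n ω) 1) (cc n γ) = c • dd γ.h ω := by
  rw [pair_cc, pb_cc hP, pb_cc hP, ← Finset.sum_sub_distrib, Finset.sum_eq_single ω]
  · have : hP.enc n ω - (hP.enc n ω + M') = -M' := by ring
    rw [this, h1, sub_self, hP.phi_zero, zero_smul, sub_zero, natCast_zsmul]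
  · intro ω' _ h
    rw [h2 ω' ω h, hP.phi_two n ω' ω h, sub_self]
  · intro h
    exact absurd (Finset.mem_univ ω) h

/-- the isolated `b`-parts -/
noncomputable def yy (n : ℕ) (γ : Gam (P.X n)) : GG P := GG.ofX (emb n (H1.ofB (cc n γ)))

theorem yy_mem (n : ℕ) (γ : Gam (P.X n)) (hγ : γ ∈ WW P n) : yy n γ ∈ Gp P := by
  have he : GG.e P ∈ Gp P := Subgroup.subset_closure (by simp)
  have h1 : yy n γ = ⁅psi0 n γ, GG.e P⁆ := by
    have h2 : GG.e P = GG.ofX (fun n => Pi.mulSingle 0 (H1.ofB (P.b n))) := rfl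
    rw [h2, psi0_apply, ← map_commutatorElement, emb_comm, Pi.mulSingle_eq_same]
    unfold yy
    congr 2
    exact (H1.comm_ofC_ofB (D := Gam.dat (P.X n)) γ (P.b n)).symm
  rw [h1, commutatorElement_def]
  rw [mem_WW] at hγ
  exact Subgroup.mul_mem _ (Subgroup.mul_mem _ (Subgroup.mul_mem _ hγ he)
    (Subgroup.inv_mem _ hγ)) (Subgroup.inv_mem _ he)

theorem comm_U_yy (n : ℕ) (γ : Gam (P.X n)) (v : ℤ →₀ ℤ) :
    ⁅(GG.U v : GG P), yy n γ⁆ =
      psi0 n ((Gam.dat (P.X n)).io (pair (Gam.dat (P.X n)) (P.φ n) v (cc n γ))) := by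
  unfold yy
  rw [GG.comm_U_ofX, tau_emb, ← map_inv, ← map_mul, H1.up_ofB, psi0_apply]
  rfl

theorem io_mem_WW (n : ℕ) (γ : Gam (P.X n)) (hγ : γ ∈ WW P n) (v : ℤ →₀ ℤ) :
    (Gam.dat (P.X n)).io (pair (Gam.dat (P.X n)) (P.φ n) v (cc n γ)) ∈ WW P n := by
  rw [mem_WW]
  have h1 := comm_U_yy n γ v
  have h2 := yy_mem n γ hγ
  have h3 : (GG.U v : GG P) ∈ Gp P := GG.U_mem v
  have h4 : ⁅(GG.U v : GG P), yy n γ⁆ ∈ Gp P := by
    rw [commutatorElement_def]
    exact Subgroup.mul_mem _ (Subgroup.mul_mem _ (Subgroup.mul_mem _ h3 h2)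
      (Subgroup.inv_mem _ h3)) (Subgroup.inv_mem _ h2)
  rw [h1] at h4
  exact h4

theorem io_Kc_mem_WW (hP : P.Good) (n : ℕ) (a : Om (P.X n) → ℤ) (ha : a ∈ Kc (P.X n)) :
    Gam.io (Multiplicative.ofAdd a) ∈ WW P n := by
  unfold Kc at ha
  induction ha using AddSubgroup.closure_induction with
  | mem a ha =>
    obtain ⟨h, ω, rfl⟩ := ha
    obtain ⟨γ, hγ, rfl⟩ := Gam.Wc_surj (hP.perf n) h
    have h1 := io_mem_WW n γ (Wc_le_WW hP n hγ)
      (Finsupp.single 0 1 - Finsupp.single (hP.enc n ω) 1)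
    rw [pair_cc_one hP] at h1
    exact h1
  | zero => exact (WW P n).one_mem
  | add x y _ _ hx hy =>
    rw [ofAdd_add, map_mul]
    exact (WW P n).mul_mem hx hy
  | neg x _ hx =>
    rw [ofAdd_neg, map_inv]
    exact (WW P n).inv_mem hx

/-- `ker sig` is contained in `WW` -/
theorem ker_le_WW (hP : P.Good) (n : ℕ) : (Gam.sig (X := P.X n)).ker ≤ WW P n :=
  Gam.ker_le (hP.perf n) _ (Wc_le_WW hP n) (io_Kc_mem_WW hP n)

/-- divisible kernel elements are in every subgroup normalized by `Gp P` which contains a power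
of `t` -/
theorem div_mem (hP : P.Good) (N : Subgroup (GG P)) (hN : ∀ g ∈ Gp P, ∀ x ∈ N, g * x * g⁻¹ ∈ N)
    (M : ℕ) (hM : 0 < M) (hT : (GG.T (M : ℤ) : GG P) ∈ N) (n : ℕ) :
    ∃ s : ℕ, ∀ a ∈ Kc (P.X n),
      psi0 n (Gam.io (Multiplicative.ofAdd ((hP.q n ^ s : ℕ) • a))) ∈ N := by
  obtain ⟨M', s, hMM, h1, h2⟩ := hP.phi_three n M hM
  refine ⟨s, ?_⟩
  have hT' : (GG.T M' : GG P) ∈ N := by
    obtain ⟨c, rfl⟩ := hMM
    have h3 : (GG.T ((M : ℤ) * c) : GG P) = GG.T (M : ℤ) ^ c := by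
      change GG.Tk _ = (GG.Tk _) ^ c
      rw [← map_zpow, ← ofAdd_zsmul, smul_eq_mul, mul_comm]
    rw [h3]
    exact N.zpow_mem hT c
  have hU : ∀ j : ℤ, (GG.U (Finsupp.single (j + M') 1 - Finsupp.single j 1) : GG P) ∈ N := by
    intro j
    have h3 : (GG.U (Finsupp.single (j + M') 1 - Finsupp.single j 1) : GG P) =
        GG.T M' * (GG.U (Finsupp.single j 1) * (GG.T M')⁻¹ * (GG.U (Finsupp.single j 1))⁻¹) := by
      have h4 := GG.conj_T_U (P := P) M' (Finsupp.single j 1)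
      rw [fsh_single] at h4
      have h5 : (GG.U (Finsupp.single (j + M') 1 - Finsupp.single j 1) : GG P) =
          GG.U (Finsupp.single (j + M') 1) * (GG.U (Finsupp.single j 1))⁻¹ := by
        change GG.Uv _ = GG.Uv _ * (GG.Uv _)⁻¹
        rw [← map_inv, ← map_mul, sub_eq_add_neg, ofAdd_add, ofAdd_neg]
      rw [h5, ← h4]
      group
    rw [h3]
    exact N.mul_mem hT' (hN _ (GG.U_mem _) _ (N.inv_mem hT'))
  intro a ha
  unfold Kc at ha
  induction ha using AddSubgroup.closure_induction with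
  | mem a ha =>
    obtain ⟨h, ω, rfl⟩ := ha
    obtain ⟨γ, hγ, rfl⟩ := Gam.Wc_surj (hP.perf n) h
    have h3 := comm_U_yy n γ (Finsupp.single (hP.enc n ω + M') 1 - Finsupp.single (hP.enc n ω) 1)
    rw [pair_cc_two hP n γ ω M' _ h1 h2] at h3
    have h4 : ⁅(GG.U (Finsupp.single (hP.enc n ω + M') 1 - Finsupp.single (hP.enc n ω) 1) : GG P),
        yy n γ⁆ ∈ N := by
      rw [commutatorElement_def, mul_assoc, mul_assoc]
      apply N.mul_mem (hU _)
      rw [← mul_assoc]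
      exact hN _ (yy_mem n γ (Wc_le_WW hP n hγ)) _ (N.inv_mem (hU _))
    rw [h3] at h4
    exact h4
  | zero =>
    rw [smul_zero, ofAdd_zero, map_one, map_one]
    exact N.one_mem
  | add x y _ _ hx hy =>
    rw [smul_add, ofAdd_add, map_mul, map_mul]
    exact N.mul_mem hx hy
  | neg x _ hx =>
    rw [smul_neg, ofAdd_neg, map_inv, map_inv]
    exact N.inv_mem hx

end Pool.Agent.PC
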