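import Pool.Agent.Lib_helper83.Prof.Group

set_option autoImplicit false

/-!
Finite quotients of the ambient group.
-/

namespace Pool.Agent.PC

universe u v

/-- a `multiplicative` map to a finite type gives a normal subgroup of finite index -/
theorem exists_normal_of_finite {G : Type u} [Group G] {α : Type v} [Finite α] (Φ : G → α)
    (μ : α → α → α) (h : ∀ a b, Φ (a * b) = μ (Φ a) (Φ b)) :
    ∃ K : Subgroup G, K.Normal ∧ K.FiniteIndex ∧ ∀ g, g ∈ K ↔ Φ g = Φ 1 := by
  let K : Subgroup G :=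
    { carrier := {g | Φ g = Φ 1}
      one_mem' := rfl
      mul_mem' := by
        intro a b ha hb
        change Φ (a * b) = Φ 1
        change Φ a = Φ 1 at ha
        change Φ b = Φ 1 at hb
        rw [h, ha, hb, ← h, mul_one]
      inv_mem' := by
        intro a ha
        change Φ a⁻¹ = Φ 1
        change Φ a = Φ 1 at ha
        rw [← one_mul a⁻¹, h, ← ha, ← h, mul_inv_cancel, ha] }
  have hK : ∀ g, g ∈ K ↔ Φ g = Φ 1 := fun g => Iff.rfl
  refine ⟨K, ⟨?_⟩, ?_, hK⟩
  · intro a ha g
    rw [hK] at ha ⊢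
    rw [h, h, ha, ← h, mul_one, ← h, mul_inv_cancel]
  · have hinv : ∀ g g', g⁻¹ * g' ∈ K → Φ g = Φ g' := by
      intro g g' hg
      rw [hK] at hg
      have : g' = g * (g⁻¹ * g') := by group
      rw [this, h, hg, ← h, mul_one]
    let F : G ⧸ K → α := fun c => Quotient.liftOn' c Φ (by
      intro g g' hg
      exact hinv g g' (QuotientGroup.leftRel_apply.1 hg))
    have hF : Function.Injective F := by
      intro c c' hc
      obtain ⟨g, rfl⟩ := QuotientGroup.mk_surjective c
      obtain ⟨g', rfl⟩ := QuotientGroup.mk_surjective c'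
      have hc' : Φ g = Φ g' := hc
      rw [QuotientGroup.eq, hK, h, ← hc', ← h, inv_mul_cancel]
    have : Finite (G ⧸ K) := Finite.of_injective F hF
    exact Subgroup.finiteIndex_of_finite_quotient

variable {P : Par}

section

variable (A : Type) (M r : ℕ)

/-- reduction modulo `r` -/
def red : (A → ℤ) →+ (A → ZMod r) where
  toFun a ω := (a ω : ZMod r)
  map_zero' := by ext; simp
  map_add' a b := by ext; simp

@[simp] theorem red_apply (a : A → ℤ) (ω : A) : red A r a ω = (a ω : ZMod r) := rfl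

/-- periodic summation -/
noncomputable def fold : (ℤ →₀ (A → ℤ)) →+ (ZMod M → A → ZMod r) :=
  Finsupp.liftAddHom fun i => (AddMonoidHom.single (fun _ : ZMod M => A → ZMod r) (i : ZMod M)).comp
    (red A r)

theorem fold_single (i : ℤ) (a : A → ℤ) :
    fold A M r (Finsupp.single i a) = Pi.single (i : ZMod M) (red A r a) := by
  simp [fold]

/-- periodic summation of integers -/
noncomputable def foldZ : (ℤ →₀ ℤ) →+ (ZMod M → ZMod r) :=
  Finsupp.liftAddHom fun i => (AddMonoidHom.single (fun _ : ZMod M => ZMod r) (i : ZMod M)).comp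
    (Int.castAddHom (ZMod r))

theorem foldZ_single (i : ℤ) (a : ℤ) :
    foldZ M r (Finsupp.single i a) = Pi.single (i : ZMod M) (a : ZMod r) := by
  simp [foldZ]

theorem fold_fsh (k : ℤ) (b : ℤ →₀ (A → ℤ)) :
    fold A M r (fsh k b) = fun j => fold A M r b (j - k) := by
  induction b using Finsupp.induction_linear with
  | zero => simp; rfl
  | add f g hf hg => rw [map_add, map_add, hf, hg, map_add]; rfl
  | single i a =>
    rw [fsh_single, fold_single, fold_single]
    funext j
    by_cases hj : j = ((i + k : ℤ) : ZMod M)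
    · subst hj
      have : (((i + k : ℤ) : ZMod M) - (k : ZMod M)) = (i : ZMod M) := by push_cast; ring
      rw [this, Pi.single_eq_same, Pi.single_eq_same]
    · have : j - (k : ZMod M) ≠ (i : ZMod M) := by
        intro h
        apply hj
        push_cast
        rw [← h]; ring
      rw [Pi.single_eq_of_ne hj, Pi.single_eq_of_ne this]

theorem foldZ_fsh (k : ℤ) (b : ℤ →₀ ℤ) :
    foldZ M r (fsh k b) = fun j => foldZ M r b (j - k) := by
  induction b using Finsupp.induction_linear with
  | zero => simp; rfl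
  | add f g hf hg => rw [map_add, map_add, hf, hg, map_add]; rfl
  | single i a =>
    rw [fsh_single, foldZ_single, foldZ_single]
    funext j
    by_cases hj : j = ((i + k : ℤ) : ZMod M)
    · subst hj
      have : (((i + k : ℤ) : ZMod M) - (k : ZMod M)) = (i : ZMod M) := by push_cast; ring
      rw [this, Pi.single_eq_same, Pi.single_eq_same]
    · have : j - (k : ZMod M) ≠ (i : ZMod M) := by
        intro h
        apply hj
        push_cast
        rw [← h]; ring
      rw [Pi.single_eq_of_ne hj, Pi.single_eq_of_ne this]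

end

section

variable {X : Type} [Group X] (M r : ℕ)

/-- reduction modulo `r` -/
def redD (X : Type) [Group X] (r : ℕ) : (Gam.dat X).T →+ (Om X → ZMod r) := red (Om X) r

/-- periodic summation -/
noncomputable def foldD (X : Type) [Group X] (M r : ℕ) :
    (ℤ →₀ (Gam.dat X).T) →+ (ZMod M → Om X → ZMod r) := fold (Om X) M r

theorem foldD_single (i : ℤ) (a : (Gam.dat X).T) :
    foldD X M r (Finsupp.single i a) = Pi.single (i : ZMod M) (redD X r a) :=
  fold_single (Om X) M r i a

theorem foldD_fsh (k : ℤ) (b : ℤ →₀ (Gam.dat X).T) :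
    foldD X M r (fsh k b) = fun j => foldD X M r b (j - k) := fold_fsh (Om X) M r k b

theorem redD_rho (c : (Gam.dat X).Γ) (a : (Gam.dat X).T) :
    redD X r ((Gam.dat X).ρ c a) = fun ω => redD X r a (Om.sm (Gam.h (X := X) c)⁻¹ ω) := rfl

theorem foldD_act (c : (Gam.dat X).Γ) (b : ℤ →₀ (Gam.dat X).T) :
    foldD X M r ((Gam.dat X).act c b) =
      fun j ω => foldD X M r b j (Om.sm (Gam.h (X := X) c)⁻¹ ω) := by
  induction b using Finsupp.induction_linear with
  | zero => rw [map_zero, map_zero]; rfl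
  | add f g hf hg => rw [map_add, map_add, hf, hg, map_add]; rfl
  | single i a =>
    rw [Dat.act_single, foldD_single, foldD_single, redD_rho]
    funext j ω
    by_cases hj : j = (i : ZMod M)
    · subst hj
      rw [Pi.single_eq_same, Pi.single_eq_same]
    · rw [Pi.single_eq_of_ne hj, Pi.single_eq_of_ne hj]
      rfl

/-- the pairing modulo `M` and `r` -/
def pairM {A : Type} [NeZero M] (ψ : ZMod M → ZMod r) (u : ZMod M → ZMod r)
    (v : ZMod M → A → ZMod r) : A → ZMod r :=
  fun ω => ∑ i, ∑ j, u i * ψ (j - i) * v j ω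

theorem pairM_add_left {A : Type} [NeZero M] (ψ : ZMod M → ZMod r) (u u' : ZMod M → ZMod r)
    (v : ZMod M → A → ZMod r) : pairM M r ψ (u + u') v = pairM M r ψ u v + pairM M r ψ u' v := by
  funext ω
  simp [pairM, add_mul, Finset.sum_add_distrib]

theorem pairM_add_right {A : Type} [NeZero M] (ψ : ZMod M → ZMod r) (u : ZMod M → ZMod r)
    (v v' : ZMod M → A → ZMod r) :
    pairM M r ψ u (v + v') = pairM M r ψ u v + pairM M r ψ u v' := by
  funext ω
  simp [pairM, mul_add, Finset.sum_add_distrib]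

theorem pairM_zero_left {A : Type} [NeZero M] (ψ : ZMod M → ZMod r)
    (v : ZMod M → A → ZMod r) : pairM M r ψ 0 v = 0 := by
  funext ω
  simp [pairM]

theorem pairM_zero_right {A : Type} [NeZero M] (ψ : ZMod M → ZMod r) (u : ZMod M → ZMod r) :
    pairM M r ψ u (0 : ZMod M → A → ZMod r) = 0 := by
  funext ω
  simp [pairM]

theorem pairM_single {A : Type} [NeZero M] (ψ : ZMod M → ZMod r) (i j : ZMod M)
    (c : ZMod r) (d : A → ZMod r) :
    pairM M r ψ (Pi.single i c) (Pi.single j d) = fun ω => c * ψ (j - i) * d ω := by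
  classical
  funext ω
  unfold pairM
  rw [Finset.sum_eq_single i]
  · rw [Finset.sum_eq_single j]
    · rw [Pi.single_eq_same, Pi.single_eq_same]
    · intro j' _ hj'
      rw [Pi.single_eq_of_ne hj']
      simp
    · simp
  · intro i' _ hi'
    apply Finset.sum_eq_zero
    intro j' _
    rw [Pi.single_eq_of_ne hi']
    simp
  · simp

theorem redD_pair [NeZero M] (φ : ℤ → ℤ) (ψ : ZMod M → ZMod r)
    (hψ : ∀ k : ℤ, (φ k : ZMod r) = ψ (k : ZMod M)) (w : ℤ →₀ ℤ) (b : ℤ →₀ (Gam.dat X).T) :
    redD X r (pair (Gam.dat X) φ w b) = pairM M r ψ (foldZ M r w) (foldD X M r b) := by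
  induction w using Finsupp.induction_linear with
  | zero => rw [map_zero, map_zero, pairM_zero_left]; exact map_zero _
  | add f g hf hg => rw [map_add, map_add, pairM_add_left, ← hf, ← hg]; exact map_add _ _ _
  | single i n =>
    induction b using Finsupp.induction_linear with
    | zero => rw [map_zero, map_zero, map_zero, pairM_zero_right]
    | add f g hf hg => rw [map_add, map_add, map_add, pairM_add_right, ← hf, ← hg]
    | single j a =>
      rw [foldZ_single, foldD_single, pairM_single, pair_single]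
      have h1 : (n • pb (Gam.dat X) φ i) (Finsupp.single j a) = n • (φ (j - i) • a) := by
        rw [← pb_single]; rfl
      rw [h1, map_zsmul, map_zsmul]
      funext ω
      have h2 := hψ (j - i)
      push_cast at h2
      rw [← h2]
      simp only [Pi.smul_apply, zsmul_eq_mul, Pi.mul_apply, Pi.intCast_apply]
      ring

end

section Phi

variable (P : Par) (n M r : ℕ)

/-- the finite set of reduced elements -/
abbrev Fd : Type :=
  (ZMod (P.m n) → (ZMod M → Om (P.X n) → ZMod r) × (Om (P.X n) → ZMod r) × P.X n) ×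
    (ZMod M → ZMod r) × ZMod M

/-- reduction of an element of the ambient group -/
noncomputable def Phi (g : GG P) : Fd P n M r :=
  (fun p => (foldD (P.X n) M r (g.x n p).b, (fun ω => (((g.x n p).c.ν ω : ℤ) : ZMod r)),
    (g.x n p).c.h), foldZ M r g.w, (g.k : ZMod M))

variable {P n M r}

/-- the multiplication of reduced elements -/
noncomputable def muF [NeZero M] (hm : P.m n ∣ M) (ψ : ZMod M → ZMod r) (α β : Fd P n M r) : Fd P n M r :=
  (fun p =>
    ((fun j ω => (α.1 p).1 j ω + (β.1 (p - ZMod.castHom hm (ZMod (P.m n)) α.2.2)).1 (j - α.2.2)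
        (Om.sm (α.1 p).2.2⁻¹ ω)),
     (fun ω => (α.1 p).2.1 ω +
        ((orderOf ω.1 : ZMod r) * pairM M r ψ α.2.1
          (fun j => (β.1 (p - ZMod.castHom hm (ZMod (P.m n)) α.2.2)).1 (j - α.2.2))
            (Om.sm (α.1 p).2.2⁻¹ ω) +
          (β.1 (p - ZMod.castHom hm (ZMod (P.m n)) α.2.2)).2.1 (Om.sm (α.1 p).2.2⁻¹ ω))),
     (α.1 p).2.2 * (β.1 (p - ZMod.castHom hm (ZMod (P.m n)) α.2.2)).2.2),
   (fun j => α.2.1 j + β.2.1 (j - α.2.2)), α.2.2 + β.2.2)

theorem Phi_mul [NeZero M] (hm : P.m n ∣ M) (ψ : ZMod M → ZMod r)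
    (hψ : ∀ k : ℤ, (P.φ n k : ZMod r) = ψ (k : ZMod M)) (a b : GG P) :
    Phi P n M r (a * b) = muF hm ψ (Phi P n M r a) (Phi P n M r b) := by
  have hcast : ZMod.castHom hm (ZMod (P.m n)) ((a.k : ℤ) : ZMod M) = (a.k : ZMod (P.m n)) := by
    simp
  refine Prod.ext ?_ (Prod.ext ?_ ?_)
  · funext p
    have hx : (a * b).x n p = a.x n p * H1.up (P.φ n) a.w (H1.sh a.k (b.x n (p - a.k))) := rfl
    simp only [Phi, muF, hcast]
    refine Prod.ext ?_ (Prod.ext ?_ ?_)
    · simp only
      rw [hx, H1.mul_b, map_add, foldD_act, H1.up_b, H1.sh_b, foldD_fsh]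
      rfl
    · simp only
      funext ω
      have hν : ((a * b).x n p).c.ν ω = (a.x n p).c.ν ω +
          ((orderOf ω.1 : ℤ) * (pair (Gam.dat (P.X n)) (P.φ n) a.w
            (fsh a.k (b.x n (p - a.k)).b)) (Om.sm (a.x n p).c.h⁻¹ ω)
            + (b.x n (p - a.k)).c.ν (Om.sm (a.x n p).c.h⁻¹ ω)) := by
        rw [hx]
        change (a.x n p).c.ν ω + _ = _
        congr 1
        change (orderOf (Om.sm (a.x n p).c.h⁻¹ ω).1 : ℤ) * _ + _ = _
        rw [Om.sm_fst]
        congr 1
        change (b.x n (p - a.k)).c.ν (Om.sm 1⁻¹ _) = _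
        rw [inv_one, Om.sm_one]
      rw [hν]
      push_cast
      congr 2
      have h1 := congrFun (redD_pair (X := P.X n) M r (P.φ n) ψ hψ a.w
        (fsh a.k (b.x n (p - a.k)).b)) (Om.sm (a.x n p).c.h⁻¹ ω)
      have h2 : redD (P.X n) r ((pair (Gam.dat (P.X n)) (P.φ n)) a.w
        (fsh a.k (b.x n (p - a.k)).b)) (Om.sm (a.x n p).c.h⁻¹ ω) =
        (((pair (Gam.dat (P.X n)) (P.φ n) a.w
            (fsh a.k (b.x n (p - a.k)).b)) (Om.sm (a.x n p).c.h⁻¹ ω) : ℤ) : ZMod r) := rfl
      rw [← h2, h1, foldD_fsh]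
    · simp only
      rw [hx]
      change _ * (1 * _) = _
      rw [one_mul]
      rfl
  · change foldZ M r (a.w + fsh a.k b.w) = _
    rw [map_add, foldZ_fsh]
    rfl
  · change (((a.k + b.k : ℤ)) : ZMod M) = _
    push_cast
    rfl

theorem exists_quot [NeZero M] [NeZero r] (hm : P.m n ∣ M) (ψ : ZMod M → ZMod r)
    (hψ : ∀ k : ℤ, (P.φ n k : ZMod r) = ψ (k : ZMod M)) :
    ∃ K : Subgroup (GG P), K.Normal ∧ K.FiniteIndex ∧
      ∀ g, g ∈ K ↔ Phi P n M r g = Phi P n M r 1 :=
  exists_normal_of_finite (Phi P n M r) (muF hm ψ) (Phi_mul hm ψ hψ)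

end Phi

end Pool.Agent.PC
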