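import Pool.Agent.Lib_helper83.Prof.Compl

set_option autoImplicit false

/-!
Second countable profinite groups embed into products of alternating groups without nontrivial
elements supported at a single coordinate.
-/

namespace Pool.Agent.PC

open scoped commutatorElement

universe u

/-- the alternating groups -/
abbrev XA (n : ℕ) : Type := alternatingGroup (Fin (n + 5))

theorem XA_perf (n : ℕ) : commutator (XA n) = ⊤ :=
  commutator_alternatingGroup_eq_top (by simp)

theorem XA_center (n : ℕ) : Subgroup.center (XA n) = ⊥ :=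
  alternatingGroup.center_eq_bot (by simp)

theorem sign_via {α β : Type*} [Fintype α] [DecidableEq α] [Fintype β] [DecidableEq β] (ι : α ↪ β)
    (e : Equiv.Perm α) : Equiv.Perm.sign (Equiv.Perm.viaEmbedding e ι) = Equiv.Perm.sign e := by
  unfold Equiv.Perm.viaEmbedding
  letI : DecidablePred (fun b => b ∈ Set.range ι.1) := fun b => Classical.propDecidable _
  exact Equiv.Perm.sign_extendDomain e (Equiv.ofInjective ι.1 ι.2)

/-- embedding a finite group into an alternating group -/
theorem exists_alt (F : Type u) [Group F] [Finite F] (n : ℕ) (h : 2 * Nat.card F ≤ n + 5) :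
    ∃ θ : F →* XA n, Function.Injective θ := by
  classical
  have : Fintype F := Fintype.ofFinite F
  have hcard : Fintype.card (F ⊕ F) ≤ Fintype.card (Fin (n + 5)) := by
    rw [Fintype.card_sum, Fintype.card_fin, ← Nat.card_eq_fintype_card]
    omega
  obtain ⟨ι⟩ := Function.Embedding.nonempty_of_card_le hcard
  let θ0 : F →* Equiv.Perm (Fin (n + 5)) :=
    (Equiv.Perm.viaEmbeddingHom ι).comp ((Equiv.Perm.sumCongrHom F F).comp
      ((MulAction.toPermHom F F).prod (MulAction.toPermHom F F)))
  have hθ0 : Function.Injective θ0 := by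
    apply (Equiv.Perm.viaEmbeddingHom_injective ι).comp
    apply Equiv.Perm.sumCongrHom_injective.comp
    intro x y hxy
    exact MulAction.toPerm_injective (α := F) (β := F) (Prod.ext_iff.1 hxy).1
  have hsign : ∀ x, Equiv.Perm.sign (θ0 x) = 1 := by
    intro x
    change Equiv.Perm.sign (Equiv.Perm.viaEmbedding (Equiv.sumCongr (MulAction.toPermHom F F x)
      (MulAction.toPermHom F F x)) ι) = 1
    rw [sign_via]
    have h1 := Equiv.Perm.sign_sumCongr (MulAction.toPermHom F F x) (MulAction.toPermHom F F x)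
    refine h1.trans ?_
    exact Int.units_mul_self _
  refine ⟨θ0.codRestrict (alternatingGroup (Fin (n + 5))) (fun x => ?_), ?_⟩
  · rw [Equiv.Perm.mem_alternatingGroup]
    exact hsign x
  · intro x y hxy
    exact hθ0 (congrArg Subtype.val hxy)

theorem exists_emb (H : Type u) [Group H] [TopologicalSpace H] [IsTopologicalGroup H]
    [CompactSpace H] [TotallyDisconnectedSpace H] [SecondCountableTopology H]
    [∀ n, TopologicalSpace (XA n)] [∀ n, DiscreteTopology (XA n)] :
    ∃ j : H →* (∀ n, XA n), Continuous j ∧ Function.Injective j ∧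
      ∀ h : H, ∀ n, (∀ m, m ≠ n → j h m = 1) → h = 1 := by
  classical
  -- a countable basis at the identity
  obtain ⟨V, hV⟩ := (nhds (1 : H)).exists_antitone_basis
  have h1 : ∀ i, ∃ W : OpenNormalSubgroup H, (W : Set H) ⊆ V i := by
    intro i
    obtain ⟨U, hU1, hU2, hU3⟩ := mem_nhds_iff.1 (hV.1.mem_of_mem (i := i) trivial)
    obtain ⟨W, hW⟩ := ProfiniteGrp.exist_openNormalSubgroup_sub_open_nhds_of_one hU2 hU3
    exact ⟨W, hW.trans hU1⟩
  choose W hW using h1
  let U : ℕ → Subgroup H := fun n => ⨅ i : Fin n, (W i).toSubgroup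
  have hUnorm : ∀ n, (U n).Normal := fun n => Subgroup.normal_iInf_normal fun i => (W i).isNormal'
  have hUopen : ∀ n, IsOpen (U n : Set H) := by
    intro n
    change IsOpen ((⨅ i : Fin n, (W i).toSubgroup : Subgroup H) : Set H)
    rw [Subgroup.coe_iInf]
    exact isOpen_iInter_of_finite fun i => (W i).isOpen'
  have hUanti : Antitone U := by
    intro n n' hn
    apply le_iInf
    intro i
    exact iInf_le (fun i : Fin n' => (W i).toSubgroup) ⟨i, lt_of_lt_of_le i.2 hn⟩
  have hUbot : ∀ h : H, (∀ n, h ∈ U n) → h = 1 := by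
    intro h hh
    by_contra hne
    have h2 : ({h}ᶜ : Set H) ∈ nhds (1 : H) := isOpen_compl_singleton.mem_nhds (Ne.symm hne)
    obtain ⟨i, -, hi⟩ := hV.1.mem_iff.1 h2
    have h3 : h ∈ (W i).toSubgroup := by
      have := hh (i + 1)
      exact (Subgroup.mem_iInf.1 this) ⟨i, Nat.lt_succ_self i⟩
    exact hi (hW i h3) rfl
  have hU0 : U 0 = ⊤ := by
    change (⨅ i : Fin 0, (W i).toSubgroup) = ⊤
    simp
  have hfin : ∀ n, Finite (H ⧸ U n) := fun n => Subgroup.quotient_finite_of_isOpen _ (hUopen n)
  -- a slow reindexing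
  let ν : ℕ → ℕ := fun m => Nat.findGreatest (fun n => 2 * Nat.card (H ⧸ U n) ≤ m + 5) m
  have hν0 : ∀ m, 2 * Nat.card (H ⧸ U (ν m)) ≤ m + 5 := by
    intro m
    apply Nat.findGreatest_spec (P := fun n => 2 * Nat.card (H ⧸ U n) ≤ m + 5) (Nat.zero_le m)
    rw [hU0]
    have : Nat.card (H ⧸ (⊤ : Subgroup H)) = 1 := Nat.card_eq_one_iff_unique.2
      ⟨QuotientGroup.subsingleton_quotient_top, ⟨1⟩⟩
    rw [this]
    omega
  have hν1 : ∀ n, ∃ m0, ∀ m, m0 ≤ m → n ≤ ν m := by
    intro n
    refine ⟨max n (2 * Nat.card (H ⧸ U n)), fun m hm => ?_⟩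
    apply Nat.le_findGreatest
    · exact (le_max_left _ _).trans hm
    · have := (le_max_right n (2 * Nat.card (H ⧸ U n))).trans hm
      omega
  have h4 : ∀ m, ∃ θ : H ⧸ U (ν m) →* XA m, Function.Injective θ := fun m =>
    exists_alt (H ⧸ U (ν m)) m (hν0 m)
  choose θ hθ using h4
  let j : H →* (∀ n, XA n) := MonoidHom.pi fun m => (θ m).comp (QuotientGroup.mk' (U (ν m)))
  have hj : ∀ h m, j h m = 1 → h ∈ U (ν m) := by
    intro h m hm
    have h5 : θ m (QuotientGroup.mk' (U (ν m)) h) = 1 := hm
    have h6 := hθ m (h5.trans (map_one (θ m)).symm)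
    exact (QuotientGroup.eq_one_iff h).1 h6
  have hsing : ∀ h : H, ∀ n, (∀ m, m ≠ n → j h m = 1) → h = 1 := by
    intro h n hn
    apply hUbot
    intro k
    obtain ⟨m0, hm0⟩ := hν1 k
    have h5 : max m0 (n + 1) ≠ n := by
      have := le_max_right m0 (n + 1)
      omega
    exact hUanti (hm0 _ (le_max_left m0 (n + 1))) (hj h _ (hn _ h5))
  refine ⟨j, ?_, ?_, hsing⟩
  · apply continuous_pi
    intro m
    have : DiscreteTopology (H ⧸ U (ν m)) := QuotientGroup.discreteTopology (hUopen _)
    have h5 : Continuous (θ m) := continuous_of_discreteTopology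
    exact h5.comp QuotientGroup.continuous_mk
  · rw [injective_iff_map_eq_one]
    intro h hh
    apply hsing h 0
    intro m _
    rw [hh]
    rfl

end Pool.Agent.PC
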