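import Pool.Agent.Lib_helper83.Prof.Isolate

set_option autoImplicit false

/-!
Concrete parameters.
-/

namespace Pool.Agent.PC

open scoped commutatorElement

/-! ### the function `φ` -/

/-- the `q`-part of an integer, with value `0` at `0` -/
noncomputable def qp (q : ℕ) (k : ℤ) : ℤ :=
  if k = 0 then 0 else ((q ^ padicValInt q k : ℕ) : ℤ)

theorem qp_zero (q : ℕ) : qp q 0 = 0 := if_pos rfl

theorem qp_of_ne (q : ℕ) (k : ℤ) (hk : k ≠ 0) : qp q k = ((q ^ padicValInt q k : ℕ) : ℤ) :=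
  if_neg hk

section

variable (q : ℕ) [hq : Fact q.Prime]

theorem qp_eq (k : ℤ) (v : ℕ) (h1 : (q : ℤ) ^ v ∣ k) (h2 : ¬ (q : ℤ) ^ (v + 1) ∣ k) :
    qp q k = ((q ^ v : ℕ) : ℤ) := by
  have hk : k ≠ 0 := by
    rintro rfl
    exact h2 (dvd_zero _)
  rw [qp_of_ne q k hk]
  rw [padicValInt_dvd_iff] at h1 h2
  have h3 : padicValInt q k = v := by
    rcases h1 with h | h
    · exact absurd h hk
    · push Not at h2
      omega
  rw [h3]

theorem qp_of_not_dvd (k : ℤ) (h : ¬ (q : ℤ) ∣ k) : qp q k = 1 := by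
  rw [qp_eq q k 0 (by simp) (by simpa using h)]
  simp

theorem qp_small (k : ℤ) (h0 : k ≠ 0) (h : k.natAbs < q) : qp q k = 1 := by
  apply qp_of_not_dvd
  intro hd
  have h1 := Int.natAbs_dvd_natAbs.2 hd
  rw [Int.natAbs_natCast] at h1
  have := Nat.le_of_dvd (Int.natAbs_pos.2 h0) h1
  omega

theorem dvd_qp (k : ℤ) (s : ℕ) (h : (q : ℤ) ^ s ∣ k) : (q : ℤ) ^ s ∣ qp q k := by
  by_cases hk : k = 0
  · rw [hk, qp_zero]; exact dvd_zero _
  · rw [qp_of_ne q k hk]
    rw [padicValInt_dvd_iff] at h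
    rcases h with h | h
    · exact absurd h hk
    · push_cast
      exact pow_dvd_pow _ h

theorem qp_per (s : ℕ) (k : ℤ) : ((q ^ s : ℕ) : ℤ) ∣ qp q (k + (q ^ s : ℕ)) - qp q k := by
  push_cast
  by_cases h : (q : ℤ) ^ s ∣ k
  · exact dvd_sub (dvd_qp q _ s (dvd_add h dvd_rfl)) (dvd_qp q _ s h)
  · have hk : k ≠ 0 := by
      rintro rfl
      exact h (dvd_zero _)
    have h1 : (q : ℤ) ^ (padicValInt q k) ∣ k := (padicValInt_dvd_iff _ _).2 (Or.inr le_rfl)
    have h2 : ¬ (q : ℤ) ^ (padicValInt q k + 1) ∣ k := by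
      rw [padicValInt_dvd_iff]
      push Not
      exact ⟨hk, by omega⟩
    have h3 : padicValInt q k + 1 ≤ s := by
      by_contra hcon
      push Not at hcon
      exact h ((padicValInt_dvd_iff _ _).2 (Or.inr (by omega)))
    have h4 : (q : ℤ) ^ (padicValInt q k) ∣ k + (q : ℤ) ^ s :=
      dvd_add h1 (pow_dvd_pow _ (by omega))
    have h5 : ¬ (q : ℤ) ^ (padicValInt q k + 1) ∣ k + (q : ℤ) ^ s := by
      intro h6
      apply h2
      have := dvd_sub h6 (pow_dvd_pow (q : ℤ) h3)
      rwa [add_sub_cancel_right] at this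
    rw [qp_eq q _ _ h4 h5, qp_eq q _ _ h1 h2, sub_self]
    exact dvd_zero _

end

/-! ### positions -/

theorem two_pow_add_eq {a b c d : ℕ} (h : 2 ^ a + 2 ^ b = 2 ^ c + 2 ^ d) :
    (a = c ∧ b = d) ∨ (a = d ∧ b = c) := by
  have key : ∀ a b c d : ℕ, 2 ^ a + 2 ^ b = 2 ^ c + 2 ^ d → a ≤ b → c ≤ d → b = d := by
    intro a b c d h _ hcd
    by_contra hne
    rcases Nat.lt_or_gt_of_ne hne with hlt | hlt
    · have h1 : 2 ^ (b + 1) ≤ 2 ^ d := Nat.pow_le_pow_right (by norm_num) hlt
      have h2 : 2 ^ a ≤ 2 ^ b := Nat.pow_le_pow_right (by norm_num) (by assumption)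
      have h3 : 0 < 2 ^ c := by positivity
      rw [pow_succ] at h1
      omega
    · have h1 : 2 ^ (d + 1) ≤ 2 ^ b := Nat.pow_le_pow_right (by norm_num) hlt
      have h2 : 2 ^ c ≤ 2 ^ d := Nat.pow_le_pow_right (by norm_num) hcd
      have h3 : 0 < 2 ^ a := by positivity
      rw [pow_succ] at h1
      omega
  have inj : ∀ x y : ℕ, 2 ^ x = 2 ^ y → x = y := fun x y h => Nat.pow_right_injective le_rfl h
  rcases le_total a b with hab | hab <;> rcases le_total c d with hcd | hcd
  · have h1 := key a b c d h hab hcd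
    subst h1
    left
    exact ⟨inj _ _ (by omega), rfl⟩
  · have h1 := key a b d c (by omega) hab hcd
    subst h1
    right
    exact ⟨inj _ _ (by omega), rfl⟩
  · have h1 := key b a c d (by omega) hab hcd
    subst h1
    right
    exact ⟨rfl, inj _ _ (by omega)⟩
  · have h1 := key b a d c (by omega) hab hcd
    subst h1
    left
    exact ⟨rfl, inj _ _ (by omega)⟩

/-- exponents -/
def aa (c : ℕ → ℕ) : ℕ → ℕ
  | 0 => 0
  | n + 1 => aa c n + c n + 1

theorem aa_succ (c : ℕ → ℕ) (n : ℕ) : aa c (n + 1) = aa c n + c n + 1 := rfl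

theorem aa_mono (c : ℕ → ℕ) : Monotone (aa c) :=
  monotone_nat_of_le_succ fun n => by rw [aa_succ]; omega

theorem le_aa (c : ℕ → ℕ) (n : ℕ) : n ≤ aa c n := by
  induction n with
  | zero => exact Nat.zero_le _
  | succ n ih => rw [aa_succ]; omega

section

variable (X : ℕ → Type) [∀ n, Group (X n)] [∀ n, Finite (X n)]

/-- numbering of the elements -/
noncomputable def idx (n : ℕ) (x : X n) : ℕ := Finite.equivFin (X n) x

theorem idx_lt (n : ℕ) (x : X n) : idx X n x < Nat.card (X n) := (Finite.equivFin (X n) x).2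

theorem idx_inj (n : ℕ) {x y : X n} (h : idx X n x = idx X n y) : x = y :=
  (Finite.equivFin (X n)).injective (Fin.ext h)

/-- exponents -/
noncomputable abbrev ax : ℕ → ℕ := aa (fun n => Nat.card (X n))

theorem ax_succ (n : ℕ) : ax X (n + 1) = ax X n + Nat.card (X n) + 1 := rfl

/-- positions -/
noncomputable def pos (n : ℕ) (x : X n) : ℤ := 2 ^ (ax X n + idx X n x)

/-- moduli -/
noncomputable def mm (n : ℕ) : ℕ := 2 ^ (ax X (n + 1))

instance (n : ℕ) : NeZero (mm X n) := ⟨by unfold mm; positivity⟩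

theorem pos_pos (n : ℕ) (x : X n) : 0 < pos X n x := by unfold pos; positivity

theorem pos_lt (n : ℕ) (x : X n) : pos X n x < 2 ^ (ax X (n + 1)) := by
  unfold pos
  apply pow_lt_pow_right₀ (by norm_num)
  have := idx_lt X n x
  rw [ax_succ]
  omega

theorem pos_inj (n : ℕ) {x y : X n} (h : pos X n x = pos X n y) : x = y := by
  unfold pos at h
  have h1 : ax X n + idx X n x = ax X n + idx X n y := by
    have h2 : (2 : ℕ) ^ (ax X n + idx X n x) = 2 ^ (ax X n + idx X n y) := by exact_mod_cast h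
    exact Nat.pow_right_injective le_rfl h2
  exact idx_inj X n (by omega)

theorem dvd_pos (n : ℕ) (x : X n) : (2 : ℤ) ^ (ax X n) ∣ pos X n x := by
  unfold pos
  exact pow_dvd_pow _ (Nat.le_add_right _ _)

theorem eq_of_dvd_of_lt {d a b : ℤ} (hd : d ∣ a - b) (ha : 0 ≤ a) (hb : 0 ≤ b) (ha' : a < d)
    (hb' : b < d) : a = b := by
  obtain ⟨c, hc⟩ := hd
  have h1 : c < 1 := by
    by_contra hcon
    push Not at hcon
    nlinarith
  have h2 : -1 < c := by
    by_contra hcon
    push Not at hcon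
    nlinarith
  have h3 : c = 0 := by omega
  rw [h3, mul_zero] at hc
  omega

theorem cast_mm (n : ℕ) : ((mm X n : ℕ) : ℤ) = 2 ^ (ax X (n + 1)) := by
  unfold mm
  push_cast
  rfl

theorem posZ_inj (n : ℕ) : Function.Injective (fun x : X n => ((pos X n x : ℤ) : ZMod (mm X n))) := by
  intro x y h
  have h1 := (ZMod.intCast_eq_intCast_iff_dvd_sub _ _ _).1 h
  rw [cast_mm] at h1
  have h2 := eq_of_dvd_of_lt h1 (pos_pos X n y).le (pos_pos X n x).le (pos_lt X n y) (pos_lt X n x)
  exact pos_inj X n h2.symm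

theorem pos_low (l n : ℕ) (h : l < n) (x : X n) : ((pos X n x : ℤ) : ZMod (mm X l)) = 0 := by
  rw [ZMod.intCast_zmod_eq_zero_iff_dvd, cast_mm]
  exact (pow_dvd_pow _ (aa_mono _ h)).trans (dvd_pos X n x)

theorem pos_high (l n : ℕ) (h : n < l) (x x' : X n) (y y' : X l) (p : ZMod (mm X l))
    (h1 : p + (pos X n x : ℤ) = (pos X l y : ℤ)) (h2 : p + (pos X n x' : ℤ) = (pos X l y' : ℤ)) :
    x = x' := by
  have h3 : ((pos X n x - pos X n x' : ℤ) : ZMod (mm X l)) =
      ((pos X l y - pos X l y' : ℤ) : ZMod (mm X l)) := by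
    push_cast
    rw [← h1, ← h2]
    ring
  have h4 := (ZMod.intCast_eq_intCast_iff_dvd_sub _ _ _).1 h3
  rw [cast_mm] at h4
  have h5 : (2 : ℤ) ^ (ax X l) ∣ (pos X l y - pos X l y') - (pos X n x - pos X n x') :=
    (pow_dvd_pow _ (aa_mono _ (Nat.le_succ l))).trans h4
  have h6 : (2 : ℤ) ^ (ax X l) ∣ pos X n x - pos X n x' := by
    have h7 := dvd_sub (dvd_sub (dvd_pos X l y) (dvd_pos X l y')) h5
    rwa [sub_sub_cancel] at h7
  have h8 : (2 : ℤ) ^ (ax X (n + 1)) ≤ 2 ^ (ax X l) :=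
    pow_le_pow_right₀ (by norm_num) (aa_mono _ h)
  exact pos_inj X n (eq_of_dvd_of_lt h6 (pos_pos X n x).le (pos_pos X n x').le
    (lt_of_lt_of_le (pos_lt X n x) h8) (lt_of_lt_of_le (pos_lt X n x') h8))

theorem pos_same (n : ℕ) (x x' y y' : X n) (hx : x ≠ x') (p : ZMod (mm X n))
    (h1 : p + (pos X n x : ℤ) = (pos X n y : ℤ)) (h2 : p + (pos X n x' : ℤ) = (pos X n y' : ℤ)) :
    p = 0 := by
  have h3 : ((pos X n x + pos X n y' : ℤ) : ZMod (mm X n)) =
      ((pos X n x' + pos X n y : ℤ) : ZMod (mm X n)) := by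
    push_cast
    rw [← h1, ← h2]
    ring
  have h4 := (ZMod.intCast_eq_intCast_iff_dvd_sub _ _ _).1 h3
  rw [cast_mm] at h4
  have hlt : ∀ z w : X n, pos X n z + pos X n w < 2 ^ (ax X (n + 1)) := by
    intro z w
    have hz : ∀ z : X n, pos X n z ≤ 2 ^ (ax X n + Nat.card (X n) - 1) := by
      intro z
      unfold pos
      apply pow_le_pow_right₀ (by norm_num)
      have := idx_lt X n z
      omega
    have hc : 0 < Nat.card (X n) := Nat.card_pos
    have h5 : (2 : ℤ) ^ (ax X n + Nat.card (X n) - 1) + 2 ^ (ax X n + Nat.card (X n) - 1) <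
        2 ^ (ax X (n + 1)) := by
      have h6 : ax X (n + 1) = (ax X n + Nat.card (X n) - 1) + 2 := by
        rw [ax_succ]
        omega
      rw [h6, pow_add]
      have : (0 : ℤ) < 2 ^ (ax X n + Nat.card (X n) - 1) := by positivity
      linarith
    linarith [hz z, hz w]
  have h5 := eq_of_dvd_of_lt h4 (by linarith [pos_pos X n x', pos_pos X n y])
    (by linarith [pos_pos X n x, pos_pos X n y']) (hlt _ _) (hlt _ _)
  have h6 : 2 ^ (ax X n + idx X n x') + 2 ^ (ax X n + idx X n y) =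
      2 ^ (ax X n + idx X n x) + 2 ^ (ax X n + idx X n y') := by
    unfold pos at h5
    exact_mod_cast h5
  rcases two_pow_add_eq h6 with ⟨h7, _⟩ | ⟨h7, h8⟩
  · exact absurd (idx_inj X n (by omega : idx X n x = idx X n x')) hx
  · have h9 : y = x := idx_inj X n (by omega)
    rw [h9] at h1
    exact add_eq_right.1 h1

/-- the generator `f` -/
noncomputable def ff (n : ℕ) : ZMod (mm X n) → Gam (X n) :=
  Function.extend (fun x : X n => ((pos X n x : ℤ) : ZMod (mm X n))) Gam.lift (fun _ => 1)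

theorem ff_pos (n : ℕ) (x : X n) : ff X n (pos X n x : ℤ) = Gam.lift x :=
  (posZ_inj X n).extend_apply _ _ x

theorem ff_ne (n : ℕ) (p : ZMod (mm X n)) (h : ∀ x : X n, ((pos X n x : ℤ) : ZMod (mm X n)) ≠ p) :
    ff X n p = 1 :=
  Function.extend_apply' _ _ _ (by rintro ⟨x, hx⟩; exact h x hx)

theorem ff_cases (n : ℕ) (p : ZMod (mm X n)) :
    ff X n p = 1 ∨ ∃ x : X n, ((pos X n x : ℤ) : ZMod (mm X n)) = p := by
  by_cases h : ∃ x : X n, ((pos X n x : ℤ) : ZMod (mm X n)) = p
  · exact Or.inr h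
  · left
    push Not at h
    exact ff_ne X n p h

theorem ff_iso (n : ℕ) (x x' : X n) : ∃ k k' : ℤ,
    (∀ p : ZMod (mm X n), ⁅ff X n (p - k), ff X n (p - k')⁆ =
      (Pi.mulSingle 0 ⁅Gam.lift x, Gam.lift x'⁆ : ZMod (mm X n) → Gam (X n)) p) ∧
    ∀ l, l ≠ n → ∀ p : ZMod (mm X l), ⁅ff X l (p - k), ff X l (p - k')⁆ = 1 := by
  by_cases hx : x = x'
  · subst hx
    refine ⟨0, 0, ?_, ?_⟩
    · intro p
      rw [commutatorElement_self, commutatorElement_self, Pi.mulSingle_one]
      rfl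
    · intro l _ p
      rw [commutatorElement_self]
  · refine ⟨-pos X n x, -pos X n x', ?_, ?_⟩
    · intro p
      push_cast
      rw [sub_neg_eq_add, sub_neg_eq_add]
      by_cases hp : p = 0
      · subst hp
        rw [zero_add, zero_add, ff_pos, ff_pos, Pi.mulSingle_eq_same]
      · rw [Pi.mulSingle_eq_of_ne hp]
        rcases ff_cases X n (p + (pos X n x : ℤ)) with h | ⟨y, hy⟩
        · rw [h, commutatorElement_one_left]
        · rcases ff_cases X n (p + (pos X n x' : ℤ)) with h' | ⟨y', hy'⟩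
          · rw [h', commutatorElement_one_right]
          · exact absurd (pos_same X n x x' y y' hx p hy.symm hy'.symm) hp
    · intro l hl p
      push_cast
      rw [sub_neg_eq_add, sub_neg_eq_add]
      rcases Nat.lt_or_gt_of_ne hl with h | h
      · rw [pos_low X l n h, pos_low X l n h, commutatorElement_self]
      · rcases ff_cases X l (p + (pos X n x : ℤ)) with h1 | ⟨y, hy⟩
        · rw [h1, commutatorElement_one_left]
        · rcases ff_cases X l (p + (pos X n x' : ℤ)) with h' | ⟨y', hy'⟩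
          · rw [h', commutatorElement_one_right]
          · exact absurd (pos_high X l n h x x' y y' p hy.symm hy'.symm) hx

theorem ff_sparse (k : ℤ) (hk : k ≠ 0) : ∃ K : ℕ, ∀ n, K ≤ n → ∀ p : ZMod (mm X n),
    ff X n p = 1 ∨ ff X n (p - k) = 1 := by
  refine ⟨k.natAbs, fun n hn p => ?_⟩
  rcases ff_cases X n p with h | ⟨y, hy⟩
  · exact Or.inl h
  · rcases ff_cases X n (p - k) with h | ⟨y', hy'⟩
    · exact Or.inr h
    · exfalso
      have h1 : ((k : ℤ) : ZMod (mm X n)) = ((pos X n y - pos X n y' : ℤ) : ZMod (mm X n)) := by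
        push_cast
        rw [hy, hy']
        ring
      have h2 := (ZMod.intCast_eq_intCast_iff_dvd_sub _ _ _).1 h1
      rw [cast_mm] at h2
      have h3 : (2 : ℤ) ^ (ax X n) ∣ (pos X n y - pos X n y') - k :=
        (pow_dvd_pow _ (aa_mono _ (Nat.le_succ n))).trans h2
      have h4 : (2 : ℤ) ^ (ax X n) ∣ k := by
        have h7 := dvd_sub (dvd_sub (dvd_pos X n y) (dvd_pos X n y')) h3
        rwa [sub_sub_cancel] at h7
      have h5 := Int.natAbs_dvd_natAbs.2 h4
      have h6 := Nat.le_of_dvd (Int.natAbs_pos.2 hk) h5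
      rw [Int.natAbs_pow] at h6
      have h7 : n ≤ ax X n := le_aa _ n
      have h8 : ax X n < 2 ^ (ax X n) := Nat.lt_two_pow_self
      have h9 : (Int.natAbs 2) ^ (ax X n) = 2 ^ (ax X n) := rfl
      omega

/-- the prime `q n` -/
noncomputable def qq (n : ℕ) : ℕ :=
  (Nat.exists_infinite_primes (Nat.card (Om (X n)) + Nat.card (X n) + 2)).choose

theorem qq_prime (n : ℕ) : (qq X n).Prime :=
  (Nat.exists_infinite_primes (Nat.card (Om (X n)) + Nat.card (X n) + 2)).choose_spec.2

theorem qq_le (n : ℕ) : Nat.card (Om (X n)) + Nat.card (X n) + 2 ≤ qq X n :=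
  (Nat.exists_infinite_primes (Nat.card (Om (X n)) + Nat.card (X n) + 2)).choose_spec.1

/-- numbering of `Om (X n)` -/
noncomputable def enc (n : ℕ) (ω : Om (X n)) : ℤ := (Finite.equivFin (Om (X n)) ω : ℕ) + 1

theorem enc_pos (n : ℕ) (ω : Om (X n)) : 0 < enc X n ω := by unfold enc; positivity

theorem enc_le (n : ℕ) (ω : Om (X n)) : enc X n ω ≤ Nat.card (Om (X n)) := by
  unfold enc
  have := (Finite.equivFin (Om (X n)) ω).2
  omega

theorem enc_inj (n : ℕ) {ω ω' : Om (X n)} (h : enc X n ω = enc X n ω') : ω = ω' := by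
  unfold enc at h
  have h1 : (Finite.equivFin (Om (X n)) ω : ℕ) = Finite.equivFin (Om (X n)) ω' := by omega
  exact (Finite.equivFin (Om (X n))).injective (Fin.ext h1)

/-- the parameters -/
noncomputable def pars : Par where
  X := X
  m := mm X
  φ n := qp (qq X n)
  b n := ∑ ω, Finsupp.single (enc X n ω) (Pi.single ω 1)
  f := ff X

/-- the parameters are good -/
noncomputable def good (hperf : ∀ n, commutator (X n) = ⊤) : (pars X).Good where
  q := qq X
  one_lt n := (qq_prime X n).one_lt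
  cop n := by
    have hp := qq_prime X n
    rw [hp.coprime_iff_not_dvd]
    intro h
    have h1 := Nat.le_of_dvd Nat.card_pos h
    have h2 := qq_le X n
    change qq X n ≤ Nat.card (X n) at h1
    omega
  per n s k := by
    have : Fact (qq X n).Prime := ⟨qq_prime X n⟩
    exact qp_per (qq X n) s k
  enc := enc X
  hb n := rfl
  phi_zero n := qp_zero (qq X n)
  phi_one n ω := by
    have : Fact (qq X n).Prime := ⟨qq_prime X n⟩
    have h1 := enc_pos X n ω
    have h2 := enc_le X n ω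
    have h3 := qq_le X n
    exact qp_small (qq X n) (enc X n ω) (by omega) (by omega)
  phi_two n ω ω' h := by
    have : Fact (qq X n).Prime := ⟨qq_prime X n⟩
    have h1 := enc_pos X n ω
    have h2 := enc_le X n ω
    have h1' := enc_pos X n ω'
    have h2' := enc_le X n ω'
    have h3 := qq_le X n
    have h4 : enc X n ω ≠ enc X n ω' := fun h5 => h (enc_inj X n h5)
    exact qp_small (qq X n) (enc X n ω - enc X n ω') (by omega) (by omega)
  phi_three n M hM := by
    have : Fact (qq X n).Prime := ⟨qq_prime X n⟩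
    have h0 : (M : ℤ) * qq X n ≠ 0 := by
      have := (qq_prime X n).pos
      positivity
    refine ⟨(M : ℤ) * qq X n, padicValInt (qq X n) (-((M : ℤ) * qq X n)), Dvd.intro _ rfl, ?_, ?_⟩
    · exact qp_of_ne (qq X n) (-((M : ℤ) * qq X n)) (neg_ne_zero.2 h0)
    · intro ω ω' h
      have h1 := enc_pos X n ω
      have h2 := enc_le X n ω
      have h1' := enc_pos X n ω'
      have h2' := enc_le X n ω'
      have h3 := qq_le X n
      have h4 : enc X n ω ≠ enc X n ω' := fun h5 => h (enc_inj X n h5)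
      apply qp_of_not_dvd (qq X n) (enc X n ω - (enc X n ω' + (M : ℤ) * qq X n))
      intro hd
      have h5 : (qq X n : ℤ) ∣ enc X n ω - enc X n ω' := by
        have h6 := dvd_add hd (Dvd.intro_left (M : ℤ) rfl : (qq X n : ℤ) ∣ (M : ℤ) * qq X n)
        have h7 : enc X n ω - (enc X n ω' + (M : ℤ) * qq X n) + (M : ℤ) * qq X n =
          enc X n ω - enc X n ω' := by ring
        rwa [h7] at h6
      have h6 := Int.natAbs_dvd_natAbs.2 h5
      rw [Int.natAbs_natCast] at h6
      have h7 := Nat.le_of_dvd (by omega) h6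
      omega
  sparse k hk := by
    obtain ⟨K, hK⟩ := ff_sparse X k hk
    refine ⟨K, fun n hn (p : ZMod (mm X n)) => ?_⟩
    rcases hK n hn p with h | h
    · left
      change (ff X n p).h = 1
      rw [h]; rfl
    · right
      change (ff X n (p - k)).h = 1
      rw [h]; rfl
  iso := ff_iso X
  perf := hperf

end

end Pool.Agent.PC
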