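import Pool.Agent.Lib_helper83.Prof.Defs
import Pool.Agent.Lib_helper83.Prof.Beta
import Pool.Agent.Lib_helper83.Prof.Params
import Pool.Agent.Lib_helper83.Prof.HEmb

set_option autoImplicit false

/-!
The final theorems.
-/

namespace Pool.Agent.PC

open scoped commutatorElement symmDiff
open Pool.Agent.ProfCore

universe u v

/-! ### Følner conditions -/

theorem Fol.amenable {G : Type u} [Group G] (h : Fol G) : Amenable G := by
  classical
  intro S ε hε
  obtain ⟨F, hF, hS⟩ := h S (ε / 2) (by positivity)
  refine ⟨F, hF, fun s hs => ?_⟩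
  have hinj : Function.Injective (fun x : G => s * x) := mul_right_injective s
  have h1 : (F.image fun x => s * x) \ F = ({y ∈ F | s * y ∉ F}).image (fun x => s * x) := by
    ext y
    simp only [Finset.mem_sdiff, Finset.mem_image, Finset.mem_filter]
    constructor
    · rintro ⟨⟨x, hx, rfl⟩, hy⟩
      exact ⟨x, ⟨hx, hy⟩, rfl⟩
    · rintro ⟨x, ⟨hx, hy⟩, rfl⟩
      exact ⟨⟨x, hx, rfl⟩, hy⟩
  have h2 : ((F.image fun x => s * x) \ F).card = ({y ∈ F | s * y ∉ F}).card := by
    rw [h1, Finset.card_image_of_injective _ hinj]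
  have h3 : (F \ (F.image fun x => s * x)).card = ((F.image fun x => s * x) \ F).card := by
    have h4 : (F.image fun x => s * x).card = F.card := Finset.card_image_of_injective _ hinj
    have h5 := Finset.card_sdiff_add_card_inter F (F.image fun x => s * x)
    have h6 := Finset.card_sdiff_add_card_inter (F.image fun x => s * x) F
    rw [Finset.inter_comm] at h6
    omega
  have h4 : ((F.image fun x => s * x) ∆ F).card ≤
      ((F.image fun x => s * x) \ F).card + (F \ (F.image fun x => s * x)).card :=
    Finset.card_union_le _ _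
  have h5 := hS s hs
  have h6 : ((({y ∈ F | s * y ∉ F}) : Finset G).card : ℝ) ≤ ε / 2 * F.card := by
    convert h5 using 3
  have h7 : ((((F.image fun x => s * x) ∆ F).card : ℕ) : ℝ) ≤
      2 * (({y ∈ F | s * y ∉ F}) : Finset G).card := by
    have : ((F.image fun x => s * x) ∆ F).card ≤ 2 * (({y ∈ F | s * y ∉ F}) : Finset G).card := by
      omega
    exact_mod_cast this
  have h8 : ((((F.image fun x => s * x) ∆ F).card : ℕ) : ℝ) ≤ ε * F.card := by linarith
  convert h8 using 3

/-! ### necessity -/

theorem countable_hom (G : Type u) [Group G] [Group.FG G] (P : Type v) [Group P] [Finite P] :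
    Finite (G →* P) := by
  obtain ⟨S, hS⟩ := Group.FG.out (G := G)
  let F : (G →* P) → (S → P) := fun f s => f s
  have hF : Function.Injective F := by
    intro f g hfg
    apply MonoidHom.eq_of_eqOn_dense hS
    intro x hx
    exact congrFun hfg ⟨x, hx⟩
  exact Finite.of_injective F hF

theorem countable_fins (G : Type u) [Group G] [Group.FG G] :
    Countable (FiniteIndexNormalSubgroup G) := by
  have hfin : ∀ N : FiniteIndexNormalSubgroup G, Finite (G ⧸ N.toSubgroup) := fun N =>
    Subgroup.finite_quotient_of_finiteIndex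
  have hc : Countable (Σ k : ℕ, (G →* Equiv.Perm (Fin k))) := by
    have : ∀ k : ℕ, Finite (G →* Equiv.Perm (Fin k)) := fun k => countable_hom G _
    infer_instance
  let g : ∀ N : FiniteIndexNormalSubgroup G,
      G ⧸ N.toSubgroup →* Equiv.Perm (Fin (Nat.card (G ⧸ N.toSubgroup))) := fun N =>
    (Equiv.permCongrHom (Finite.equivFin (G ⧸ N.toSubgroup))).toMonoidHom.comp
      (MulAction.toPermHom (G ⧸ N.toSubgroup) (G ⧸ N.toSubgroup))
  let f : ∀ N : FiniteIndexNormalSubgroup G,
      G →* Equiv.Perm (Fin (Nat.card (G ⧸ N.toSubgroup))) := fun N =>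
    (g N).comp (QuotientGroup.mk' N.toSubgroup)
  have hf : ∀ N, (f N).ker = N.toSubgroup := by
    intro N
    have h1 : Function.Injective (g N) := by
      intro x y hxy
      have h2 : (MulAction.toPermHom (G ⧸ N.toSubgroup) (G ⧸ N.toSubgroup)) x =
          (MulAction.toPermHom (G ⧸ N.toSubgroup) (G ⧸ N.toSubgroup)) y :=
        (Equiv.permCongrHom (Finite.equivFin (G ⧸ N.toSubgroup))).injective hxy
      exact MulAction.toPerm_injective (α := G ⧸ N.toSubgroup) (β := G ⧸ N.toSubgroup) h2
    ext x
    rw [MonoidHom.mem_ker]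
    have h3 : f N x = g N (QuotientGroup.mk' N.toSubgroup x) := rfl
    rw [h3]
    constructor
    · intro h
      have h2 := h1 (h.trans (map_one (g N)).symm)
      exact (QuotientGroup.eq_one_iff x).1 h2
    · intro h
      have h2 : QuotientGroup.mk' N.toSubgroup x = 1 := (QuotientGroup.eq_one_iff x).2 h
      rw [h2, map_one]
  let F : FiniteIndexNormalSubgroup G → (Σ k : ℕ, (G →* Equiv.Perm (Fin k))) := fun N =>
    ⟨_, f N⟩
  have hF : Function.Injective F := by
    intro N N' h
    have h1 : (F N).2.ker = (F N').2.ker := by rw [h]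
    have h2 : N.toSubgroup = N'.toSubgroup := by
      rw [← hf N, ← hf N']
      exact h1
    exact SetLike.ext' (congrArg (fun K : Subgroup G => (K : Set G)) h2)
  exact hF.countable

theorem second_countable_pc (G : Type u) [Group G] [Group.FG G] :
    SecondCountableTopology (PCo G) := by
  have h1 : Countable (FiniteIndexNormalSubgroup G) := countable_fins G
  have h2 : ∀ N : FiniteIndexNormalSubgroup (GrpCat.of G),
      SecondCountableTopology
        ((ProfiniteGrp.ProfiniteCompletion.diagram (GrpCat.of G)).obj N) := by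
    intro N
    have : Finite ((ProfiniteGrp.ProfiniteCompletion.diagram (GrpCat.of G)).obj N) := by
      change Finite (G ⧸ N.toSubgroup)
      exact @Subgroup.finite_quotient_of_finiteIndex G _ N.toSubgroup N.isFiniteIndex'
    infer_instance
  have h3 : Countable (FiniteIndexNormalSubgroup (GrpCat.of G)) := h1
  have h4 : SecondCountableTopology (∀ N : FiniteIndexNormalSubgroup (GrpCat.of G),
      (ProfiniteGrp.ProfiniteCompletion.diagram (GrpCat.of G)).obj N) := inferInstance
  exact TopologicalSpace.Subtype.secondCountableTopology _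

theorem necessity (G : Type u) [Group G] (hG : Group.FG G) (H : Type v) [Group H]
    [TopologicalSpace H] (h : IsCoreFreeClosedSubgroupOf H G) : SecondCountableTopology H := by
  obtain ⟨D, -, ⟨e⟩, -⟩ := h
  have h1 : SecondCountableTopology (PCo G) := second_countable_pc G
  have h2 : SecondCountableTopology D := TopologicalSpace.Subtype.secondCountableTopology _
  exact e.symm.toHomeomorph.secondCountableTopology

/-! ### core-free subgroups -/

theorem core_free {G : Type u} [Group G] [∀ n, TopologicalSpace (XA n)]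
    (Φ : (∀ n, XA n) →* PCo G) (hΦc : Continuous Φ) (hΦi : Function.Injective Φ)
    (H : Type v) [Group H] [TopologicalSpace H] [IsTopologicalGroup H] [CompactSpace H]
    (j : H →* (∀ n, XA n)) (hjc : Continuous j) (hji : Function.Injective j)
    (hsing : ∀ h : H, ∀ n, (∀ m, m ≠ n → j h m = 1) → h = 1) :
    IsCoreFreeClosedSubgroupOf H G := by
  let f : H →* PCo G := Φ.comp j
  have hfc : Continuous f := hΦc.comp hjc
  have hfi : Function.Injective f := hΦi.comp hji
  have hDc : IsClosed (f.range : Set (PCo G)) := by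
    rw [MonoidHom.coe_range]
    exact (isCompact_range hfc).isClosed
  have e : f.range ≃ₜ* H := by
    let e0 : H ≃* f.range := MonoidHom.ofInjective hfi
    have he0 : Continuous e0 := hfc.subtype_mk _
    have he1 : Continuous e0.symm := by
      exact Continuous.continuous_symm_of_equiv_compact_to_t2 (f := e0.toEquiv) he0
    exact (⟨e0, he0, he1⟩ : H ≃ₜ* f.range).symm
  refine ⟨f.range, hDc, ⟨e⟩, ?_⟩
  rw [eq_bot_iff]
  intro y hy
  have h1 : ∀ k : G, (canon G k)⁻¹ * y * canon G k ∈ f.range := by
    intro k
    obtain ⟨d, hd, hdy⟩ := Subgroup.mem_map.1 (Subgroup.mem_iInf.1 hy k)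
    have h2 : canon G k * d * (canon G k)⁻¹ = y := hdy
    have h3 : (canon G k)⁻¹ * y * canon G k = d := by rw [← h2]; group
    rw [h3]
    exact hd
  have h2 : ∀ x : PCo G, x⁻¹ * y * x ∈ f.range := by
    have hclosed : IsClosed {x : PCo G | x⁻¹ * y * x ∈ f.range} := by
      have hcont : Continuous (fun x : PCo G => x⁻¹ * y * x) := by fun_prop
      exact hDc.preimage hcont
    have hdense : DenseRange (ProfiniteGrp.ProfiniteCompletion.etaFn (GrpCat.of G)) :=
      ProfiniteGrp.ProfiniteCompletion.denseRange (GrpCat.of G)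
    intro x
    have h3 : x ∈ closure (Set.range (ProfiniteGrp.ProfiniteCompletion.etaFn (GrpCat.of G))) :=
      hdense x
    have h4 : closure (Set.range (ProfiniteGrp.ProfiniteCompletion.etaFn (GrpCat.of G))) ⊆
        {x : PCo G | x⁻¹ * y * x ∈ f.range} := by
      apply closure_minimal _ hclosed
      rintro _ ⟨k, rfl⟩
      exact h1 k
    exact h4 h3
  obtain ⟨h, hh⟩ : ∃ h, f h = y := by
    have := h2 1
    rw [inv_one, one_mul, mul_one] at this
    exact this
  have h3 : ∀ n, j h n = 1 := by
    intro n
    have h4 : j h n ∈ Subgroup.center (XA n) := by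
      rw [Subgroup.mem_center_iff]
      intro a
      obtain ⟨h', hh'⟩ := h2 (Φ (Pi.mulSingle n a))
      have h5 : j h' = (Pi.mulSingle n a)⁻¹ * j h * Pi.mulSingle n a := by
        apply hΦi
        rw [map_mul, map_mul, map_inv]
        have h6 : Φ (j h) = y := hh
        rw [h6]
        exact hh'
      have h6 : h' * h⁻¹ = 1 := by
        apply hsing _ n
        intro m hm
        have h7 : j (h' * h⁻¹) m = j h' m * (j h m)⁻¹ := by
          rw [map_mul, map_inv]; rfl
        rw [h7, h5]
        simp only [Pi.mul_apply, Pi.inv_apply, Pi.mulSingle_eq_of_ne hm, inv_one, one_mul, mul_one,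
          mul_inv_cancel]
      have h7 : h' = h := mul_inv_eq_one.1 h6
      rw [h7] at h5
      have h8 := congrFun h5 n
      simp only [Pi.mul_apply, Pi.inv_apply, Pi.mulSingle_eq_same] at h8
      have h9 : a * j h n = a * (a⁻¹ * j h n * a) := by rw [← h8]
      rw [h9]
      group
    rw [XA_center n] at h4
    exact Subgroup.mem_bot.1 h4
  rw [Subgroup.mem_bot, ← hh]
  have h4 : h = 1 := hsing h 0 fun m _ => h3 m
  rw [h4, map_one]

/-- the universal group -/
theorem universal : ∃ (G : Type) (_ : Group G), Group.FG G ∧ TorsionFree G ∧ Amenable G ∧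
    Group.ResiduallyFinite G ∧
    ∀ (H : Type v) [Group H] [TopologicalSpace H] [IsTopologicalGroup H] [CompactSpace H]
      [TotallyDisconnectedSpace H], SecondCountableTopology H →
      IsCoreFreeClosedSubgroupOf H G := by
  let _ : ∀ n, TopologicalSpace (XA n) := fun _ => ⊥
  have : ∀ n, DiscreteTopology (XA n) := fun _ => ⟨rfl⟩
  let P : Par := pars XA
  have hP : P.Good := good XA XA_perf
  let _ : ∀ n, TopologicalSpace (P.X n) := fun _ => ⊥
  have : ∀ n, DiscreteTopology (P.X n) := fun _ => ⟨rfl⟩
  obtain ⟨h1, h2, h3, h4, Φ, h5, h6⟩ := main_good hP XA_center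
  refine ⟨Gp P, inferInstance, h1, ?_, h3.amenable, h4, ?_⟩
  · intro g hg
    obtain ⟨n, hn, hgn⟩ := isOfFinOrder_iff_pow_eq_one.1 hg
    exact h2 g n hn hgn
  · intro H _ _ _ _ _ _
    obtain ⟨j, hj1, hj2, hj3⟩ := exists_emb H
    exact core_free Φ h5 h6 H j hj1 hj2 hj3

end Pool.Agent.PC
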