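import Pool.Agent.Lib_helper83.Prof.Hall

set_option autoImplicit false

/-!
For a finite group `X`, a torsion-free group `Gam X` with an epimorphism onto `X` whose kernel
is a free abelian group of finite rank.
-/

namespace Pool.Agent.PC

/-- disjoint union of the coset spaces `X ⧸ ⟨g⟩` -/
def Om (X : Type) [Group X] : Type := Σ g : X, X ⧸ Subgroup.zpowers g

namespace Om

variable {X : Type} [Group X]

/-- left multiplication on `Om X` -/
def sm (h : X) (ω : Om X) : Om X := ⟨ω.1, h • ω.2⟩

@[simp] theorem sm_fst (h : X) (ω : Om X) : (sm h ω).1 = ω.1 := rfl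

@[simp] theorem sm_one (ω : Om X) : sm 1 ω = ω :=
  Sigma.ext rfl (heq_of_eq (one_smul X ω.2))

theorem sm_sm (h k : X) (ω : Om X) : sm h (sm k ω) = sm (h * k) ω :=
  Sigma.ext rfl (heq_of_eq (mul_smul h k ω.2).symm)

/-- chosen representative -/
noncomputable def rep (ω : Om X) : X := Quotient.out ω.2

theorem mk_rep (ω : Om X) : (QuotientGroup.mk (rep ω) : X ⧸ Subgroup.zpowers ω.1) = ω.2 :=
  Quotient.out_eq ω.2

/-- the representatives of `h C` and of `C` -/
theorem exists_pow (h : X) (ω : Om X) :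
    ∃ n : ℤ, h * rep (sm h⁻¹ ω) = rep ω * ω.1 ^ n := by
  have h1 : (QuotientGroup.mk (h * rep (sm h⁻¹ ω)) : X ⧸ Subgroup.zpowers ω.1)
      = QuotientGroup.mk (rep ω) := by
    rw [mk_rep ω]
    have h2 := mk_rep (sm h⁻¹ ω)
    have h3 : (QuotientGroup.mk (h * rep (sm h⁻¹ ω)) : X ⧸ Subgroup.zpowers ω.1)
      = h • (QuotientGroup.mk (rep (sm h⁻¹ ω)) : X ⧸ Subgroup.zpowers ω.1) := rfl
    rw [h3]
    have h4 : (QuotientGroup.mk (rep (sm h⁻¹ ω)) : X ⧸ Subgroup.zpowers ω.1) = h⁻¹ • ω.2 := h2
    rw [h4, smul_inv_smul]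
  have h5 := (QuotientGroup.eq (s := Subgroup.zpowers ω.1)).1 h1.symm
  obtain ⟨n, hn⟩ := Subgroup.mem_zpowers_iff.1 h5
  exact ⟨n, by rw [hn]; group⟩

instance [Finite X] : Finite (Om X) := by
  unfold Om
  infer_instance

noncomputable instance : DecidableEq (Om X) := Classical.decEq _

end Om

open Om

/-- the action of `X` on `Om X → ℤ` -/
def tact (X : Type) [Group X] : X →* AddMonoid.End (Om X → ℤ) where
  toFun h :=
    { toFun := fun ν ω => ν (sm h⁻¹ ω)
      map_zero' := rfl
      map_add' := fun _ _ => rfl }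
  map_one' := by
    apply AddMonoidHom.ext
    intro ν
    funext ω
    change ν (sm 1⁻¹ ω) = ν ω
    rw [inv_one, sm_one]
  map_mul' h k := by
    apply AddMonoidHom.ext
    intro ν
    funext ω
    change ν (sm (h * k)⁻¹ ω) = ν (sm k⁻¹ (sm h⁻¹ ω))
    rw [mul_inv_rev, sm_sm]

@[simp] theorem tact_apply {X : Type} [Group X] (h : X) (ν : Om X → ℤ) (ω : Om X) :
    tact X h ν ω = ν (sm h⁻¹ ω) := rfl

/-- the torsion-free group over `X` -/
@[ext] structure Gam (X : Type) [Group X] where
  ν : Om X → ℤ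
  h : X
  cond : ∀ ω : Om X, h * rep (sm h⁻¹ ω) = rep ω * ω.1 ^ ν ω

namespace Gam

variable {X : Type} [Group X]

instance : Mul (Gam X) := ⟨fun x y =>
  { ν := x.ν + tact X x.h y.ν
    h := x.h * y.h
    cond := by
      intro ω
      have h1 := x.cond ω
      have h2 := y.cond (sm x.h⁻¹ ω)
      rw [mul_inv_rev, ← sm_sm, mul_assoc, h2, ← mul_assoc, h1, mul_assoc]
      rw [sm_fst, ← zpow_add]
      rfl }⟩

instance : One (Gam X) := ⟨
  { ν := 0
    h := 1
    cond := by
      intro ω
      simp }⟩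

instance : Inv (Gam X) := ⟨fun x =>
  { ν := -(tact X x.h⁻¹ x.ν)
    h := x.h⁻¹
    cond := by
      intro ω
      have h1 := x.cond (sm x.h ω)
      rw [sm_sm, inv_mul_cancel, sm_one, sm_fst] at h1
      simp only [inv_inv, Pi.neg_apply, tact_apply, zpow_neg]
      rw [eq_mul_inv_iff_mul_eq, mul_assoc, ← h1, inv_mul_cancel_left] }⟩

@[simp] theorem mul_ν (x y : Gam X) : (x * y).ν = x.ν + tact X x.h y.ν := rfl
@[simp] theorem mul_h (x y : Gam X) : (x * y).h = x.h * y.h := rfl
@[simp] theorem one_ν : (1 : Gam X).ν = 0 := rfl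
@[simp] theorem one_h : (1 : Gam X).h = 1 := rfl
@[simp] theorem inv_ν (x : Gam X) : (x⁻¹).ν = -(tact X x.h⁻¹ x.ν) := rfl
@[simp] theorem inv_h (x : Gam X) : (x⁻¹).h = x.h⁻¹ := rfl

instance : Group (Gam X) :=
  Group.ofLeftAxioms
    (by
      intro x y z
      ext1
      · simp only [mul_ν, mul_h, map_add, map_mul, AddMonoid.End.coe_mul, Function.comp_apply]
        abel
      · simp [mul_assoc])
    (by
      intro x
      ext1
      · simp [map_one]
      · simp)
    (by
      intro x
      ext1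
      · simp
      · simp)

/-- the projection to `X` -/
def hHom : Gam X →* X where
  toFun := Gam.h
  map_one' := rfl
  map_mul' _ _ := rfl

@[simp] theorem hHom_apply (x : Gam X) : hHom x = x.h := rfl

theorem hHom_surj : Function.Surjective (hHom : Gam X → X) := by
  intro h
  choose n hn using exists_pow (X := X) h
  exact ⟨⟨n, h, hn⟩, rfl⟩

/-- the embedding of the kernel -/
noncomputable def io : Multiplicative (Om X → ℤ) →* Gam X where
  toFun a :=
    { ν := fun ω => (orderOf ω.1 : ℤ) * Multiplicative.toAdd a ω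
      h := 1
      cond := by
        intro ω
        simp [zpow_mul, pow_orderOf_eq_one] }
  map_one' := by
    ext1
    · ext ω
      simp
    · rfl
  map_mul' a b := by
    ext1
    · ext ω
      simp [mul_add]
    · simp

@[simp] theorem io_ν (a : Multiplicative (Om X → ℤ)) (ω : Om X) :
    (io a).ν ω = (orderOf ω.1 : ℤ) * Multiplicative.toAdd a ω := rfl
@[simp] theorem io_h (a : Multiplicative (Om X → ℤ)) : (io a).h = 1 := rfl

theorem ker_io (x : Gam X) (hx : x.h = 1) :
    ∃ a : Om X → ℤ, x = io (Multiplicative.ofAdd a) := by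
  have h1 : ∀ ω : Om X, ∃ k : ℤ, x.ν ω = (orderOf ω.1 : ℤ) * k := by
    intro ω
    have := x.cond ω
    rw [hx, inv_one, sm_one, one_mul] at this
    have h2 : ω.1 ^ x.ν ω = 1 := by
      simpa using this
    exact orderOf_dvd_iff_zpow_eq_one.2 h2
  choose a ha using h1
  refine ⟨a, ?_⟩
  ext1
  · ext ω
    rw [ha ω]
    rfl
  · rw [hx]
    rfl

theorem torsionFree (x : Gam X) (n : ℕ) (hn : 0 < n) (hx : x ^ n = 1) : x = 1 := by
  have h0 : x.h = 1 := by
    let ω : Om X := ⟨x.h, QuotientGroup.mk 1⟩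
    have hω : sm x.h⁻¹ ω = ω := by
      refine Sigma.ext rfl (heq_of_eq ?_)
      change (QuotientGroup.mk (x.h⁻¹ * 1) : X ⧸ Subgroup.zpowers x.h) = QuotientGroup.mk 1
      rw [QuotientGroup.eq]
      simp
    have h1 : ∀ k : ℕ, (x ^ k).ν ω = k * x.ν ω := by
      intro k
      induction k with
      | zero => simp
      | succ k ih =>
        rw [pow_succ', mul_ν, Pi.add_apply, tact_apply, hω, ih]
        push_cast
        ring
    have h2 := h1 n
    rw [hx, one_ν, Pi.zero_apply] at h2
    have h3 : x.ν ω = 0 := by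
      rcases mul_eq_zero.1 h2.symm with h | h
      · exfalso
        have : n = 0 := by exact_mod_cast h
        omega
      · exact h
    have h4 := x.cond ω
    rw [hω, h3, zpow_zero, mul_one] at h4
    simpa using h4
  have h1 : ∀ k : ℕ, (x ^ k).ν = k • x.ν := by
    intro k
    induction k with
    | zero => simp
    | succ k ih =>
      rw [pow_succ', mul_ν, h0, map_one, AddMonoid.End.coe_one, id, ih, succ_nsmul]
      abel
  ext1
  · have h2 := h1 n
    rw [hx, one_ν] at h2
    ext ω
    have h3 := congrFun h2 ω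
    simp only [Pi.zero_apply, Pi.smul_apply, nsmul_eq_mul] at h3
    rcases mul_eq_zero.1 h3.symm with h | h
    · exfalso
      have : n = 0 := by exact_mod_cast h
      omega
    · exact h
  · exact h0

/-- the datum attached to `X` -/
@[reducible] noncomputable def dat (X : Type) [Group X] : Dat where
  T := Om X → ℤ
  Γ := Gam X
  ρ := (tact X).comp hHom
  ι := io
  conj := by
    intro c a
    ext1
    · ext ω
      simp only [mul_ν, mul_h, inv_ν, io_h, mul_one, Pi.add_apply, tact_apply, io_ν, toAdd_ofAdd,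
        Pi.neg_apply, map_neg, sm_fst]
      simp [sm_sm]
    · simp
  ρι := by
    intro a
    simp

theorem dat_ker {X : Type} [Group X] (c : (dat X).Γ) (hc : Gam.h (X := X) c = 1) :
    ∃ a : (dat X).T, c = (dat X).io a := by
  obtain ⟨a, ha⟩ := ker_io (X := X) c hc
  exact ⟨a, ha⟩

theorem dat_torsionFree (X : Type) [Group X] (a : (dat X).T) (n : ℕ) (hn : 0 < n)
    (h : n • a = 0) : a = 0 := by
  change Om X → ℤ at a
  change n • a = 0 at h
  change a = 0
  funext ω
  have := congrFun h ω
  simp only [Pi.smul_apply, nsmul_eq_mul, Pi.zero_apply] at this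
  rcases mul_eq_zero.1 this with h | h
  · exfalso
    have : n = 0 := by exact_mod_cast h
    omega
  · exact h

end Gam

end Pool.Agent.PC
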