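import Pool.Agent.Lib_helper83.Prof.Group

set_option autoImplicit false

/-!
Amenability of the group `Gp P`.
-/

namespace Pool.Agent.PC

open scoped commutatorElement

universe u

theorem Fol.of_comm' {G : Type u} [Group G] (h : ∀ a b : G, a * b = b * a) : Fol G :=
  @Fol.of_comm G { (inferInstance : Group G) with mul_comm := h }

variable (P : Par)

/-- the image of `N` with `X`-components only -/
abbrev Par.V : Type := ∀ n, ZMod (P.m n) → P.X n

variable {P}

/-- the shift on `V` -/
def sv (k : ℤ) : P.V →* P.V where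
  toFun v n p := v n (p - k)
  map_one' := rfl
  map_mul' _ _ := rfl

@[simp] theorem sv_apply (k : ℤ) (v : P.V) (n : ℕ) (p : ZMod (P.m n)) : sv k v n p = v n (p - k) :=
  rfl

theorem sv_sv (k l : ℤ) (v : P.V) : sv k (sv l v) = sv (k + l) v := by
  funext n p
  simp [sub_sub]

theorem sv_zero (v : P.V) : sv 0 v = v := by
  funext n p
  simp

/-- the `X`-components -/
def vbar (x : P.N) : P.V := fun n p => (x n p).c.h

theorem vbar_mul (x y : P.N) : vbar (x * y) = vbar x * vbar y := rfl

theorem vbar_one : vbar (1 : P.N) = 1 := rfl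

theorem vbar_inv (x : P.N) : vbar (x⁻¹) = (vbar x)⁻¹ := rfl

theorem vbar_tau (w : ℤ →₀ ℤ) (k : ℤ) (x : P.N) : vbar (tau P w k x) = sv k (vbar x) := by
  funext n p
  simp only [vbar, tau, H1.up_c, H1.sh_c, sv_apply]
  change 1 * _ = _
  rw [one_mul]

theorem vbar_mul' (a b : GG P) : vbar (a * b).x = vbar a.x * sv a.k (vbar b.x) := by
  rw [GG.mul_x, vbar_mul, vbar_tau]

variable (P) in
/-- the image of `f` -/
def fbar : P.V := fun n p => (P.f n p).h

variable (P) in
/-- the group generated by the shifts of the image of `f` -/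
def LL : Subgroup P.V := Subgroup.closure (Set.range fun k : ℤ => sv k (fbar P))

theorem sv_mem_LL (k : ℤ) (v : P.V) (hv : v ∈ LL P) : sv k v ∈ LL P := by
  unfold LL at hv ⊢
  induction hv using Subgroup.closure_induction with
  | mem x hx =>
    obtain ⟨l, rfl⟩ := hx
    rw [sv_sv]
    exact Subgroup.subset_closure ⟨k + l, rfl⟩
  | one => rw [map_one]; exact Subgroup.one_mem _
  | mul x y _ _ hx hy => rw [map_mul]; exact Subgroup.mul_mem _ hx hy
  | inv x _ hx => rw [map_inv]; exact Subgroup.inv_mem _ hx

theorem vbar_mem (g : GG P) (hg : g ∈ Gp P) : vbar g.x ∈ LL P := by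
  unfold Gp at hg
  induction hg using Subgroup.closure_induction with
  | mem x hx =>
    simp only [Set.mem_insert_iff, Set.mem_singleton_iff] at hx
    rcases hx with rfl | rfl | rfl | rfl
    · exact Subgroup.one_mem _
    · exact Subgroup.one_mem _
    · have : vbar (GG.e P).x = 1 := by
        funext n p
        simp only [vbar, GG.e, GG.ofX_x, Pi.one_apply]
        by_cases hp : p = 0
        · subst hp
          rw [Pi.mulSingle_eq_same]
          rfl
        · rw [Pi.mulSingle_eq_of_ne hp]
          rfl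
      rw [this]
      exact Subgroup.one_mem _
    · have : vbar (GG.f P).x = sv 0 (fbar P) := by
        rw [sv_zero]
        rfl
      rw [this]
      exact Subgroup.subset_closure ⟨0, rfl⟩
  | one => exact Subgroup.one_mem _
  | mul x y _ _ hx hy =>
    rw [vbar_mul']
    exact Subgroup.mul_mem _ hx (sv_mem_LL _ _ hy)
  | inv x _ hx =>
    rw [GG.inv_x, vbar_tau, vbar_inv]
    exact sv_mem_LL _ _ (Subgroup.inv_mem _ hx)

variable (P) in
/-- elements supported on finitely many coordinates -/
def fsup : Subgroup P.V where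
  carrier := {v | ∃ K, ∀ n, K ≤ n → v n = 1}
  one_mem' := ⟨0, fun _ _ => rfl⟩
  mul_mem' := by
    rintro v w ⟨K, hK⟩ ⟨K', hK'⟩
    refine ⟨max K K', fun n hn => ?_⟩
    rw [Pi.mul_apply, hK n (le_of_max_le_left hn), hK' n (le_of_max_le_right hn), one_mul]
  inv_mem' := by
    rintro v ⟨K, hK⟩
    refine ⟨K, fun n hn => ?_⟩
    rw [Pi.inv_apply, hK n hn, inv_one]

instance : (fsup P).Normal where
  conj_mem := by
    rintro v ⟨K, hK⟩ g
    refine ⟨K, fun n hn => ?_⟩
    rw [Pi.mul_apply, Pi.mul_apply, Pi.inv_apply, hK n hn, mul_one, mul_inv_cancel]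

theorem fol_fsup : Fol (fsup P) := by
  classical
  apply Fol.of_finite_subgroups
  intro S
  choose K hK using fun s : fsup P => s.2
  let M : ℕ := S.sup K
  let A : Subgroup (fsup P) :=
    { carrier := {v | ∀ n, M ≤ n → (v : P.V) n = 1}
      one_mem' := fun _ _ => rfl
      mul_mem' := by
        intro v w hv hw n hn
        rw [Subgroup.coe_mul, Pi.mul_apply, hv n hn, hw n hn, one_mul]
      inv_mem' := by
        intro v hv n hn
        rw [Subgroup.coe_inv, Pi.inv_apply, hv n hn, inv_one] }
  refine ⟨A, ?_, ?_⟩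
  · let F : A → (∀ n : Fin M, ZMod (P.m n) → P.X n) := fun v n => (v : fsup P).1 n
    have hF : Function.Injective F := by
      intro v w h
      apply Subtype.ext
      apply Subtype.ext
      funext n
      by_cases hn : n < M
      · exact congrFun h ⟨n, hn⟩
      · rw [v.2 n (not_lt.1 hn), w.2 n (not_lt.1 hn)]
    exact Finite.of_injective F hF
  · intro s hs n hn
    exact hK s n (le_trans (Finset.le_sup hs) hn)

variable (P) in
/-- hypothesis on `f`: distinct shifts have disjoint supports in almost all coordinates -/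
def Par.Sparse : Prop :=
  ∀ k : ℤ, k ≠ 0 → ∃ K : ℕ, ∀ n, K ≤ n → ∀ p : ZMod (P.m n),
    (P.f n p).h = 1 ∨ (P.f n (p - k)).h = 1

theorem fol_LL (hs : P.Sparse) : Fol (LL P) := by
  let Nn : Subgroup (LL P) := (fsup P).subgroupOf (LL P)
  have : Nn.Normal := Subgroup.Normal.subgroupOf inferInstance _
  -- commutators are finitely supported
  have hcomm1 : ∀ k l : ℤ, ⁅sv k (fbar P), sv l (fbar P)⁆ ∈ fsup P := by
    intro k l
    by_cases hkl : k = l
    · subst hkl
      rw [commutatorElement_self]
      exact Subgroup.one_mem _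
    · obtain ⟨K, hK⟩ := hs (l - k) (sub_ne_zero.2 (Ne.symm hkl))
      refine ⟨K, fun n hn => ?_⟩
      funext p
      have h1 := hK n hn (p - k)
      have h2 : p - (k : ZMod (P.m n)) - ((l - k : ℤ) : ZMod (P.m n)) = p - l := by
        push_cast; ring
      rw [h2] at h1
      have h3 : ⁅sv k (fbar P), sv l (fbar P)⁆ n p = ⁅(P.f n (p - k)).h, (P.f n (p - l)).h⁆ := rfl
      rw [h3]
      rcases h1 with h | h
      · rw [h, commutatorElement_one_left]; rfl
      · rw [h, commutatorElement_one_right]; rfl
  have hcomm : ∀ a ∈ LL P, ∀ b ∈ LL P, ⁅a, b⁆ ∈ fsup P := by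
    have key : ∀ a ∈ LL P, ∀ b ∈ LL P,
        QuotientGroup.mk' (fsup P) a * QuotientGroup.mk' (fsup P) b =
        QuotientGroup.mk' (fsup P) b * QuotientGroup.mk' (fsup P) a := by
      intro a ha b hb
      change Commute _ _
      unfold LL at ha hb
      induction ha using Subgroup.closure_induction with
      | mem x hx =>
        induction hb using Subgroup.closure_induction with
        | mem y hy =>
          obtain ⟨k, rfl⟩ := hx
          obtain ⟨l, rfl⟩ := hy
          have := hcomm1 k l
          rw [← QuotientGroup.eq_one_iff] at this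
          have h2 : ⁅QuotientGroup.mk' (fsup P) (sv k (fbar P)),
            QuotientGroup.mk' (fsup P) (sv l (fbar P))⁆ = 1 := by
            rw [← map_commutatorElement]
            exact this
          exact commutatorElement_eq_one_iff_commute.1 h2
        | one => rw [map_one]; exact Commute.one_right _
        | mul y z _ _ hy hz => rw [map_mul]; exact hy.mul_right hz
        | inv y _ hy => rw [map_inv]; exact hy.inv_right
      | one => rw [map_one]; exact Commute.one_left _
      | mul y z _ _ hy hz => rw [map_mul]; exact hy.mul_left hz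
      | inv y _ hy => rw [map_inv]; exact hy.inv_left
    intro a ha b hb
    rw [← QuotientGroup.eq_one_iff]
    have h1 := key a ha b hb
    have h2 := commutatorElement_eq_one_iff_mul_comm.2 h1
    rw [← map_commutatorElement] at h2
    exact h2
  apply Fol.of_extension (QuotientGroup.mk' Nn)
  · apply Fol.of_comm'
    intro a b
    obtain ⟨a, rfl⟩ := QuotientGroup.mk'_surjective Nn a
    obtain ⟨b, rfl⟩ := QuotientGroup.mk'_surjective Nn b
    apply commutatorElement_eq_one_iff_mul_comm.1
    rw [← map_commutatorElement]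
    apply (QuotientGroup.eq_one_iff _).2
    exact hcomm a a.2 b b.2
  · rw [QuotientGroup.ker_mk']
    let F : Nn →* fsup P :=
      { toFun := fun v => ⟨(v : LL P).1, v.2⟩
        map_one' := rfl
        map_mul' := fun _ _ => rfl }
    apply Fol.of_injective F _ fol_fsup
    intro v w h
    apply Subtype.ext
    apply Subtype.ext
    exact congrArg (fun z : fsup P => (z : P.V)) h

theorem Gp_fol (hs : P.Sparse) : Fol (Gp P) := by
  let f1 : Gp P →* Multiplicative ℤ := GG.kHom.comp (Gp P).subtype
  apply Fol.of_extension f1 (Fol.of_comm _)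
  have hk : ∀ g : f1.ker, ((g : Gp P) : GG P).k = 0 := by
    intro g
    have := g.2
    rw [MonoidHom.mem_ker] at this
    exact this
  let f2 : f1.ker →* Multiplicative (ℤ →₀ ℤ) :=
    { toFun := fun g => Multiplicative.ofAdd ((g : Gp P) : GG P).w
      map_one' := rfl
      map_mul' := by
        intro a b
        change Multiplicative.ofAdd (((a : Gp P) : GG P).w + fsh ((a : Gp P) : GG P).k
          ((b : Gp P) : GG P).w) = _
        rw [hk, fsh_zero]
        rfl }
  apply Fol.of_extension f2 (Fol.of_comm _)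
  have hw : ∀ g : f2.ker, (((g : f1.ker) : Gp P) : GG P).w = 0 := by
    intro g
    have := g.2
    rw [MonoidHom.mem_ker] at this
    exact this
  have hmul : ∀ a b : f2.ker, (((a * b : f2.ker) : f1.ker) : Gp P).1.x
      = ((a : f1.ker) : Gp P).1.x * ((b : f1.ker) : Gp P).1.x := by
    intro a b
    change ((a : f1.ker) : Gp P).1.x * tau P ((a : f1.ker) : Gp P).1.w ((a : f1.ker) : Gp P).1.k
      ((b : f1.ker) : Gp P).1.x = _
    rw [hw, hk, tau_zero]
  let f3 : f2.ker →* LL P :=
    { toFun := fun g => ⟨vbar ((g : f1.ker) : Gp P).1.x, vbar_mem _ ((g : f1.ker) : Gp P).2⟩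
      map_one' := rfl
      map_mul' := by
        intro a b
        apply Subtype.ext
        change vbar (((a * b : f2.ker) : f1.ker) : Gp P).1.x = _
        rw [hmul]
        rfl }
  apply Fol.of_extension f3 (fol_LL hs)
  apply Fol.of_comm'
  intro a b
  have hv : ∀ g : f3.ker, ∀ n p, (((((g : f2.ker) : f1.ker) : Gp P).1.x) n p).c.h = 1 := by
    intro g n p
    have := g.2
    rw [MonoidHom.mem_ker] at this
    have := congrArg Subtype.val this
    exact congrFun (congrFun this n) p
  apply Subtype.ext
  apply Subtype.ext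
  apply Subtype.ext
  apply Subtype.ext
  ext1
  · change (((a * b : f3.ker) : f2.ker) : f1.ker).1.1.x = (((b * a : f3.ker) : f2.ker) : f1.ker).1.1.x
    have h1 := hmul (a : f2.ker) (b : f2.ker)
    have h2 := hmul (b : f2.ker) (a : f2.ker)
    refine h1.trans (Eq.trans ?_ h2.symm)
    funext n p
    rw [Pi.mul_apply, Pi.mul_apply, Pi.mul_apply, Pi.mul_apply]
    obtain ⟨α, hα'⟩ := Gam.dat_ker _ (hv a n p)
    obtain ⟨β, hβ'⟩ := Gam.dat_ker _ (hv b n p)
    ext1
    · rw [H1.mul_b, H1.mul_b, hα', hβ']
      have hact : ∀ (γ : (Gam.dat (P.X n)).T) (z : ℤ →₀ (Gam.dat (P.X n)).T),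
          (Gam.dat (P.X n)).act ((Gam.dat (P.X n)).io γ) z = z := by
        intro γ z
        ext1 j
        rw [Dat.act_apply, Dat.rho_io]
        rfl
      rw [hact, hact, add_comm]
    · rw [H1.mul_c, H1.mul_c, hα', hβ', ← Dat.io_add, ← Dat.io_add, add_comm]
  · change ((a : f2.ker) : f1.ker).1.1.w + fsh _ _ = ((b : f2.ker) : f1.ker).1.1.w + fsh _ _
    rw [hk, hk, hw, hw]
  · change ((a : f2.ker) : f1.ker).1.1.k + _ = ((b : f2.ker) : f1.ker).1.1.k + _
    rw [hk, hk]

end Pool.Agent.PC
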