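import Pool.Agent.Lib_helper83.Prof.Gamma
import Pool.Agent.Lib_helper83.Prof.Amen

set_option autoImplicit false

/-!
The ambient group `GG P = (∏ n, (ZMod (m n) → H1 (dat (X n)))) ⋊ ((⊕_ℤ ℤ) ⋊ ℤ)` and its
four-generator subgroup `Gp P`.
-/

namespace Pool.Agent.PC

/-- parameters of the construction -/
structure Par where
  X : ℕ → Type
  [iG : ∀ n, Group (X n)]
  [iF : ∀ n, Finite (X n)]
  m : ℕ → ℕ
  [im : ∀ n, NeZero (m n)]
  φ : ℕ → ℤ → ℤ
  b : ∀ n, ℤ →₀ (Om (X n) → ℤ)
  f : ∀ n, ZMod (m n) → Gam (X n)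

attribute [instance] Par.iG Par.iF Par.im

variable (P : Par)

/-- coordinate group -/
abbrev Par.H (n : ℕ) : Type := H1 (Gam.dat (P.X n))

/-- the normal subgroup of the ambient group -/
abbrev Par.N : Type := ∀ n, ZMod (P.m n) → P.H n

/-- the action of the top group -/
noncomputable def tau (w : ℤ →₀ ℤ) (k : ℤ) (x : P.N) : P.N :=
  fun n p => H1.up (P.φ n) w (H1.sh k (x n (p - k)))

variable {P}

theorem tau_mul (w : ℤ →₀ ℤ) (k : ℤ) (x y : P.N) : tau P w k (x * y) = tau P w k x * tau P w k y := by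
  funext n p
  simp only [tau, Pi.mul_apply, H1.sh_mul, H1.up_mul]

theorem tau_zero (x : P.N) : tau P 0 0 x = x := by
  funext n p
  simp only [tau, Int.cast_zero, sub_zero, H1.sh_zero, H1.up_zero]

theorem tau_tau (w w' : ℤ →₀ ℤ) (k k' : ℤ) (x : P.N) :
    tau P w k (tau P w' k' x) = tau P (w + fsh k w') (k + k') x := by
  funext n p
  simp only [tau, H1.sh_up, H1.up_up, H1.sh_sh, Int.cast_add, sub_sub]

theorem tau_one (w : ℤ →₀ ℤ) (k : ℤ) : tau P w k 1 = 1 := by
  have h : tau P w k 1 * tau P w k 1 = tau P w k 1 := by rw [← tau_mul, one_mul]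
  exact mul_eq_left.1 h

variable (P)

/-- the ambient group -/
@[ext] structure GG where
  x : P.N
  w : ℤ →₀ ℤ
  k : ℤ

namespace GG

variable {P}

noncomputable instance : Mul (GG P) :=
  ⟨fun a b => ⟨a.x * tau P a.w a.k b.x, a.w + fsh a.k b.w, a.k + b.k⟩⟩
noncomputable instance : One (GG P) := ⟨⟨1, 0, 0⟩⟩
noncomputable instance : Inv (GG P) :=
  ⟨fun a => ⟨tau P (-(fsh (-a.k) a.w)) (-a.k) a.x⁻¹, -(fsh (-a.k) a.w), -a.k⟩⟩

@[simp] theorem mul_x (a b : GG P) : (a * b).x = a.x * tau P a.w a.k b.x := rfl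
@[simp] theorem mul_w (a b : GG P) : (a * b).w = a.w + fsh a.k b.w := rfl
@[simp] theorem mul_k (a b : GG P) : (a * b).k = a.k + b.k := rfl
@[simp] theorem one_x : (1 : GG P).x = 1 := rfl
@[simp] theorem one_w : (1 : GG P).w = 0 := rfl
@[simp] theorem one_k : (1 : GG P).k = 0 := rfl
@[simp] theorem inv_x (a : GG P) : (a⁻¹).x = tau P (-(fsh (-a.k) a.w)) (-a.k) a.x⁻¹ := rfl
@[simp] theorem inv_w (a : GG P) : (a⁻¹).w = -(fsh (-a.k) a.w) := rfl
@[simp] theorem inv_k (a : GG P) : (a⁻¹).k = -a.k := rfl

noncomputable instance : Group (GG P) :=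
  Group.ofLeftAxioms
    (by
      intro a b c
      ext1
      · simp only [mul_x, mul_w, mul_k, tau_mul, tau_tau, mul_assoc]
      · simp only [mul_w, mul_k, map_add, fsh_fsh, add_assoc]
      · simp only [mul_k, add_assoc])
    (by
      intro a
      ext1
      · simp only [mul_x, one_x, one_w, one_k, tau_zero, one_mul]
      · simp only [mul_w, one_w, one_k, fsh_zero, zero_add]
      · simp only [mul_k, one_k, zero_add])
    (by
      intro a
      ext1
      · simp only [mul_x, inv_x, inv_w, inv_k, one_x]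
        rw [← tau_mul, inv_mul_cancel, tau_one]
      · simp only [mul_w, inv_w, inv_k, one_w, neg_add_cancel]
      · simp only [mul_k, inv_k, one_k, neg_add_cancel])

/-- the embedding of `N` -/
def ofX : P.N →* GG P where
  toFun x := ⟨x, 0, 0⟩
  map_one' := rfl
  map_mul' x y := by
    ext1
    · simp only [mul_x, tau_zero]
    · simp only [mul_w, fsh_zero, add_zero]
    · simp only [mul_k, add_zero]

@[simp] theorem ofX_x (x : P.N) : (ofX x).x = x := rfl
@[simp] theorem ofX_w (x : P.N) : (ofX x).w = 0 := rfl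
@[simp] theorem ofX_k (x : P.N) : (ofX x).k = 0 := rfl

theorem ofX_injective : Function.Injective (ofX : P.N → GG P) := fun _ _ h => congrArg GG.x h

/-- the `ℤ`-component -/
def kHom : GG P →* Multiplicative ℤ where
  toFun g := Multiplicative.ofAdd g.k
  map_one' := rfl
  map_mul' _ _ := rfl

theorem torsionFree (g : GG P) (n : ℕ) (hn : 0 < n) (hg : g ^ n = 1) : g = 1 := by
  have hk : g.k = 0 := by
    have h1 : ∀ j : ℕ, (g ^ j).k = j * g.k := by
      intro j
      induction j with
      | zero => simp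
      | succ j ih => rw [pow_succ', mul_k, ih]; push_cast; ring
    have h2 := h1 n
    rw [hg, one_k] at h2
    rcases mul_eq_zero.1 h2.symm with h | h
    · exfalso
      have : n = 0 := by exact_mod_cast h
      omega
    · exact h
  have hw : g.w = 0 := by
    have h1 : ∀ j : ℕ, (g ^ j).w = j • g.w := by
      intro j
      induction j with
      | zero => simp
      | succ j ih => rw [pow_succ', mul_w, ih, hk, fsh_zero, succ_nsmul, add_comm]
    have h2 := h1 n
    rw [hg, one_w] at h2
    ext j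
    have h3 := DFunLike.congr_fun h2 j
    simp only [Finsupp.coe_zero, Pi.zero_apply, Finsupp.smul_apply, nsmul_eq_mul] at h3
    rcases mul_eq_zero.1 h3.symm with h | h
    · exfalso
      have : n = 0 := by exact_mod_cast h
      omega
    · exact h
  have hx : ∀ j : ℕ, (g ^ j).x = g.x ^ j := by
    intro j
    induction j with
    | zero => simp
    | succ j ih => rw [pow_succ', mul_x, ih, hk, hw, tau_zero, pow_succ']
  have h2 := hx n
  rw [hg, one_x] at h2
  ext1
  · funext i p
    have h3 := congrFun (congrFun h2 i) p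
    apply H1.torsionFree _ _ (g.x i p) n hn
    · exact h3.symm
    · intro c n hn hc
      exact Gam.torsionFree c n hn hc
    · exact Gam.dat_torsionFree (P.X i)
  · exact hw
  · exact hk

variable (P)

/-- the generator `t` -/
noncomputable def t : GG P := ⟨1, 0, 1⟩

/-- the generator `u` -/
noncomputable def u : GG P := ⟨1, Finsupp.single 0 1, 0⟩

/-- the generator `e` -/
noncomputable def e : GG P := ofX (fun n => Pi.mulSingle 0 (H1.ofB (P.b n)))

/-- the generator `f` -/
noncomputable def f : GG P := ofX (fun n p => H1.ofC (P.f n p))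

end GG

/-- the group we are interested in -/
noncomputable def Gp : Subgroup (GG P) :=
  Subgroup.closure {GG.t P, GG.u P, GG.e P, GG.f P}

theorem Gp_fg : Group.FG (Gp P) := by
  rw [Group.fg_iff_subgroup_fg]
  classical
  exact ⟨{GG.t P, GG.u P, GG.e P, GG.f P}, by simp [Gp]⟩

theorem Gp_torsionFree (g : Gp P) (n : ℕ) (hn : 0 < n) (hg : g ^ n = 1) : g = 1 := by
  apply Subtype.ext
  apply GG.torsionFree (g : GG P) n hn
  have := congrArg (Subgroup.subtype _) hg
  simpa using this

end Pool.Agent.PC
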