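import Mathlib

set_option autoImplicit false

/-!
The groups `H1 D = (⊕_{j∈ℤ} T) ⋊ Γ` together with the shift and the `Hall type` automorphisms
`up φ w`.
-/

namespace Pool.Agent.PC

/-- data: an abelian group `T` with an action of `Γ` and an equivariant map `ι : T → Γ` whose
image acts trivially -/
structure Dat where
  T : Type
  Γ : Type
  [iT : AddCommGroup T]
  [iΓ : Group Γ]
  ρ : Γ →* AddMonoid.End T
  ι : Multiplicative T →* Γ
  conj : ∀ (c : Γ) (a : T), c * ι (Multiplicative.ofAdd a) * c⁻¹ = ι (Multiplicative.ofAdd (ρ c a))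
  ρι : ∀ a : T, ρ (ι (Multiplicative.ofAdd a)) = 1

attribute [instance] Dat.iT Dat.iΓ

namespace Dat

variable (D : Dat)

/-- `ι` in additive notation -/
def io (a : D.T) : D.Γ := D.ι (Multiplicative.ofAdd a)

theorem io_add (a b : D.T) : D.io (a + b) = D.io a * D.io b := by
  simp [io, ofAdd_add]

@[simp] theorem io_zero : D.io 0 = 1 := by simp [io]

theorem io_comm (c : D.Γ) (a : D.T) : c * D.io a = D.io (D.ρ c a) * c := by
  have := D.conj c a
  rw [mul_inv_eq_iff_eq_mul] at this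
  exact this

@[simp] theorem rho_io (a : D.T) : D.ρ (D.io a) = 1 := D.ρι a

/-- action on finitely supported families -/
noncomputable def act (c : D.Γ) : (ℤ →₀ D.T) →+ (ℤ →₀ D.T) :=
  Finsupp.mapRange.addMonoidHom (D.ρ c : D.T →+ D.T)

@[simp] theorem act_apply (c : D.Γ) (b : ℤ →₀ D.T) (j : ℤ) : D.act c b j = D.ρ c (b j) := rfl

@[simp] theorem act_one (b : ℤ →₀ D.T) : D.act 1 b = b := by
  ext j; simp

theorem act_mul (c c' : D.Γ) (b : ℤ →₀ D.T) : D.act (c * c') b = D.act c (D.act c' b) := by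
  ext j; simp [map_mul]

@[simp] theorem act_single (c : D.Γ) (j : ℤ) (a : D.T) :
    D.act c (Finsupp.single j a) = Finsupp.single j (D.ρ c a) := by
  ext k
  rw [act_apply, Finsupp.single_apply, Finsupp.single_apply]
  split_ifs <;> simp

end Dat

/-- `(⊕_{j∈ℤ} T) ⋊ Γ` -/
@[ext] structure H1 (D : Dat) where
  b : ℤ →₀ D.T
  c : D.Γ

namespace H1

variable {D : Dat}

noncomputable instance : Mul (H1 D) := ⟨fun x y => ⟨x.b + D.act x.c y.b, x.c * y.c⟩⟩
noncomputable instance : One (H1 D) := ⟨⟨0, 1⟩⟩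
noncomputable instance : Inv (H1 D) := ⟨fun x => ⟨-(D.act x.c⁻¹ x.b), x.c⁻¹⟩⟩

@[simp] theorem mul_b (x y : H1 D) : (x * y).b = x.b + D.act x.c y.b := rfl
@[simp] theorem mul_c (x y : H1 D) : (x * y).c = x.c * y.c := rfl
@[simp] theorem one_b : (1 : H1 D).b = 0 := rfl
@[simp] theorem one_c : (1 : H1 D).c = 1 := rfl
@[simp] theorem inv_b (x : H1 D) : (x⁻¹).b = -(D.act x.c⁻¹ x.b) := rfl
@[simp] theorem inv_c (x : H1 D) : (x⁻¹).c = x.c⁻¹ := rfl

noncomputable instance : Group (H1 D) :=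
  Group.ofLeftAxioms
    (by
      intro x y z
      ext1
      · simp only [mul_b, mul_c, map_add, D.act_mul]
        abel
      · simp [mul_assoc])
    (by
      intro x
      ext1
      · simp only [mul_b, one_b, one_c, D.act_one, zero_add]
      · simp)
    (by
      intro x
      ext1
      · simp only [mul_b, inv_b, inv_c, one_b, neg_add_cancel]
      · simp)

/-- projection to `Γ` -/
def cHom : H1 D →* D.Γ where
  toFun := H1.c
  map_one' := rfl
  map_mul' _ _ := rfl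

@[simp] theorem cHom_apply (x : H1 D) : cHom x = x.c := rfl

/-- embedding of `Γ` -/
def ofC : D.Γ →* H1 D where
  toFun c := ⟨0, c⟩
  map_one' := rfl
  map_mul' c c' := by
    ext1
    · simp
    · simp

@[simp] theorem ofC_b (c : D.Γ) : (ofC c : H1 D).b = 0 := rfl
@[simp] theorem ofC_c (c : D.Γ) : (ofC c : H1 D).c = c := rfl

/-- the element `(b, 1)` -/
def ofB (b : ℤ →₀ D.T) : H1 D := ⟨b, 1⟩

@[simp] theorem ofB_b (b : ℤ →₀ D.T) : (ofB b : H1 D).b = b := rfl
@[simp] theorem ofB_c (b : ℤ →₀ D.T) : (ofB b : H1 D).c = 1 := rfl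

/-- torsion-freeness -/
theorem torsionFree (hΓ : ∀ c : D.Γ, ∀ n : ℕ, 0 < n → c ^ n = 1 → c = 1)
    (hT : ∀ a : D.T, ∀ n : ℕ, 0 < n → n • a = 0 → a = 0) (x : H1 D) (n : ℕ) (hn : 0 < n)
    (hx : x ^ n = 1) : x = 1 := by
  have hc : x.c = 1 := by
    apply hΓ _ n hn
    have := congrArg (cHom (D := D)) hx
    rwa [map_pow, map_one] at this
  have hb : ∀ k : ℕ, (x ^ k).b = k • x.b := by
    intro k
    induction k with
    | zero => simp
    | succ k ih =>
      rw [pow_succ', mul_b, ih, hc, D.act_one, succ_nsmul]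
      abel
  have hb0 : n • x.b = 0 := by
    rw [← hb n, hx, one_b]
  ext1
  · rw [one_b]
    ext j
    rw [Finsupp.zero_apply]
    apply hT _ n hn
    have := congrArg (fun f => f j) hb0
    simpa using this
  · exact hc

end H1

/-! ### the shift -/

/-- shift of a finitely supported family -/
noncomputable def fsh {M : Type} [AddCommMonoid M] (k : ℤ) : (ℤ →₀ M) →+ (ℤ →₀ M) :=
  Finsupp.mapDomain.addMonoidHom (fun j => j + k)

theorem fsh_apply {M : Type} [AddCommMonoid M] (k : ℤ) (b : ℤ →₀ M) (j : ℤ) :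
    fsh k b j = b (j - k) := by
  have : j = (j - k) + k := by ring
  conv_lhs => rw [this]
  exact Finsupp.mapDomain_apply (add_left_injective k) b (j - k)

theorem fsh_zero {M : Type} [AddCommMonoid M] (b : ℤ →₀ M) : fsh 0 b = b := by
  ext j; simp [fsh_apply]

theorem fsh_fsh {M : Type} [AddCommMonoid M] (k l : ℤ) (b : ℤ →₀ M) :
    fsh k (fsh l b) = fsh (k + l) b := by
  ext j
  rw [fsh_apply, fsh_apply, fsh_apply]
  congr 1
  ring

theorem fsh_single {M : Type} [AddCommMonoid M] (k j : ℤ) (a : M) :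
    fsh k (Finsupp.single j a) = Finsupp.single (j + k) a := by
  simp [fsh]

theorem fsh_act (D : Dat) (k : ℤ) (c : D.Γ) (b : ℤ →₀ D.T) :
    fsh k (D.act c b) = D.act c (fsh k b) := by
  ext j; simp [fsh_apply]

namespace H1

variable {D : Dat}

/-- the shift automorphism -/
noncomputable def sh (k : ℤ) (x : H1 D) : H1 D := ⟨fsh k x.b, x.c⟩

@[simp] theorem sh_b (k : ℤ) (x : H1 D) : (sh k x).b = fsh k x.b := rfl
@[simp] theorem sh_c (k : ℤ) (x : H1 D) : (sh k x).c = x.c := rfl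

theorem sh_mul (k : ℤ) (x y : H1 D) : sh k (x * y) = sh k x * sh k y := by
  ext1
  · simp [fsh_act]
  · simp

theorem sh_zero (x : H1 D) : sh 0 x = x := by
  ext1
  · simp [fsh_zero]
  · simp

theorem sh_sh (k l : ℤ) (x : H1 D) : sh k (sh l x) = sh (k + l) x := by
  ext1
  · simp [fsh_fsh]
  · simp

end H1

/-! ### the pairing -/

/-- `b ↦ ∑_j φ (j - i) b_j` -/
noncomputable def pb (D : Dat) (φ : ℤ → ℤ) (i : ℤ) : (ℤ →₀ D.T) →+ D.T :=
  Finsupp.liftAddHom fun j => (φ (j - i)) • AddMonoidHom.id D.T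

theorem pb_single (D : Dat) (φ : ℤ → ℤ) (i j : ℤ) (a : D.T) :
    pb D φ i (Finsupp.single j a) = φ (j - i) • a := by
  simp [pb]

/-- `(w, b) ↦ ∑_{i,j} w_i φ (j - i) b_j` -/
noncomputable def pair (D : Dat) (φ : ℤ → ℤ) : (ℤ →₀ ℤ) →+ ((ℤ →₀ D.T) →+ D.T) :=
  Finsupp.liftAddHom fun i => (zmultiplesHom _ (pb D φ i))

theorem pair_single (D : Dat) (φ : ℤ → ℤ) (i n : ℤ) :
    pair D φ (Finsupp.single i n) = n • pb D φ i := by
  simp [pair]

theorem pair_single_one (D : Dat) (φ : ℤ → ℤ) (i : ℤ) (b : ℤ →₀ D.T) :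
    pair D φ (Finsupp.single i 1) b = pb D φ i b := by
  rw [pair_single, one_zsmul]

theorem pb_act (D : Dat) (φ : ℤ → ℤ) (i : ℤ) (c : D.Γ) (b : ℤ →₀ D.T) :
    pb D φ i (D.act c b) = D.ρ c (pb D φ i b) := by
  induction b using Finsupp.induction_linear with
  | zero => simp
  | add f g hf hg => simp [hf, hg]
  | single j a => rw [D.act_single, pb_single, pb_single, map_zsmul]

theorem pair_act (D : Dat) (φ : ℤ → ℤ) (w : ℤ →₀ ℤ) (c : D.Γ) (b : ℤ →₀ D.T) :
    pair D φ w (D.act c b) = D.ρ c (pair D φ w b) := by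
  induction w using Finsupp.induction_linear with
  | zero => simp
  | add f g hf hg => simp [hf, hg]
  | single i n =>
    rw [pair_single]
    simp only [AddMonoidHom.coe_smul, Pi.smul_apply]
    rw [pb_act, map_zsmul]

theorem pb_fsh (D : Dat) (φ : ℤ → ℤ) (i k : ℤ) (b : ℤ →₀ D.T) :
    pb D φ (i + k) (fsh k b) = pb D φ i b := by
  induction b using Finsupp.induction_linear with
  | zero => simp
  | add f g hf hg => simp [hf, hg]
  | single j a =>
    rw [fsh_single, pb_single, pb_single]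
    congr 2
    ring

theorem pair_fsh (D : Dat) (φ : ℤ → ℤ) (w : ℤ →₀ ℤ) (k : ℤ) (b : ℤ →₀ D.T) :
    pair D φ (fsh k w) (fsh k b) = pair D φ w b := by
  induction w using Finsupp.induction_linear with
  | zero => simp
  | add f g hf hg => simp [hf, hg]
  | single i n =>
    rw [fsh_single, pair_single, pair_single]
    simp only [AddMonoidHom.coe_smul, Pi.smul_apply]
    rw [pb_fsh]

namespace H1

variable {D : Dat}

/-- Hall type automorphism -/
noncomputable def up (φ : ℤ → ℤ) (w : ℤ →₀ ℤ) (x : H1 D) : H1 D :=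
  ⟨x.b, D.io (pair D φ w x.b) * x.c⟩

@[simp] theorem up_b (φ : ℤ → ℤ) (w : ℤ →₀ ℤ) (x : H1 D) : (up φ w x).b = x.b := rfl
@[simp] theorem up_c (φ : ℤ → ℤ) (w : ℤ →₀ ℤ) (x : H1 D) :
    (up φ w x).c = D.io (pair D φ w x.b) * x.c := rfl

theorem act_up (φ : ℤ → ℤ) (w : ℤ →₀ ℤ) (x : H1 D) (b : ℤ →₀ D.T) :
    D.act (up φ w x).c b = D.act x.c b := by
  ext j
  simp

theorem up_mul (φ : ℤ → ℤ) (w : ℤ →₀ ℤ) (x y : H1 D) :
    up φ w (x * y) = up φ w x * up φ w y := by
  ext1
  · rw [up_b, mul_b, mul_b, act_up, up_b, up_b]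
  · rw [up_c, mul_c, mul_b, mul_c, up_c, up_c, map_add, pair_act, D.io_add]
    have := D.io_comm x.c (pair D φ w y.b)
    rw [mul_assoc, mul_assoc]
    congr 1
    rw [← mul_assoc, ← this, mul_assoc]

theorem up_zero (φ : ℤ → ℤ) (x : H1 D) : up φ 0 x = x := by
  ext1
  · simp
  · simp

theorem up_up (φ : ℤ → ℤ) (w w' : ℤ →₀ ℤ) (x : H1 D) :
    up φ w (up φ w' x) = up φ (w + w') x := by
  ext1
  · simp
  · simp [D.io_add, mul_assoc]

theorem sh_up (φ : ℤ → ℤ) (w : ℤ →₀ ℤ) (k : ℤ) (x : H1 D) :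
    sh k (up φ w x) = up φ (fsh k w) (sh k x) := by
  ext1
  · simp
  · simp [pair_fsh]

end H1

end Pool.Agent.PC
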