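import Pool.Agent.Lib_helper83.Prof.FinQ

set_option autoImplicit false

/-!
Residual finiteness of the ambient group.
-/

namespace Pool.Agent.PC

variable {P : Par}

theorem zmod_intCast_ne_zero {M : ℕ} {a : ℤ} (ha : a ≠ 0) (h : a.natAbs < M) :
    (a : ZMod M) ≠ 0 := by
  intro h0
  rw [ZMod.intCast_zmod_eq_zero_iff_dvd] at h0
  have := Int.natAbs_dvd_natAbs.2 h0
  rw [Int.natAbs_natCast] at this
  have h1 := Nat.le_of_dvd (Int.natAbs_pos.2 ha) this
  omega

theorem fold_apply (A : Type) (M r : ℕ) (b : ℤ →₀ (A → ℤ)) (j : ZMod M) (ω : A) :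
    fold A M r b j ω = ∑ i ∈ b.support, if (i : ZMod M) = j then (b i ω : ZMod r) else 0 := by
  classical
  unfold fold
  rw [Finsupp.liftAddHom_apply, Finsupp.sum, Finset.sum_apply, Finset.sum_apply]
  apply Finset.sum_congr rfl
  intro i _
  simp only [AddMonoidHom.coe_comp, Function.comp_apply, AddMonoidHom.single_apply]
  by_cases h : (i : ZMod M) = j
  · subst h
    rw [if_pos rfl, Pi.single_eq_same]
    rfl
  · rw [if_neg h, Pi.single_eq_of_ne (Ne.symm h)]
    rfl

theorem foldZ_apply (M r : ℕ) (b : ℤ →₀ ℤ) (j : ZMod M) :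
    foldZ M r b j = ∑ i ∈ b.support, if (i : ZMod M) = j then (b i : ZMod r) else 0 := by
  classical
  unfold foldZ
  rw [Finsupp.liftAddHom_apply, Finsupp.sum, Finset.sum_apply]
  apply Finset.sum_congr rfl
  intro i _
  simp only [AddMonoidHom.coe_comp, Function.comp_apply, AddMonoidHom.single_apply]
  by_cases h : (i : ZMod M) = j
  · subst h
    rw [if_pos rfl, Pi.single_eq_same]
    rfl
  · rw [if_neg h, Pi.single_eq_of_ne (Ne.symm h)]

theorem fold_detect (A : Type) (b : ℤ →₀ (A → ℤ)) (hb : b ≠ 0) :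
    ∃ B : ℕ, ∀ M r : ℕ, B < M → B < r → fold A M r b ≠ 0 := by
  classical
  obtain ⟨j, hj⟩ := Finsupp.ne_iff.1 hb
  obtain ⟨ω, hω⟩ := Function.ne_iff.1 hj
  simp only [Finsupp.coe_zero, Pi.zero_apply] at hω
  refine ⟨(b j ω).natAbs + b.support.sup (fun i => (i - j).natAbs), ?_⟩
  intro M r hM hr h0
  have h1 := congrFun (congrFun h0 (j : ZMod M)) ω
  rw [fold_apply, Finset.sum_eq_single j] at h1
  · rw [if_pos rfl] at h1
    exact zmod_intCast_ne_zero hω (by omega) h1
  · intro i hi hij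
    rw [if_neg]
    intro h
    have h2 : ((i - j : ℤ) : ZMod M) = 0 := by
      push_cast
      rw [h, sub_self]
    have h3 : (i - j).natAbs ≤ b.support.sup (fun i => (i - j).natAbs) :=
      Finset.le_sup (f := fun i : ℤ => (i - j).natAbs) hi
    exact zmod_intCast_ne_zero (sub_ne_zero.2 hij) (by omega) h2
  · intro hj0
    exfalso
    rw [Finsupp.notMem_support_iff] at hj0
    exact hω (by rw [hj0]; rfl)

theorem foldZ_detect (b : ℤ →₀ ℤ) (hb : b ≠ 0) :
    ∃ B : ℕ, ∀ M r : ℕ, B < M → B < r → foldZ M r b ≠ 0 := by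
  classical
  obtain ⟨j, hω⟩ := Finsupp.ne_iff.1 hb
  simp only [Finsupp.coe_zero, Pi.zero_apply] at hω
  refine ⟨(b j).natAbs + b.support.sup (fun i => (i - j).natAbs), ?_⟩
  intro M r hM hr h0
  have h1 := congrFun h0 (j : ZMod M)
  rw [foldZ_apply, Finset.sum_eq_single j] at h1
  · rw [if_pos rfl] at h1
    exact zmod_intCast_ne_zero hω (by omega) h1
  · intro i hi hij
    rw [if_neg]
    intro h
    have h2 : ((i - j : ℤ) : ZMod M) = 0 := by
      push_cast
      rw [h, sub_self]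
    have h3 : (i - j).natAbs ≤ b.support.sup (fun i => (i - j).natAbs) :=
      Finset.le_sup (f := fun i : ℤ => (i - j).natAbs) hi
    exact zmod_intCast_ne_zero (sub_ne_zero.2 hij) (by omega) h2
  · intro hj0
    exfalso
    rw [Finsupp.notMem_support_iff] at hj0
    exact hω hj0

theorem Phi_one (n M r : ℕ) : Phi P n M r 1 = (fun _ => (0, 0, 1), 0, 0) := by
  refine Prod.ext ?_ (Prod.ext ?_ ?_)
  · funext p
    refine Prod.ext ?_ (Prod.ext ?_ ?_)
    · exact map_zero _
    · funext ω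
      change (((0 : ℤ)) : ZMod r) = 0
      simp
    · rfl
  · exact map_zero _
  · change ((0 : ℤ) : ZMod M) = 0
    simp

theorem GG_detect (g : GG P) (hg : g ≠ 1) :
    ∃ n B : ℕ, ∀ M r : ℕ, B < M → B < r → Phi P n M r g ≠ Phi P n M r 1 := by
  by_cases hk : g.k = 0
  · by_cases hw : g.w = 0
    · have hx : g.x ≠ 1 := by
        intro h
        apply hg
        ext1
        · exact h
        · exact hw
        · exact hk
      obtain ⟨n, hn⟩ := Function.ne_iff.1 hx
      obtain ⟨p, hp⟩ := Function.ne_iff.1 hn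
      refine ⟨n, ?_⟩
      by_cases hb : (g.x n p).b = 0
      · have hc : (g.x n p).c ≠ 1 := by
          intro h
          apply hp
          ext1
          · exact hb
          · exact h
        by_cases hh : (g.x n p).c.h = 1
        · have hν : (g.x n p).c.ν ≠ 0 := by
            intro h
            apply hc
            exact Gam.ext h hh
          obtain ⟨ω, hω⟩ := Function.ne_iff.1 hν
          refine ⟨((g.x n p).c.ν ω).natAbs, fun M r _ hr h => ?_⟩
          rw [Phi_one] at h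
          have h1 := congrFun (Prod.ext_iff.1 h).1 p
          have h2 := congrFun (Prod.ext_iff.1 (Prod.ext_iff.1 h1).2).1 ω
          exact zmod_intCast_ne_zero hω hr h2
        · refine ⟨0, fun M r _ _ h => ?_⟩
          rw [Phi_one] at h
          have h1 := congrFun (Prod.ext_iff.1 h).1 p
          exact hh (Prod.ext_iff.1 (Prod.ext_iff.1 h1).2).2
      · obtain ⟨B, hB⟩ := fold_detect (Om (P.X n)) (g.x n p).b hb
        refine ⟨B, fun M r hM hr h => ?_⟩
        rw [Phi_one] at h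
        have h1 := congrFun (Prod.ext_iff.1 h).1 p
        exact hB M r hM hr (Prod.ext_iff.1 h1).1
    · obtain ⟨B, hB⟩ := foldZ_detect g.w hw
      refine ⟨0, B, fun M r hM hr h => ?_⟩
      rw [Phi_one] at h
      exact hB M r hM hr (Prod.ext_iff.1 (Prod.ext_iff.1 h).2).1
  · refine ⟨0, g.k.natAbs, fun M r hM _ h => ?_⟩
    rw [Phi_one] at h
    exact zmod_intCast_ne_zero hk hM (Prod.ext_iff.1 (Prod.ext_iff.1 h).2).2

variable (P) in
/-- periodicity of the functions `φ n` modulo powers of an integer `q > 1` -/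
def Par.Per : Prop :=
  ∀ n, ∃ q : ℕ, 1 < q ∧ ∀ (s : ℕ) (k : ℤ), ((q ^ s : ℕ) : ℤ) ∣ P.φ n (k + (q ^ s : ℕ)) - P.φ n k

theorem exists_psi {φ : ℤ → ℤ} {r M : ℕ} (h : ∀ k : ℤ, (r : ℤ) ∣ φ (k + r) - φ k)
    (hM : r ∣ M) : ∃ ψ : ZMod M → ZMod r, ∀ k : ℤ, (φ k : ZMod r) = ψ (k : ZMod M) := by
  have h1 : ∀ k : ℤ, (φ (k + r) : ZMod r) = φ k := by
    intro k
    have := (ZMod.intCast_zmod_eq_zero_iff_dvd _ _).2 (h k)
    push_cast at this
    exact sub_eq_zero.1 this
  have h2 : ∀ (t : ℕ) (k : ℤ), (φ (k + t * r) : ZMod r) = φ k := by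
    intro t
    induction t with
    | zero => intro k; simp
    | succ t ih =>
      intro k
      have : k + ((t + 1 : ℕ) : ℤ) * r = (k + t * r) + r := by push_cast; ring
      rw [this, h1, ih]
  have h3 : ∀ (t : ℤ) (k : ℤ), (φ (k + t * r) : ZMod r) = φ k := by
    intro t k
    obtain ⟨u, rfl | rfl⟩ := t.eq_nat_or_neg
    · exact h2 u k
    · have := h2 u (k + -(u : ℤ) * r)
      rw [← this]
      congr 2
      ring
  refine ⟨fun j => (φ (j.cast : ℤ) : ZMod r), fun k => ?_⟩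
  obtain ⟨c, rfl⟩ := hM
  have h4 : ((((k : ZMod (r * c)).cast : ℤ)) : ZMod (r * c)) = (k : ZMod (r * c)) := by
    simp
  rw [ZMod.intCast_eq_intCast_iff_dvd_sub] at h4
  obtain ⟨t, ht⟩ := h4
  have h5 : k = ((k : ZMod (r * c)).cast : ℤ) + (c * t) * r := by
    push_cast at ht
    linear_combination ht
  conv_lhs => rw [h5]
  exact h3 _ _

theorem GG_rf (hP : P.Per) (g : GG P) (hg : g ≠ 1) :
    ∃ K : Subgroup (GG P), K.Normal ∧ K.FiniteIndex ∧ g ∉ K := by
  obtain ⟨n, B, hB⟩ := GG_detect g hg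
  obtain ⟨q, hq, hφ⟩ := hP n
  obtain ⟨s, hs⟩ : ∃ s, B < q ^ s := ⟨B, Nat.lt_pow_self hq⟩
  have hm : 0 < P.m n := Nat.pos_of_ne_zero (NeZero.ne _)
  have hq0 : 0 < q ^ s := by omega
  have : NeZero (q ^ s) := ⟨by omega⟩
  have : NeZero (P.m n * q ^ s) := ⟨(Nat.mul_pos hm hq0).ne'⟩
  obtain ⟨ψ, hψ⟩ := exists_psi (hφ s) (Dvd.intro_left (P.m n) rfl)
  obtain ⟨K, hK1, hK2, hK3⟩ := exists_quot (P := P) (n := n) (Dvd.intro (q ^ s) rfl) ψ hψ
  refine ⟨K, hK1, hK2, ?_⟩
  rw [hK3]
  apply hB _ _ _ hs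
  calc B < q ^ s := hs
    _ ≤ P.m n * q ^ s := Nat.le_mul_of_pos_left _ hm

end Pool.Agent.PC
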