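import Pool.Agent.Lib_helper83.Prof.Sig
import Pool.Agent.Lib_helper83.Prof.GpAmen
import Pool.Agent.Lib_helper83.Prof.RF

set_option autoImplicit false

/-!
Elements of `Gp P` supported at a single coordinate and a single position.
-/

namespace Pool.Agent.PC

open scoped commutatorElement

/-- the hypotheses on the parameters -/
structure Par.Good (P : Par) where
  q : ℕ → ℕ
  one_lt : ∀ n, 1 < q n
  cop : ∀ n, Nat.Coprime (q n) (Nat.card (P.X n))
  per : ∀ (n s : ℕ) (k : ℤ), ((q n ^ s : ℕ) : ℤ) ∣ P.φ n (k + (q n ^ s : ℕ)) - P.φ n k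
  enc : ∀ n, Om (P.X n) → ℤ
  hb : ∀ n, P.b n = ∑ ω, Finsupp.single (enc n ω) (Pi.single ω 1)
  phi_zero : ∀ n, P.φ n 0 = 0
  phi_one : ∀ n ω, P.φ n (enc n ω) = 1
  phi_two : ∀ n ω ω', ω ≠ ω' → P.φ n (enc n ω - enc n ω') = 1
  phi_three : ∀ (n M : ℕ), 0 < M → ∃ (M' : ℤ) (s : ℕ), (M : ℤ) ∣ M' ∧
    P.φ n (-M') = (q n ^ s : ℕ) ∧ ∀ ω ω', ω ≠ ω' → P.φ n (enc n ω - (enc n ω' + M')) = 1
  sparse : P.Sparse
  iso : ∀ (n : ℕ) (x x' : P.X n), ∃ k k' : ℤ,
    (∀ p : ZMod (P.m n), ⁅P.f n (p - k), P.f n (p - k')⁆ =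
      (Pi.mulSingle 0 ⁅Gam.lift x, Gam.lift x'⁆ : ZMod (P.m n) → Gam (P.X n)) p) ∧
    ∀ l, l ≠ n → ∀ p : ZMod (P.m l), ⁅P.f l (p - k), P.f l (p - k')⁆ = 1
  perf : ∀ n, commutator (P.X n) = ⊤

variable {P : Par}

/-- the embedding of a coordinate group at position zero -/
noncomputable def emb (n : ℕ) : P.H n →* P.N :=
  (MonoidHom.mulSingle (fun n => ZMod (P.m n) → P.H n) n).comp
    (MonoidHom.mulSingle (fun _ : ZMod (P.m n) => P.H n) 0)

theorem emb_apply (n : ℕ) (y : P.H n) : emb n y = Pi.mulSingle n (Pi.mulSingle 0 y) := rfl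

theorem emb_same (n : ℕ) (y : P.H n) : emb n y n 0 = y := by
  rw [emb_apply, Pi.mulSingle_eq_same, Pi.mulSingle_eq_same]

theorem emb_ne_pos (n : ℕ) (y : P.H n) (p : ZMod (P.m n)) (hp : p ≠ 0) : emb n y n p = 1 := by
  rw [emb_apply, Pi.mulSingle_eq_same, Pi.mulSingle_eq_of_ne hp]

theorem emb_ne (n l : ℕ) (h : l ≠ n) (y : P.H n) : emb n y l = 1 := by
  rw [emb_apply, Pi.mulSingle_eq_of_ne h]

/-- two elements of `N` agreeing at coordinate `n`, position `0` and trivial elsewhere -/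
theorem eq_emb (n : ℕ) (y : P.H n) (x : P.N) (h0 : x n 0 = y) (hp : ∀ p, p ≠ 0 → x n p = 1)
    (hl : ∀ l, l ≠ n → ∀ p, x l p = 1) : x = emb n y := by
  funext l p
  by_cases h : l = n
  · subst h
    by_cases h' : p = 0
    · subst h'
      rw [h0, emb_same]
    · rw [hp p h', emb_ne_pos _ _ _ h']
  · rw [hl l h, emb_ne n l h]
    rfl

theorem emb_comm (n : ℕ) (y : P.H n) (x : P.N) : ⁅emb n y, x⁆ = emb n ⁅y, x n 0⁆ := by
  apply eq_emb
  · change ⁅emb n y n 0, x n 0⁆ = _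
    rw [emb_same]
  · intro p hp
    change ⁅emb n y n p, x n p⁆ = _
    rw [emb_ne_pos _ _ _ hp, commutatorElement_one_left]
  · intro l hl p
    change ⁅emb n y l p, x l p⁆ = _
    rw [emb_ne n l hl, Pi.one_apply, commutatorElement_one_left]

theorem emb_commute (n m : ℕ) (h : n ≠ m) (y : P.H n) (z : P.H m) :
    Commute (emb n y) (emb m z) := by
  rw [← commutatorElement_eq_one_iff_commute, emb_comm, emb_ne m n h, Pi.one_apply,
    commutatorElement_one_right, map_one]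

namespace H1

variable {D : Dat}

theorem up_one (φ : ℤ → ℤ) (w : ℤ →₀ ℤ) : up φ w (1 : H1 D) = 1 := by
  have h : up φ w (1 : H1 D) * up φ w 1 = up φ w 1 := by rw [← up_mul, one_mul]
  exact mul_eq_left.1 h

theorem comm_ofC_ofB (γ : D.Γ) (b : ℤ →₀ D.T) :
    ⁅(ofC γ : H1 D), ofB b⁆ = ofB (D.act γ b - b) := by
  rw [commutatorElement_def]
  have h : D.act (γ * 1 * γ⁻¹ * 1⁻¹) b = b := by
    rw [mul_one, mul_inv_cancel, inv_one, one_mul, D.act_one]
  ext1
  · simp only [mul_b, mul_c, ofC_b, ofC_c, ofB_b, ofB_c, inv_b, inv_c, map_neg, map_zero]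
    rw [← D.act_mul]
    have h2 : γ * 1 * γ⁻¹ * 1⁻¹ = 1 := by group
    rw [h2, D.act_one]
    abel
  · simp only [mul_c, ofC_c, ofB_c, inv_c]
    group

theorem up_ofB (φ : ℤ → ℤ) (w : ℤ →₀ ℤ) (c : ℤ →₀ D.T) :
    up φ w (ofB c) * (ofB c)⁻¹ = ofC (D.io (pair D φ w c)) := by
  ext1
  · simp only [mul_b, up_b, up_c, ofB_b, ofB_c, inv_b, ofC_b, inv_one, D.act_one, mul_one, map_neg]
    have : D.act (D.io (pair D φ w c)) c = c := by
      ext1 j
      rw [Dat.act_apply, Dat.rho_io]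
      rfl
    rw [this, add_neg_cancel]
  · simp only [mul_c, up_c, ofB_b, ofB_c, inv_c, ofC_c, inv_one, mul_one]

end H1

namespace GG

/-- powers of `t` -/
noncomputable def Tk : Multiplicative ℤ →* GG P where
  toFun k := ⟨1, 0, Multiplicative.toAdd k⟩
  map_one' := rfl
  map_mul' a b := by
    ext1
    · simp only [mul_x, tau_one, mul_one]
    · simp only [mul_w, map_zero, add_zero]
    · simp only [mul_k, toAdd_mul]

/-- products of powers of conjugates of `u` -/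
noncomputable def Uv : Multiplicative (ℤ →₀ ℤ) →* GG P where
  toFun v := ⟨1, Multiplicative.toAdd v, 0⟩
  map_one' := rfl
  map_mul' a b := by
    ext1
    · simp only [mul_x, tau_one, mul_one]
    · simp only [mul_w, fsh_zero, toAdd_mul]
    · simp only [mul_k, add_zero]

/-- powers of `t` -/
noncomputable abbrev T (k : ℤ) : GG P := Tk (Multiplicative.ofAdd k)

/-- products of powers of conjugates of `u` -/
noncomputable abbrev U (v : ℤ →₀ ℤ) : GG P := Uv (Multiplicative.ofAdd v)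

@[simp] theorem T_x (k : ℤ) : (T k : GG P).x = 1 := rfl
@[simp] theorem T_w (k : ℤ) : (T k : GG P).w = 0 := rfl
@[simp] theorem T_k (k : ℤ) : (T k : GG P).k = k := rfl
@[simp] theorem U_x (v : ℤ →₀ ℤ) : (U v : GG P).x = 1 := rfl
@[simp] theorem U_w (v : ℤ →₀ ℤ) : (U v : GG P).w = v := rfl
@[simp] theorem U_k (v : ℤ →₀ ℤ) : (U v : GG P).k = 0 := rfl

theorem T_neg (k : ℤ) : (T k : GG P)⁻¹ = T (-k) := by
  change (Tk _)⁻¹ = Tk _
  rw [← map_inv]; rfl

theorem T_mem (k : ℤ) : (T k : GG P) ∈ Gp P := by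
  have h1 : (T 1 : GG P) ∈ Gp P := Subgroup.subset_closure (by simp; left; rfl)
  have h2 : (T k : GG P) = T 1 ^ k := by
    change Tk _ = (Tk _) ^ k
    rw [← map_zpow, ← ofAdd_zsmul, smul_eq_mul, mul_one]
  rw [h2]
  exact (Gp P).zpow_mem h1 k

theorem conj_T_U (k : ℤ) (v : ℤ →₀ ℤ) : (T k : GG P) * U v * (T k)⁻¹ = U (fsh k v) := by
  rw [T_neg]
  ext1
  · simp only [mul_x, T_x, U_x, tau_one, mul_one]
  · simp only [mul_w, T_w, U_w, map_zero, add_zero, zero_add, T_k]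
  · simp only [mul_k, T_k, U_k]; ring

theorem U_mem (v : ℤ →₀ ℤ) : (U v : GG P) ∈ Gp P := by
  induction v using Finsupp.induction_linear with
  | zero =>
    have : (U 0 : GG P) = 1 := rfl
    rw [this]; exact Subgroup.one_mem _
  | add f g hf hg =>
    have : (U (f + g) : GG P) = U f * U g := by
      change Uv _ = Uv _ * Uv _
      rw [← map_mul]; rfl
    rw [this]; exact Subgroup.mul_mem _ hf hg
  | single i n =>
    have h0 : (U (Finsupp.single 0 1) : GG P) ∈ Gp P :=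
      Subgroup.subset_closure (by
        simp only [Set.mem_insert_iff, Set.mem_singleton_iff]
        right; left; rfl)
    have h1 : (U (Finsupp.single i 1) : GG P) ∈ Gp P := by
      have h2 := conj_T_U (P := P) i (Finsupp.single 0 1)
      rw [fsh_single, zero_add] at h2
      rw [← h2]
      exact Subgroup.mul_mem _ (Subgroup.mul_mem _ (T_mem i) h0) (Subgroup.inv_mem _ (T_mem i))
    have h2 : (U (Finsupp.single i n) : GG P) = U (Finsupp.single i 1) ^ n := by
      change Uv _ = (Uv _) ^ n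
      rw [← map_zpow, ← ofAdd_zsmul, Finsupp.smul_single, smul_eq_mul, mul_one]
    rw [h2]
    exact Subgroup.zpow_mem _ h1 n

theorem conj_T_ofX (k : ℤ) (x : P.N) : (T k : GG P) * ofX x * (T k)⁻¹ = ofX (tau P 0 k x) := by
  rw [T_neg]
  ext1
  · simp only [mul_x, T_x, T_w, T_k, one_mul, ofX_x, tau_one, mul_one]
  · simp only [mul_w, T_w, ofX_w, map_zero, add_zero]
  · simp only [mul_k, T_k, ofX_k]; ring

theorem comm_U_ofX (v : ℤ →₀ ℤ) (x : P.N) : ⁅(U v : GG P), ofX x⁆ = ofX (tau P v 0 x * x⁻¹) := by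
  have h1 : (U v : GG P)⁻¹ = U (-v) := by
    change (Uv _)⁻¹ = Uv _
    rw [← map_inv]; rfl
  have h2 : (ofX x : GG P)⁻¹ = ofX x⁻¹ := by rw [map_inv]
  rw [commutatorElement_def, h1, h2]
  ext1
  · simp only [mul_x, mul_w, mul_k, U_x, U_w, U_k, ofX_x, ofX_w, ofX_k, one_mul, tau_one, mul_one,
      map_zero, add_zero, fsh_zero, add_neg_cancel, tau_zero]
  · simp only [mul_w, mul_k, U_w, U_k, ofX_w, ofX_k, map_zero, add_zero, fsh_zero, add_neg_cancel]
  · simp only [mul_k, U_k, ofX_k, add_zero]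

end GG

theorem tau_emb (v : ℤ →₀ ℤ) (n : ℕ) (y : P.H n) :
    tau P v 0 (emb n y) = emb n (H1.up (P.φ n) v y) := by
  apply eq_emb
  · simp only [tau, Int.cast_zero, sub_zero, H1.sh_zero, emb_same]
  · intro p hp
    simp only [tau, Int.cast_zero, sub_zero, H1.sh_zero, emb_ne_pos _ _ _ hp, H1.up_one]
  · intro l hl p
    simp only [tau, Int.cast_zero, sub_zero, H1.sh_zero, emb_ne n l hl, Pi.one_apply, H1.up_one]

/-- the embedding of `Gam (X n)` into the coordinate group -/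
noncomputable def ofG (n : ℕ) : Gam (P.X n) →* P.H n := H1.ofC (D := Gam.dat (P.X n))

/-- the elements of `Gam (X n)` placed at coordinate `n`, position `0` -/
noncomputable def psi0 (n : ℕ) : Gam (P.X n) →* GG P :=
  GG.ofX.comp ((emb n).comp (ofG n))

theorem psi0_apply (n : ℕ) (γ : Gam (P.X n)) : psi0 n γ = GG.ofX (emb n (ofG n γ)) := rfl

variable (P) in
/-- the elements of `Gam (X n)` whose isolated copies are in `Gp P` -/
noncomputable def WW (n : ℕ) : Subgroup (Gam (P.X n)) := (Gp P).comap (psi0 n)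

theorem mem_WW (n : ℕ) (γ : Gam (P.X n)) : γ ∈ WW P n ↔ psi0 n γ ∈ Gp P := Iff.rfl

theorem tau_f (k : ℤ) : tau P 0 k (GG.f P).x = fun n p => ofG n (P.f n (p - k)) := by
  funext n p
  simp only [tau, GG.f, GG.ofX_x, H1.up_zero]
  ext1
  · change fsh k 0 = 0
    exact map_zero _
  · rfl

theorem Wc_le_WW (hP : P.Good) (n : ℕ) : Gam.Wc (P.X n) ≤ WW P n := by
  unfold Gam.Wc
  rw [Subgroup.closure_le]
  rintro _ ⟨x, x', rfl⟩
  rw [SetLike.mem_coe, mem_WW]
  obtain ⟨k, k', h1, h2⟩ := hP.iso n x x'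
  have hf : GG.f P ∈ Gp P := Subgroup.subset_closure (by simp)
  have hfx : GG.f P = GG.ofX (GG.f P).x := rfl
  have hmem : ∀ k, GG.ofX (tau P 0 k (GG.f P).x) ∈ Gp P := by
    intro k
    rw [← GG.conj_T_ofX, ← hfx]
    exact Subgroup.mul_mem _ (Subgroup.mul_mem _ (GG.T_mem k) hf)
      (Subgroup.inv_mem _ (GG.T_mem k))
  have h3 : psi0 n ⁅Gam.lift x, Gam.lift x'⁆ =
      ⁅GG.ofX (tau P 0 k (GG.f P).x), GG.ofX (tau P 0 k' (GG.f P).x)⁆ := by
    rw [← map_commutatorElement, psi0_apply]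
    congr 1
    symm
    rw [tau_f, tau_f]
    have h4 : ∀ l (p : ZMod (P.m l)),
        (⁅(fun n p => ofG n (P.f n (p - k)) : P.N), (fun n p => ofG n (P.f n (p - k')) : P.N)⁆ : P.N)
          l p = ofG l ⁅P.f l (p - k), P.f l (p - k')⁆ := by
      intro l p
      exact (map_commutatorElement (ofG l) (P.f l (p - k)) (P.f l (p - k'))).symm
    apply eq_emb
    · rw [h4, h1, Pi.mulSingle_eq_same]
    · intro p hp
      rw [h4, h1, Pi.mulSingle_eq_of_ne hp]
      exact map_one _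
    · intro l hl p
      rw [h4, h2 l hl]
      exact map_one _
  rw [h3, commutatorElement_def]
  exact Subgroup.mul_mem _ (Subgroup.mul_mem _ (Subgroup.mul_mem _ (hmem k) (hmem k'))
    (Subgroup.inv_mem _ (hmem k))) (Subgroup.inv_mem _ (hmem k'))

end Pool.Agent.PC
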