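import Pool.Agent.Lib_helper83.Prof.Gamma

set_option autoImplicit false

/-!
Orbit sums on `Gam X`, and the subgroups of `divisible` elements.
-/

namespace Pool.Agent.PC

open scoped commutatorElement
open Om

variable {X : Type} [Group X] [Finite X]

noncomputable instance (g : X) : Fintype (X ⧸ Subgroup.zpowers g) := Fintype.ofFinite _

noncomputable instance : Fintype (Om X) :=
  letI : Fintype X := Fintype.ofFinite X
  inferInstanceAs (Fintype (Σ g : X, X ⧸ Subgroup.zpowers g))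

/-- orbit sums -/
noncomputable def os : (Om X → ℤ) →+ (X → ℤ) where
  toFun a g := ∑ C : X ⧸ Subgroup.zpowers g, a ⟨g, C⟩
  map_zero' := by
    funext g
    change ∑ C : X ⧸ Subgroup.zpowers g, (0 : ℤ) = 0
    simp
  map_add' a b := by
    funext g
    exact Finset.sum_add_distrib

theorem os_apply (a : Om X → ℤ) (g : X) : os a g = ∑ C : X ⧸ Subgroup.zpowers g, a ⟨g, C⟩ := rfl

theorem os_tact (h : X) (a : Om X → ℤ) : os (tact X h a) = os a := by
  funext g
  rw [os_apply, os_apply]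
  exact Equiv.sum_comp (MulAction.toPerm h⁻¹ : Equiv.Perm (X ⧸ Subgroup.zpowers g))
    (fun C => a ⟨g, C⟩)

theorem os_scale (a : Om X → ℤ) (g : X) :
    os (fun ω => (orderOf ω.1 : ℤ) * a ω) g = orderOf g * os a g := by
  rw [os_apply, os_apply, Finset.mul_sum]

theorem tact_single (h : X) (ω : Om X) (c : ℤ) :
    tact X h (Pi.single ω c) = Pi.single (sm h ω) c := by
  funext ω'
  rw [tact_apply]
  by_cases hω : sm h⁻¹ ω' = ω
  · have : ω' = sm h ω := by rw [← hω, sm_sm, mul_inv_cancel, sm_one]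
    rw [hω, this, Pi.single_eq_same, Pi.single_eq_same]
  · have : ω' ≠ sm h ω := by
      rintro rfl
      apply hω
      rw [sm_sm, inv_mul_cancel, sm_one]
    rw [Pi.single_eq_of_ne hω, Pi.single_eq_of_ne this]

/-- the augmentation subgroup -/
def Kc (X : Type) [Group X] : AddSubgroup (Om X → ℤ) :=
  AddSubgroup.closure {d | ∃ (h : X) (ω : Om X),
    d = tact X h (Pi.single ω 1) - Pi.single ω 1}

theorem mem_Kc (a : Om X → ℤ) (ha : os a = 0) : a ∈ Kc X := by
  letI : Fintype X := Fintype.ofFinite X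
  let base : X → Om X := fun g => ⟨g, QuotientGroup.mk 1⟩
  have h1 : a = ∑ ω : Om X, a ω • (Pi.single ω (1 : ℤ) - Pi.single (base ω.1) (1 : ℤ) : Om X → ℤ) := by
    have h2 : a = ∑ ω : Om X, a ω • (Pi.single ω (1 : ℤ) : Om X → ℤ) := by
      funext ω'
      rw [Finset.sum_apply, Finset.sum_eq_single ω']
      · simp
      · intro ω _ hω
        simp [Pi.single_eq_of_ne (Ne.symm hω)]
      · simp
    have h3 : ∑ ω : Om X, a ω • (Pi.single (base ω.1) (1 : ℤ) : Om X → ℤ) = 0 := by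
      have h4 : ∑ ω : Om X, a ω • (Pi.single (base ω.1) (1 : ℤ) : Om X → ℤ) =
          ∑ g : X, ∑ C : X ⧸ Subgroup.zpowers g,
            a ⟨g, C⟩ • (Pi.single (base g) (1 : ℤ) : Om X → ℤ) :=
        Fintype.sum_sigma (fun ω : (Σ g : X, X ⧸ Subgroup.zpowers g) =>
          a ω • (Pi.single (base ω.1) (1 : ℤ) : Om X → ℤ))
      rw [h4]
      apply Finset.sum_eq_zero
      intro g _
      rw [← Finset.sum_smul, ← os_apply, ha, Pi.zero_apply, zero_smul]
    simp only [smul_sub]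
    rw [Finset.sum_sub_distrib, h3, sub_zero]
    exact h2
  rw [h1]
  apply AddSubgroup.sum_mem
  intro ω _
  apply AddSubgroup.zsmul_mem
  apply AddSubgroup.subset_closure
  refine ⟨rep ω, base ω.1, ?_⟩
  rw [tact_single]
  congr 2
  refine Sigma.ext rfl (heq_of_eq ?_)
  change ω.2 = (QuotientGroup.mk (rep ω * 1) : X ⧸ Subgroup.zpowers ω.1)
  rw [mul_one, mk_rep]

namespace Gam

/-- orbit sums as a homomorphism -/
noncomputable def sig : Gam X →* Multiplicative (X → ℤ) where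
  toFun γ := Multiplicative.ofAdd (os γ.ν)
  map_one' := by
    rw [one_ν, map_zero]; rfl
  map_mul' x y := by
    rw [mul_ν, map_add, os_tact]; rfl

theorem mem_ker_sig (γ : Gam X) : γ ∈ (sig (X := X)).ker ↔ os γ.ν = 0 := by
  rw [MonoidHom.mem_ker]
  exact Iff.rfl

/-- multiplication of the `ν`-part by an integer congruent to `1` modulo the group order -/
def scal (κ : ℤ) (hκ : (Nat.card X : ℤ) ∣ κ - 1) (γ : Gam X) : Gam X where
  ν := κ • γ.ν
  h := γ.h
  cond := by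
    intro ω
    rw [γ.cond ω]
    congr 1
    have h1 : (orderOf ω.1 : ℤ) ∣ κ * γ.ν ω - γ.ν ω := by
      have h2 : (orderOf ω.1 : ℤ) ∣ κ - 1 :=
        (Int.natCast_dvd_natCast.2 (orderOf_dvd_natCard ω.1)).trans hκ
      have h3 : κ * γ.ν ω - γ.ν ω = (κ - 1) * γ.ν ω := by ring
      rw [h3]
      exact h2.mul_right _
    have h4 : (κ • γ.ν) ω = γ.ν ω + (κ * γ.ν ω - γ.ν ω) := by
      simp
    rw [h4, zpow_add, orderOf_dvd_iff_zpow_eq_one.1 h1, mul_one]

@[simp] theorem scal_ν (κ : ℤ) (hκ : (Nat.card X : ℤ) ∣ κ - 1) (γ : Gam X) :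
    (scal κ hκ γ).ν = κ • γ.ν := rfl
@[simp] theorem scal_h (κ : ℤ) (hκ : (Nat.card X : ℤ) ∣ κ - 1) (γ : Gam X) :
    (scal κ hκ γ).h = γ.h := rfl

/-- the elements whose `ν`-part is divisible by `q ^ s` -/
def Ls (q : ℕ) (s : ℕ) : Subgroup (sig (X := X)).ker where
  carrier := {γ | ∀ ω, ((q ^ s : ℕ) : ℤ) ∣ (γ : Gam X).ν ω}
  one_mem' := fun ω => by
    change ((q ^ s : ℕ) : ℤ) ∣ 0
    exact dvd_zero _
  mul_mem' := by
    intro x y hx hy ω
    exact dvd_add (hx ω) (hy (sm (x : Gam X).h⁻¹ ω))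
  inv_mem' := by
    intro x hx ω
    exact (dvd_neg).2 (hx _)

theorem Ls_antitone (q : ℕ) : Antitone (Ls (X := X) q) := by
  intro s s' hs γ hγ ω
  exact (Int.natCast_dvd_natCast.2 (pow_dvd_pow q hs)).trans (hγ ω)

/-- the restriction of the projection -/
noncomputable def hK : (sig (X := X)).ker →* X := hHom.comp (Subgroup.subtype _)

theorem Ls_surj (q : ℕ) (hq : Nat.Coprime q (Nat.card X))
    (h0 : ∀ x : X, ∃ γ : (sig (X := X)).ker, hK γ = x) (s : ℕ) (x : X) :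
    ∃ γ ∈ Ls (X := X) q s, hK γ = x := by
  obtain ⟨γ, hγ⟩ := h0 x
  let κ : ℤ := ((q ^ (s * Nat.totient (Nat.card X)) : ℕ) : ℤ)
  have hκ : (Nat.card X : ℤ) ∣ κ - 1 := by
    have h1 : q ^ (s * Nat.totient (Nat.card X)) ≡ 1 [MOD Nat.card X] := by
      rw [mul_comm, pow_mul]
      have := (Nat.ModEq.pow_totient hq).pow s
      rwa [one_pow] at this
    have := (Nat.modEq_iff_dvd.1 h1.symm)
    exact_mod_cast this
  refine ⟨⟨scal κ hκ γ, ?_⟩, ?_, hγ⟩
  · rw [mem_ker_sig, scal_ν, map_zsmul, (mem_ker_sig _).1 γ.2, smul_zero]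
  · intro ω
    change ((q ^ s : ℕ) : ℤ) ∣ κ * (γ : Gam X).ν ω
    apply Dvd.dvd.mul_right
    apply Int.natCast_dvd_natCast.2
    apply pow_dvd_pow
    have : 0 < Nat.totient (Nat.card X) := Nat.totient_pos.2 Nat.card_pos
    nlinarith

theorem Ls_ker (q : ℕ) (hq : Nat.Coprime q (Nat.card X)) (s : ℕ) (hq0 : q ≠ 0)
    (γ : (sig (X := X)).ker) (hγ : γ ∈ Ls q s) (h1 : hK γ = 1) :
    ∃ a ∈ Kc X, (γ : Gam X) = io (Multiplicative.ofAdd ((q ^ s : ℕ) • a)) := by
  obtain ⟨a', ha'⟩ := ker_io (γ : Gam X) h1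
  have h2 : ∀ ω, ∃ c : ℤ, a' ω = ((q ^ s : ℕ) : ℤ) * c := by
    intro ω
    have h3 := hγ ω
    rw [ha', io_ν, toAdd_ofAdd] at h3
    have h4 : IsCoprime ((q ^ s : ℕ) : ℤ) (orderOf ω.1 : ℤ) := by
      rw [Nat.isCoprime_iff_coprime]
      apply Nat.Coprime.pow_left
      exact hq.coprime_dvd_right (orderOf_dvd_natCard ω.1)
    exact h4.dvd_of_dvd_mul_left h3
  choose a ha using h2
  refine ⟨a, ?_, ?_⟩
  · apply mem_Kc
    funext g
    have h3 : os (γ : Gam X).ν = 0 := (mem_ker_sig _).1 γ.2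
    have h4 : (γ : Gam X).ν = fun ω => (orderOf ω.1 : ℤ) * ((((q ^ s : ℕ) : ℤ) • a) ω) := by
      funext ω
      rw [ha', io_ν, toAdd_ofAdd, ha ω]
      rfl
    rw [h4] at h3
    have h5 := congrFun h3 g
    rw [os_scale, map_zsmul] at h5
    simp only [Pi.smul_apply, smul_eq_mul, Pi.zero_apply] at h5
    rcases mul_eq_zero.1 h5 with h | h
    · exfalso
      have h6 : orderOf g = 0 := by exact_mod_cast h
      exact (orderOf_pos g).ne' h6
    · rcases mul_eq_zero.1 h with h | h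
      · exfalso
        have h6 : q ^ s = 0 := by exact_mod_cast h
        exact (pow_ne_zero s hq0) h6
      · exact h
  · rw [ha']
    congr 2
    funext ω
    rw [ha ω]
    simp

/-- a set-theoretic section of the projection -/
noncomputable def lift (x : X) : Gam X := (hHom_surj x).choose

@[simp] theorem lift_h (x : X) : (lift x).h = x := (hHom_surj x).choose_spec

variable (X) in
/-- the subgroup generated by commutators of chosen lifts -/
def Wc : Subgroup (Gam X) := Subgroup.closure {γ | ∃ x y : X, γ = ⁅lift x, lift y⁆}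

theorem Wc_le_ker : Wc X ≤ (sig (X := X)).ker := by
  unfold Wc
  rw [Subgroup.closure_le]
  rintro _ ⟨x, y, rfl⟩
  rw [SetLike.mem_coe, MonoidHom.mem_ker, map_commutatorElement]
  exact commutatorElement_eq_one_iff_mul_comm.2 (mul_comm _ _)

theorem Wc_surj (hperf : commutator X = ⊤) (x : X) : ∃ γ ∈ Wc X, γ.h = x := by
  have h1 : x ∈ commutator X := by rw [hperf]; exact Subgroup.mem_top x
  rw [commutator_eq_closure] at h1
  induction h1 using Subgroup.closure_induction with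
  | mem y hy =>
    obtain ⟨a, b, rfl⟩ := hy
    refine ⟨⁅lift a, lift b⁆, Subgroup.subset_closure ⟨a, b, rfl⟩, ?_⟩
    rw [← hHom_apply, map_commutatorElement, hHom_apply, hHom_apply, lift_h, lift_h]
  | one => exact ⟨1, Subgroup.one_mem _, rfl⟩
  | mul y z _ _ hy hz =>
    obtain ⟨γ, hγ, rfl⟩ := hy
    obtain ⟨γ', hγ', rfl⟩ := hz
    exact ⟨γ * γ', Subgroup.mul_mem _ hγ hγ', rfl⟩
  | inv y _ hy =>
    obtain ⟨γ, hγ, rfl⟩ := hy
    exact ⟨γ⁻¹, Subgroup.inv_mem _ hγ, rfl⟩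

theorem hK_surj (hperf : commutator X = ⊤) (x : X) : ∃ γ : (sig (X := X)).ker, hK γ = x := by
  obtain ⟨γ, hγ, hx⟩ := Wc_surj hperf x
  exact ⟨⟨γ, Wc_le_ker hγ⟩, hx⟩

/-- a subgroup containing the commutators of lifts and the augmentation part contains `ker sig` -/
theorem ker_le (hperf : commutator X = ⊤) (W : Subgroup (Gam X)) (h1 : Wc X ≤ W)
    (h2 : ∀ a ∈ Kc X, io (Multiplicative.ofAdd a) ∈ W) : (sig (X := X)).ker ≤ W := by
  intro γ hγ
  obtain ⟨γ', hγ', hh⟩ := Wc_surj hperf γ.h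
  have h3 : γ'⁻¹ * γ ∈ (sig (X := X)).ker := Subgroup.mul_mem _ (Subgroup.inv_mem _ (Wc_le_ker hγ')) hγ
  have h4 : (γ'⁻¹ * γ).h = 1 := by
    rw [mul_h, inv_h, hh, inv_mul_cancel]
  obtain ⟨a, ha, hγa⟩ := Ls_ker (X := X) 1 (Nat.coprime_one_left _) 0 one_ne_zero
    ⟨γ'⁻¹ * γ, h3⟩ (by intro ω; simp) h4
  have h5 : γ = γ' * io (Multiplicative.ofAdd a) := by
    have h6 : γ'⁻¹ * γ = io (Multiplicative.ofAdd ((1 ^ 0 : ℕ) • a)) := hγa
    rw [pow_zero, one_smul] at h6
    rw [← h6, mul_inv_cancel_left]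
  rw [h5]
  exact W.mul_mem (h1 hγ') (h2 a ha)

end Gam

end Pool.Agent.PC
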